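import Pool.Agent.W_bbc525_gd.Main
import Pool.Agent.W_bbc525_td.Final

/-!
# General degrees: sufficiency of the vertex condition and uniqueness
-/

set_option autoImplicit false
set_option linter.unusedSectionVars false

namespace Pool.Agent.W_bbc525_gd

open Finset MeasureTheory Pool.Agent.W_MP_bbc525_pr Pool.Agent.W_bbc525_h89 Pool.Agent.W_bbc525_td

variable {V : Type*} [Fintype V] [DecidableEq V] {H : SimpleGraph V} [DecidableRel H.Adj]

/-- all positive degrees are equal -/
theorem suff_reg {k : ℕ} (h : DK H k) (hk : 0 < k)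
    (hE : 0 < H.edgeFinset.card) (hone : ∀ v, ¬ k < H.degree v)
    {p q : ℝ} (hp : 0 < p) (hpq : p ≤ q) (hq1 : q < 1) (hN : Ncond H p q) :
    ReplicaSymmetric H p q := by
  refine full_suff hE h.two (s := fun _ => 0) (t := fun _ => 0) (fun e => le_refl _)
    (fun e he hlt => ?_) (fun d => ?_) hp hpq hq1 hN
  · exfalso
    obtain ⟨g1, g2⟩ := h.edge he
    obtain ⟨v, hv⟩ := exists_mdeg (H := H) e
    exact hone v (by omega)
  · simp

/-- the moments of a feasible graphon with large `k`-th moment -/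
theorem cost_ge_large {k : ℕ} (hk : 0 < k) (h : DK H k) (hE : 0 < H.edgeFinset.card)
    {p q : ℝ} (hp : 0 < p) (hpq : p ≤ q) (hq1 : q < 1) (hN : Ncond H p q) (W : Graphon)
    (hW : q ^ H.edgeFinset.card ≤ homDensity H W) (hx1 : 1 ≤ W.mom k / q ^ k) :
    (∀ v, 0 ≤ W.mom (H.degree v) / q ^ H.degree v - 1) ∧
    (q * (logit q - logit p) / (2 * H.edgeFinset.card)) *
      ∑ v, (W.mom (H.degree v) / q ^ H.degree v - 1) ≤ cost p W - relEnt p q := by
  have hq : 0 < q := lt_of_lt_of_le hp hpq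
  have hp1 : p < 1 := lt_of_le_of_lt hpq hq1
  obtain ⟨hpos, hjen, -⟩ := feas hE h.two hq W hW
  refine ⟨fun v => ?_, Ncond.cost_ge hp hp1 hN W⟩
  rcases h v with h1 | h1
  · rw [h1]
    simp [Graphon.mom]
  · have h2 := hjen k (H.degree v) hk h1.1
    have h3 : (1 : ℝ) ≤ (W.mom k / q ^ k) ^ ((H.degree v : ℝ) / k) :=
      Real.one_le_rpow hx1 (by positivity)
    linarith

/-- **Sufficiency of the vertex condition.** -/
theorem gd_suff {k : ℕ} (hk : 0 < k) (h : DK H k) (hkv : ∃ v, H.degree v = k)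
    (hE : 0 < H.edgeFinset.card) {p q : ℝ} (hp : 0 < p) (hpq : p ≤ q) (hq1 : q < 1)
    (hN : Ncond H p q) : ReplicaSymmetric H p q := by
  have hq : 0 < q := lt_of_lt_of_le hp hpq
  have hp1 : p < 1 := lt_of_le_of_lt hpq hq1
  have hE' : (0:ℝ) < H.edgeFinset.card := by exact_mod_cast hE
  rcases Nat.lt_or_ge k 2 with h1 | hk2
  · -- maximum degree two
    have hH : ∀ v, H.degree v ≤ 2 := fun v => by
      rcases h v with h2 | h2 <;> omega
    exact (diagram_two H hH hE hp hpq hq1).1.2 (deg_two hH hE hp hpq hq1 hN)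
  by_cases hbig : ∃ v, k < H.degree v
  swap
  · push Not at hbig
    exact suff_reg h hk hE (fun v => by have := hbig v; omega) hp hpq hq1 hN
  rw [replicaSymmetric_iff H hp hpq hq1]
  intro W hW
  by_cases hx1 : W.mom k / q ^ k < 1
  · exact (excess hk2 h hkv hbig hE hp hpq hq1 hN W hW hx1).le
  · push Not at hx1
    obtain ⟨h2, h3⟩ := cost_ge_large hk h hE hp hpq hq1 hN W hW hx1
    have h4 := logit_mono hp hpq hq1
    have h5 : 0 ≤ (q * (logit q - logit p) / (2 * (H.edgeFinset.card : ℝ))) *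
        ∑ v, (W.mom (H.degree v) / q ^ H.degree v - 1) :=
      mul_nonneg (by positivity) (Finset.sum_nonneg fun v _ => h2 v)
    linarith

/-- **Uniqueness.** -/
theorem gd_unique {k : ℕ} (hk : 0 < k) (h : DK H k) (hkv : ∃ v, H.degree v = k)
    (hbig : ∃ v, k < H.degree v) (hE : 0 < H.edgeFinset.card)
    {p q : ℝ} (hp : 0 < p) (hpq : p ≤ q) (hq1 : q < 1)
    (hN : Ncond H p q) : UniqueMinimizer H p q := by
  have hq : 0 < q := lt_of_lt_of_le hp hpq
  have hp1 : p < 1 := lt_of_le_of_lt hpq hq1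
  have hE' : (0:ℝ) < H.edgeFinset.card := by exact_mod_cast hE
  have hk' : (0 : ℝ) < k := by exact_mod_cast hk
  rcases Nat.lt_or_ge k 2 with h1 | hk2
  · -- maximum degree two
    have hH : ∀ v, H.degree v ≤ 2 := fun v => by
      rcases h v with h2 | h2 <;> omega
    exact (diagram_two H hH hE hp hpq hq1).2
      ((diagram_two H hH hE hp hpq hq1).1.2 (deg_two hH hE hp hpq hq1 hN))
  rcases hpq.eq_or_lt with rfl | hlt
  · exact full_unique_self H hp hq1
  intro W hW hcost
  by_cases hx1 : W.mom k / q ^ k < 1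
  · exact absurd hcost (not_le.2 (excess hk2 h hkv hbig hE hp hpq hq1 hN W hW hx1))
  · push Not at hx1
    obtain ⟨h2, h3⟩ := cost_ge_large hk h hE hp hpq hq1 hN W hW hx1
    have h4 := logit_strictMono hp hlt hq1
    have h4' : 0 < logit q - logit p := by linarith
    have h5 : ∑ v, (W.mom (H.degree v) / q ^ H.degree v - 1) ≤ 0 := by
      by_contra hcon
      push Not at hcon
      have : 0 < (q * (logit q - logit p) / (2 * (H.edgeFinset.card : ℝ))) *
        ∑ v, (W.mom (H.degree v) / q ^ H.degree v - 1) := mul_pos (by positivity) hcon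
      linarith
    have h6 : ∀ v, W.mom (H.degree v) = q ^ H.degree v := by
      intro v
      have h7 := (Finset.sum_eq_zero_iff_of_nonneg (fun v _ => h2 v)).1
        (le_antisymm h5 (Finset.sum_nonneg fun v _ => h2 v)) v (Finset.mem_univ v)
      have h8 : W.mom (H.degree v) / q ^ H.degree v = 1 := by linarith
      rwa [div_eq_one_iff_eq (by positivity)] at h8
    obtain ⟨u, hu⟩ := hkv
    obtain ⟨v, hv⟩ := hbig
    have h7 := h6 u
    rw [hu] at h7
    exact ae_eq_of_two_moments W hq hk hv h7 (h6 v)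

end Pool.Agent.W_bbc525_gd
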