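import Pool.Agent.W_bbc525_gd.Cex4

/-!
# Small stars: the table, part 2
-/

set_option autoImplicit false

namespace Pool.Agent.W_bbc525_gd

open Pool.Agent.W_MP_bbc525_pr Pool.Agent.W_bbc525_h89 Pool.Agent.W_bbc525_td

theorem cex_k32 : ∃ p q : ℝ, 0 < p ∧ p < q ∧ q < 1 ∧
    Ncond (sg 32) p q ∧ ¬ ReplicaSymmetric (sg 32) p q :=
  cex_tab (n := 31) (by norm_num) (13 / 1000) (34 / 125) (4909 / 1000)
    (-(8 * (542849 / 1000000))) (-(8 * (162743 / 1000000))) (49721 / 31250)
    (1959 / 62500) (11607 / 500000) (-(8 * (16847 / 1000000)))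
    (by norm_num) (by norm_num) (by norm_num) (by norm_num) (by norm_num) (by norm_num)
    (log_le_neg (by norm_num) (by norm_num) (by norm_num) (by norm_num))
    (log_le_neg (by norm_num) (by norm_num) (by norm_num) (by norm_num))
    (log_le_pos (by norm_num) (by norm_num) (by norm_num))
    (log_le_pos (by norm_num) (by norm_num) (by norm_num))
    (log_le_pos (by norm_num) (by norm_num) (by norm_num))
    (log_le_neg (by norm_num) (by norm_num) (by norm_num) (by norm_num))
    (by norm_num) (by norm_num)

theorem cex_k33 : ∃ p q : ℝ, 0 < p ∧ p < q ∧ q < 1 ∧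
    Ncond (sg 33) p q ∧ ¬ ReplicaSymmetric (sg 33) p q :=
  cex_tab (n := 32) (by norm_num) (13 / 1000) (269 / 1000) (4947 / 1000)
    (-(8 * (542849 / 1000000))) (-(8 * (164129 / 1000000))) (1598783 / 1000000)
    (30379 / 1000000) (5647 / 250000) (-(8 * (8227 / 500000)))
    (by norm_num) (by norm_num) (by norm_num) (by norm_num) (by norm_num) (by norm_num)
    (log_le_neg (by norm_num) (by norm_num) (by norm_num) (by norm_num))
    (log_le_neg (by norm_num) (by norm_num) (by norm_num) (by norm_num))
    (log_le_pos (by norm_num) (by norm_num) (by norm_num))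
    (log_le_pos (by norm_num) (by norm_num) (by norm_num))
    (log_le_pos (by norm_num) (by norm_num) (by norm_num))
    (log_le_neg (by norm_num) (by norm_num) (by norm_num) (by norm_num))
    (by norm_num) (by norm_num)

theorem cex_k34 : ∃ p q : ℝ, 0 < p ∧ p < q ∧ q < 1 ∧
    Ncond (sg 34) p q ∧ ¬ ReplicaSymmetric (sg 34) p q :=
  cex_tab (n := 33) (by norm_num) (3 / 250) (267 / 1000) (249 / 50)
    (-(8 * (110571 / 200000))) (-(8 * (82531 / 500000))) (1605431 / 1000000)
    (29501 / 1000000) (21971 / 1000000) (-(8 * (251 / 15625)))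
    (by norm_num) (by norm_num) (by norm_num) (by norm_num) (by norm_num) (by norm_num)
    (log_le_neg (by norm_num) (by norm_num) (by norm_num) (by norm_num))
    (log_le_neg (by norm_num) (by norm_num) (by norm_num) (by norm_num))
    (log_le_pos (by norm_num) (by norm_num) (by norm_num))
    (log_le_pos (by norm_num) (by norm_num) (by norm_num))
    (log_le_pos (by norm_num) (by norm_num) (by norm_num))
    (log_le_neg (by norm_num) (by norm_num) (by norm_num) (by norm_num))
    (by norm_num) (by norm_num)

theorem cex_k35 : ∃ p q : ℝ, 0 < p ∧ p < q ∧ q < 1 ∧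
    Ncond (sg 35) p q ∧ ¬ ReplicaSymmetric (sg 35) p q :=
  cex_tab (n := 34) (by norm_num) (3 / 250) (33 / 125) (5019 / 1000)
    (-(8 * (110571 / 200000))) (-(8 * (83237 / 500000))) (100827 / 62500)
    (14323 / 500000) (10709 / 500000) (-(8 * (15723 / 1000000)))
    (by norm_num) (by norm_num) (by norm_num) (by norm_num) (by norm_num) (by norm_num)
    (log_le_neg (by norm_num) (by norm_num) (by norm_num) (by norm_num))
    (log_le_neg (by norm_num) (by norm_num) (by norm_num) (by norm_num))
    (log_le_pos (by norm_num) (by norm_num) (by norm_num))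
    (log_le_pos (by norm_num) (by norm_num) (by norm_num))
    (log_le_pos (by norm_num) (by norm_num) (by norm_num))
    (log_le_neg (by norm_num) (by norm_num) (by norm_num) (by norm_num))
    (by norm_num) (by norm_num)

theorem cex_k36 : ∃ p q : ℝ, 0 < p ∧ p < q ∧ q < 1 ∧
    Ncond (sg 36) p q ∧ ¬ ReplicaSymmetric (sg 36) p q :=
  cex_tab (n := 35) (by norm_num) (3 / 250) (131 / 500) (1261 / 250)
    (-(8 * (110571 / 200000))) (-(8 * (6697 / 40000))) (1618201 / 1000000)
    (27839 / 1000000) (5217 / 250000) (-(8 * (7673 / 500000)))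
    (by norm_num) (by norm_num) (by norm_num) (by norm_num) (by norm_num) (by norm_num)
    (log_le_neg (by norm_num) (by norm_num) (by norm_num) (by norm_num))
    (log_le_neg (by norm_num) (by norm_num) (by norm_num) (by norm_num))
    (log_le_pos (by norm_num) (by norm_num) (by norm_num))
    (log_le_pos (by norm_num) (by norm_num) (by norm_num))
    (log_le_pos (by norm_num) (by norm_num) (by norm_num))
    (log_le_neg (by norm_num) (by norm_num) (by norm_num) (by norm_num))
    (by norm_num) (by norm_num)

theorem cex_k37 : ∃ p q : ℝ, 0 < p ∧ p < q ∧ q < 1 ∧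
    Ncond (sg 37) p q ∧ ¬ ReplicaSymmetric (sg 37) p q :=
  cex_tab (n := 36) (by norm_num) (3 / 250) (259 / 1000) (1017 / 200)
    (-(8 * (110571 / 200000))) (-(8 * (5277 / 31250))) (1626297 / 1000000)
    (6769 / 250000) (2547 / 125000) (-(8 * (7527 / 500000)))
    (by norm_num) (by norm_num) (by norm_num) (by norm_num) (by norm_num) (by norm_num)
    (log_le_neg (by norm_num) (by norm_num) (by norm_num) (by norm_num))
    (log_le_neg (by norm_num) (by norm_num) (by norm_num) (by norm_num))
    (log_le_pos (by norm_num) (by norm_num) (by norm_num))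
    (log_le_pos (by norm_num) (by norm_num) (by norm_num))
    (log_le_pos (by norm_num) (by norm_num) (by norm_num))
    (log_le_neg (by norm_num) (by norm_num) (by norm_num) (by norm_num))
    (by norm_num) (by norm_num)

theorem cex_k38 : ∃ p q : ℝ, 0 < p ∧ p < q ∧ q < 1 ∧
    Ncond (sg 38) p q ∧ ¬ ReplicaSymmetric (sg 38) p q :=
  cex_tab (n := 37) (by norm_num) (11 / 1000) (129 / 500) (5107 / 1000)
    (-(8 * (563731 / 1000000))) (-(8 * (42337 / 250000))) (815307 / 500000)
    (1319 / 50000) (19857 / 1000000) (-(8 * (7353 / 500000)))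
    (by norm_num) (by norm_num) (by norm_num) (by norm_num) (by norm_num) (by norm_num)
    (log_le_neg (by norm_num) (by norm_num) (by norm_num) (by norm_num))
    (log_le_neg (by norm_num) (by norm_num) (by norm_num) (by norm_num))
    (log_le_pos (by norm_num) (by norm_num) (by norm_num))
    (log_le_pos (by norm_num) (by norm_num) (by norm_num))
    (log_le_pos (by norm_num) (by norm_num) (by norm_num))
    (log_le_neg (by norm_num) (by norm_num) (by norm_num) (by norm_num))
    (by norm_num) (by norm_num)

theorem cex_k39 : ∃ p q : ℝ, 0 < p ∧ p < q ∧ q < 1 ∧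
    Ncond (sg 39) p q ∧ ¬ ReplicaSymmetric (sg 39) p q :=
  cex_tab (n := 38) (by norm_num) (11 / 1000) (32 / 125) (2567 / 500)
    (-(8 * (563731 / 1000000))) (-(8 * (170321 / 1000000))) (1635887 / 1000000)
    (5139 / 200000) (19391 / 1000000) (-(8 * (2879 / 200000)))
    (by norm_num) (by norm_num) (by norm_num) (by norm_num) (by norm_num) (by norm_num)
    (log_le_neg (by norm_num) (by norm_num) (by norm_num) (by norm_num))
    (log_le_neg (by norm_num) (by norm_num) (by norm_num) (by norm_num))
    (log_le_pos (by norm_num) (by norm_num) (by norm_num))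
    (log_le_pos (by norm_num) (by norm_num) (by norm_num))
    (log_le_pos (by norm_num) (by norm_num) (by norm_num))
    (log_le_neg (by norm_num) (by norm_num) (by norm_num) (by norm_num))
    (by norm_num) (by norm_num)

theorem cex_k40 : ∃ p q : ℝ, 0 < p ∧ p < q ∧ q < 1 ∧
    Ncond (sg 40) p q ∧ ¬ ReplicaSymmetric (sg 40) p q :=
  cex_tab (n := 39) (by norm_num) (11 / 1000) (127 / 500) (2581 / 500)
    (-(8 * (563731 / 1000000))) (-(8 * (171301 / 1000000))) (820663 / 500000)
    (6261 / 250000) (18949 / 1000000) (-(8 * (2821 / 200000)))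
    (by norm_num) (by norm_num) (by norm_num) (by norm_num) (by norm_num) (by norm_num)
    (log_le_neg (by norm_num) (by norm_num) (by norm_num) (by norm_num))
    (log_le_neg (by norm_num) (by norm_num) (by norm_num) (by norm_num))
    (log_le_pos (by norm_num) (by norm_num) (by norm_num))
    (log_le_pos (by norm_num) (by norm_num) (by norm_num))
    (log_le_pos (by norm_num) (by norm_num) (by norm_num))
    (log_le_neg (by norm_num) (by norm_num) (by norm_num) (by norm_num))
    (by norm_num) (by norm_num)

theorem cex_k41 : ∃ p q : ℝ, 0 < p ∧ p < q ∧ q < 1 ∧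
    Ncond (sg 41) p q ∧ ¬ ReplicaSymmetric (sg 41) p q :=
  cex_tab (n := 40) (by norm_num) (11 / 1000) (253 / 1000) (207 / 40)
    (-(8 * (563731 / 1000000))) (-(8 * (85897 / 500000))) (1643841 / 1000000)
    (12213 / 500000) (2313 / 125000) (-(8 * (6889 / 500000)))
    (by norm_num) (by norm_num) (by norm_num) (by norm_num) (by norm_num) (by norm_num)
    (log_le_neg (by norm_num) (by norm_num) (by norm_num) (by norm_num))
    (log_le_neg (by norm_num) (by norm_num) (by norm_num) (by norm_num))
    (log_le_pos (by norm_num) (by norm_num) (by norm_num))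
    (log_le_pos (by norm_num) (by norm_num) (by norm_num))
    (log_le_pos (by norm_num) (by norm_num) (by norm_num))
    (log_le_neg (by norm_num) (by norm_num) (by norm_num) (by norm_num))
    (by norm_num) (by norm_num)

theorem cex_k42 : ∃ p q : ℝ, 0 < p ∧ p < q ∧ q < 1 ∧
    Ncond (sg 42) p q ∧ ¬ ReplicaSymmetric (sg 42) p q :=
  cex_tab (n := 41) (by norm_num) (11 / 1000) (251 / 1000) (5203 / 1000)
    (-(8 * (563731 / 1000000))) (-(8 * (86393 / 500000))) (1649237 / 1000000)
    (23837 / 1000000) (3621 / 200000) (-(8 * (6759 / 500000)))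
    (by norm_num) (by norm_num) (by norm_num) (by norm_num) (by norm_num) (by norm_num)
    (log_le_neg (by norm_num) (by norm_num) (by norm_num) (by norm_num))
    (log_le_neg (by norm_num) (by norm_num) (by norm_num) (by norm_num))
    (log_le_pos (by norm_num) (by norm_num) (by norm_num))
    (log_le_pos (by norm_num) (by norm_num) (by norm_num))
    (log_le_pos (by norm_num) (by norm_num) (by norm_num))
    (log_le_neg (by norm_num) (by norm_num) (by norm_num) (by norm_num))
    (by norm_num) (by norm_num)

theorem cex_k43 : ∃ p q : ℝ, 0 < p ∧ p < q ∧ q < 1 ∧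
    Ncond (sg 43) p q ∧ ¬ ReplicaSymmetric (sg 43) p q :=
  cex_tab (n := 42) (by norm_num) (11 / 1000) (249 / 1000) (5231 / 1000)
    (-(8 * (563731 / 1000000))) (-(8 * (86893 / 500000))) (413651 / 250000)
    (5819 / 250000) (4431 / 250000) (-(8 * (13271 / 1000000)))
    (by norm_num) (by norm_num) (by norm_num) (by norm_num) (by norm_num) (by norm_num)
    (log_le_neg (by norm_num) (by norm_num) (by norm_num) (by norm_num))
    (log_le_neg (by norm_num) (by norm_num) (by norm_num) (by norm_num))
    (log_le_pos (by norm_num) (by norm_num) (by norm_num))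
    (log_le_pos (by norm_num) (by norm_num) (by norm_num))
    (log_le_pos (by norm_num) (by norm_num) (by norm_num))
    (log_le_neg (by norm_num) (by norm_num) (by norm_num) (by norm_num))
    (by norm_num) (by norm_num)

theorem cex_k44 : ∃ p q : ℝ, 0 < p ∧ p < q ∧ q < 1 ∧
    Ncond (sg 44) p q ∧ ¬ ReplicaSymmetric (sg 44) p q :=
  cex_tab (n := 43) (by norm_num) (1 / 100) (249 / 1000) (131 / 25)
    (-(8 * (115129 / 200000))) (-(8 * (86893 / 500000))) (1656323 / 1000000)
    (5691 / 250000) (4329 / 250000) (-(8 * (519 / 40000)))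
    (by norm_num) (by norm_num) (by norm_num) (by norm_num) (by norm_num) (by norm_num)
    (log_le_neg (by norm_num) (by norm_num) (by norm_num) (by norm_num))
    (log_le_neg (by norm_num) (by norm_num) (by norm_num) (by norm_num))
    (log_le_pos (by norm_num) (by norm_num) (by norm_num))
    (log_le_pos (by norm_num) (by norm_num) (by norm_num))
    (log_le_pos (by norm_num) (by norm_num) (by norm_num))
    (log_le_neg (by norm_num) (by norm_num) (by norm_num) (by norm_num))
    (by norm_num) (by norm_num)

theorem cex_k45 : ∃ p q : ℝ, 0 < p ∧ p < q ∧ q < 1 ∧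
    Ncond (sg 45) p q ∧ ¬ ReplicaSymmetric (sg 45) p q :=
  cex_tab (n := 44) (by norm_num) (1 / 100) (247 / 1000) (527 / 100)
    (-(8 * (115129 / 200000))) (-(8 * (87397 / 500000))) (103877 / 62500)
    (5563 / 250000) (1697 / 100000) (-(8 * (12759 / 1000000)))
    (by norm_num) (by norm_num) (by norm_num) (by norm_num) (by norm_num) (by norm_num)
    (log_le_neg (by norm_num) (by norm_num) (by norm_num) (by norm_num))
    (log_le_neg (by norm_num) (by norm_num) (by norm_num) (by norm_num))
    (log_le_pos (by norm_num) (by norm_num) (by norm_num))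
    (log_le_pos (by norm_num) (by norm_num) (by norm_num))
    (log_le_pos (by norm_num) (by norm_num) (by norm_num))
    (log_le_neg (by norm_num) (by norm_num) (by norm_num) (by norm_num))
    (by norm_num) (by norm_num)

theorem cex_k46 : ∃ p q : ℝ, 0 < p ∧ p < q ∧ q < 1 ∧
    Ncond (sg 46) p q ∧ ¬ ReplicaSymmetric (sg 46) p q :=
  cex_tab (n := 45) (by norm_num) (1 / 100) (123 / 500) (1321 / 250)
    (-(8 * (115129 / 200000))) (-(8 * (175301 / 1000000))) (332937 / 200000)
    (21763 / 1000000) (8309 / 500000) (-(8 * (1563 / 125000)))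
    (by norm_num) (by norm_num) (by norm_num) (by norm_num) (by norm_num) (by norm_num)
    (log_le_neg (by norm_num) (by norm_num) (by norm_num) (by norm_num))
    (log_le_neg (by norm_num) (by norm_num) (by norm_num) (by norm_num))
    (log_le_pos (by norm_num) (by norm_num) (by norm_num))
    (log_le_pos (by norm_num) (by norm_num) (by norm_num))
    (log_le_pos (by norm_num) (by norm_num) (by norm_num))
    (log_le_neg (by norm_num) (by norm_num) (by norm_num) (by norm_num))
    (by norm_num) (by norm_num)

theorem cex_k47 : ∃ p q : ℝ, 0 < p ∧ p < q ∧ q < 1 ∧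
    Ncond (sg 47) p q ∧ ¬ ReplicaSymmetric (sg 47) p q :=
  cex_tab (n := 46) (by norm_num) (1 / 100) (49 / 200) (5299 / 1000)
    (-(8 * (115129 / 200000))) (-(8 * (175811 / 1000000))) (5211 / 3125)
    (4259 / 200000) (16281 / 1000000) (-(8 * (12263 / 1000000)))
    (by norm_num) (by norm_num) (by norm_num) (by norm_num) (by norm_num) (by norm_num)
    (log_le_neg (by norm_num) (by norm_num) (by norm_num) (by norm_num))
    (log_le_neg (by norm_num) (by norm_num) (by norm_num) (by norm_num))
    (log_le_pos (by norm_num) (by norm_num) (by norm_num))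
    (log_le_pos (by norm_num) (by norm_num) (by norm_num))
    (log_le_pos (by norm_num) (by norm_num) (by norm_num))
    (log_le_neg (by norm_num) (by norm_num) (by norm_num) (by norm_num))
    (by norm_num) (by norm_num)

theorem cex_k48 : ∃ p q : ℝ, 0 < p ∧ p < q ∧ q < 1 ∧
    Ncond (sg 48) p q ∧ ¬ ReplicaSymmetric (sg 48) p q :=
  cex_tab (n := 47) (by norm_num) (1 / 100) (243 / 1000) (2663 / 500)
    (-(8 * (115129 / 200000))) (-(8 * (35367 / 200000))) (836301 / 500000)
    (20847 / 1000000) (799 / 50000) (-(8 * (3017 / 250000)))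
    (by norm_num) (by norm_num) (by norm_num) (by norm_num) (by norm_num) (by norm_num)
    (log_le_neg (by norm_num) (by norm_num) (by norm_num) (by norm_num))
    (log_le_neg (by norm_num) (by norm_num) (by norm_num) (by norm_num))
    (log_le_pos (by norm_num) (by norm_num) (by norm_num))
    (log_le_pos (by norm_num) (by norm_num) (by norm_num))
    (log_le_pos (by norm_num) (by norm_num) (by norm_num))
    (log_le_neg (by norm_num) (by norm_num) (by norm_num) (by norm_num))
    (by norm_num) (by norm_num)

end Pool.Agent.W_bbc525_gd
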