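import Pool.Agent.W_bbc525_gd.Cex4

/-!
# Small stars: the table, part 3
-/

set_option autoImplicit false

namespace Pool.Agent.W_bbc525_gd

open Pool.Agent.W_MP_bbc525_pr Pool.Agent.W_bbc525_h89 Pool.Agent.W_bbc525_td

theorem cex_k49 : ∃ p q : ℝ, 0 < p ∧ p < q ∧ q < 1 ∧
    Ncond (sg 49) p q ∧ ¬ ReplicaSymmetric (sg 49) p q :=
  cex_tab (n := 48) (by norm_num) (1 / 100) (121 / 500) (5343 / 1000)
    (-(8 * (115129 / 200000))) (-(8 * (177351 / 1000000))) (1675789 / 1000000)
    (20417 / 1000000) (1567 / 100000) (-(8 * (11853 / 1000000)))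
    (by norm_num) (by norm_num) (by norm_num) (by norm_num) (by norm_num) (by norm_num)
    (log_le_neg (by norm_num) (by norm_num) (by norm_num) (by norm_num))
    (log_le_neg (by norm_num) (by norm_num) (by norm_num) (by norm_num))
    (log_le_pos (by norm_num) (by norm_num) (by norm_num))
    (log_le_pos (by norm_num) (by norm_num) (by norm_num))
    (log_le_pos (by norm_num) (by norm_num) (by norm_num))
    (log_le_neg (by norm_num) (by norm_num) (by norm_num) (by norm_num))
    (by norm_num) (by norm_num)

theorem cex_k50 : ∃ p q : ℝ, 0 < p ∧ p < q ∧ q < 1 ∧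
    Ncond (sg 50) p q ∧ ¬ ReplicaSymmetric (sg 50) p q :=
  cex_tab (n := 49) (by norm_num) (1 / 100) (241 / 1000) (2679 / 500)
    (-(8 * (115129 / 200000))) (-(8 * (44467 / 250000))) (26228 / 15625)
    (5001 / 250000) (15373 / 1000000) (-(8 * (5821 / 500000)))
    (by norm_num) (by norm_num) (by norm_num) (by norm_num) (by norm_num) (by norm_num)
    (log_le_neg (by norm_num) (by norm_num) (by norm_num) (by norm_num))
    (log_le_neg (by norm_num) (by norm_num) (by norm_num) (by norm_num))
    (log_le_pos (by norm_num) (by norm_num) (by norm_num))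
    (log_le_pos (by norm_num) (by norm_num) (by norm_num))
    (log_le_pos (by norm_num) (by norm_num) (by norm_num))
    (log_le_neg (by norm_num) (by norm_num) (by norm_num) (by norm_num))
    (by norm_num) (by norm_num)

theorem cex_k51 : ∃ p q : ℝ, 0 < p ∧ p < q ∧ q < 1 ∧
    Ncond (sg 51) p q ∧ ¬ ReplicaSymmetric (sg 51) p q :=
  cex_tab (n := 50) (by norm_num) (1 / 100) (6 / 25) (2687 / 500)
    (-(8 * (115129 / 200000))) (-(8 * (44597 / 250000))) (840787 / 500000)
    (2451 / 125000) (15087 / 1000000) (-(8 * (5721 / 500000)))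
    (by norm_num) (by norm_num) (by norm_num) (by norm_num) (by norm_num) (by norm_num)
    (log_le_neg (by norm_num) (by norm_num) (by norm_num) (by norm_num))
    (log_le_neg (by norm_num) (by norm_num) (by norm_num) (by norm_num))
    (log_le_pos (by norm_num) (by norm_num) (by norm_num))
    (log_le_pos (by norm_num) (by norm_num) (by norm_num))
    (log_le_pos (by norm_num) (by norm_num) (by norm_num))
    (log_le_neg (by norm_num) (by norm_num) (by norm_num) (by norm_num))
    (by norm_num) (by norm_num)

theorem cex_k52 : ∃ p q : ℝ, 0 < p ∧ p < q ∧ q < 1 ∧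
    Ncond (sg 52) p q ∧ ¬ ReplicaSymmetric (sg 52) p q :=
  cex_tab (n := 51) (by norm_num) (1 / 100) (239 / 1000) (1347 / 250)
    (-(8 * (115129 / 200000))) (-(8 * (17891 / 100000))) (105261 / 62500)
    (19227 / 1000000) (14813 / 1000000) (-(8 * (2811 / 250000)))
    (by norm_num) (by norm_num) (by norm_num) (by norm_num) (by norm_num) (by norm_num)
    (log_le_neg (by norm_num) (by norm_num) (by norm_num) (by norm_num))
    (log_le_neg (by norm_num) (by norm_num) (by norm_num) (by norm_num))
    (log_le_pos (by norm_num) (by norm_num) (by norm_num))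
    (log_le_pos (by norm_num) (by norm_num) (by norm_num))
    (log_le_pos (by norm_num) (by norm_num) (by norm_num))
    (log_le_neg (by norm_num) (by norm_num) (by norm_num) (by norm_num))
    (by norm_num) (by norm_num)

theorem cex_k53 : ∃ p q : ℝ, 0 < p ∧ p < q ∧ q < 1 ∧
    Ncond (sg 53) p q ∧ ¬ ReplicaSymmetric (sg 53) p q :=
  cex_tab (n := 52) (by norm_num) (1 / 100) (119 / 500) (5403 / 1000)
    (-(8 * (115129 / 200000))) (-(8 * (89717 / 500000))) (421739 / 250000)
    (18861 / 1000000) (14549 / 1000000) (-(8 * (5529 / 500000)))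
    (by norm_num) (by norm_num) (by norm_num) (by norm_num) (by norm_num) (by norm_num)
    (log_le_neg (by norm_num) (by norm_num) (by norm_num) (by norm_num))
    (log_le_neg (by norm_num) (by norm_num) (by norm_num) (by norm_num))
    (log_le_pos (by norm_num) (by norm_num) (by norm_num))
    (log_le_pos (by norm_num) (by norm_num) (by norm_num))
    (log_le_pos (by norm_num) (by norm_num) (by norm_num))
    (log_le_neg (by norm_num) (by norm_num) (by norm_num) (by norm_num))
    (by norm_num) (by norm_num)

theorem cex_k54 : ∃ p q : ℝ, 0 < p ∧ p < q ∧ q < 1 ∧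
    Ncond (sg 54) p q ∧ ¬ ReplicaSymmetric (sg 54) p q :=
  cex_tab (n := 53) (by norm_num) (1 / 100) (119 / 500) (1351 / 250)
    (-(8 * (115129 / 200000))) (-(8 * (89717 / 500000))) (1687141 / 1000000)
    (4627 / 250000) (3569 / 250000) (-(8 * (5421 / 500000)))
    (by norm_num) (by norm_num) (by norm_num) (by norm_num) (by norm_num) (by norm_num)
    (log_le_neg (by norm_num) (by norm_num) (by norm_num) (by norm_num))
    (log_le_neg (by norm_num) (by norm_num) (by norm_num) (by norm_num))
    (log_le_pos (by norm_num) (by norm_num) (by norm_num))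
    (log_le_pos (by norm_num) (by norm_num) (by norm_num))
    (log_le_pos (by norm_num) (by norm_num) (by norm_num))
    (log_le_neg (by norm_num) (by norm_num) (by norm_num) (by norm_num))
    (by norm_num) (by norm_num)

theorem cex_k55 : ∃ p q : ℝ, 0 < p ∧ p < q ∧ q < 1 ∧
    Ncond (sg 55) p q ∧ ¬ ReplicaSymmetric (sg 55) p q :=
  cex_tab (n := 54) (by norm_num) (9 / 1000) (237 / 1000) (543 / 100)
    (-(8 * (117763 / 200000))) (-(8 * (4499 / 25000))) (1691941 / 1000000)
    (18187 / 1000000) (877 / 62500) (-(8 * (5349 / 500000)))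
    (by norm_num) (by norm_num) (by norm_num) (by norm_num) (by norm_num) (by norm_num)
    (log_le_neg (by norm_num) (by norm_num) (by norm_num) (by norm_num))
    (log_le_neg (by norm_num) (by norm_num) (by norm_num) (by norm_num))
    (log_le_pos (by norm_num) (by norm_num) (by norm_num))
    (log_le_pos (by norm_num) (by norm_num) (by norm_num))
    (log_le_pos (by norm_num) (by norm_num) (by norm_num))
    (log_le_neg (by norm_num) (by norm_num) (by norm_num) (by norm_num))
    (by norm_num) (by norm_num)

theorem cex_k56 : ∃ p q : ℝ, 0 < p ∧ p < q ∧ q < 1 ∧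
    Ncond (sg 56) p q ∧ ¬ ReplicaSymmetric (sg 56) p q :=
  cex_tab (n := 55) (by norm_num) (9 / 1000) (237 / 1000) (543 / 100)
    (-(8 * (117763 / 200000))) (-(8 * (4499 / 25000))) (1691941 / 1000000)
    (17859 / 1000000) (13779 / 1000000) (-(8 * (2099 / 200000)))
    (by norm_num) (by norm_num) (by norm_num) (by norm_num) (by norm_num) (by norm_num)
    (log_le_neg (by norm_num) (by norm_num) (by norm_num) (by norm_num))
    (log_le_neg (by norm_num) (by norm_num) (by norm_num) (by norm_num))
    (log_le_pos (by norm_num) (by norm_num) (by norm_num))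
    (log_le_pos (by norm_num) (by norm_num) (by norm_num))
    (log_le_pos (by norm_num) (by norm_num) (by norm_num))
    (log_le_neg (by norm_num) (by norm_num) (by norm_num) (by norm_num))
    (by norm_num) (by norm_num)

theorem cex_k57 : ∃ p q : ℝ, 0 < p ∧ p < q ∧ q < 1 ∧
    Ncond (sg 57) p q ∧ ¬ ReplicaSymmetric (sg 57) p q :=
  cex_tab (n := 56) (by norm_num) (9 / 1000) (59 / 250) (2723 / 500)
    (-(8 * (117763 / 200000))) (-(8 * (180489 / 1000000))) (1694883 / 1000000)
    (17543 / 1000000) (847 / 62500) (-(8 * (10339 / 1000000)))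
    (by norm_num) (by norm_num) (by norm_num) (by norm_num) (by norm_num) (by norm_num)
    (log_le_neg (by norm_num) (by norm_num) (by norm_num) (by norm_num))
    (log_le_neg (by norm_num) (by norm_num) (by norm_num) (by norm_num))
    (log_le_pos (by norm_num) (by norm_num) (by norm_num))
    (log_le_pos (by norm_num) (by norm_num) (by norm_num))
    (log_le_pos (by norm_num) (by norm_num) (by norm_num))
    (log_le_neg (by norm_num) (by norm_num) (by norm_num) (by norm_num))
    (by norm_num) (by norm_num)

theorem cex_k58 : ∃ p q : ℝ, 0 < p ∧ p < q ∧ q < 1 ∧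
    Ncond (sg 58) p q ∧ ¬ ReplicaSymmetric (sg 58) p q :=
  cex_tab (n := 57) (by norm_num) (9 / 1000) (47 / 200) (2731 / 500)
    (-(8 * (117763 / 200000))) (-(8 * (9051 / 50000))) (1697817 / 1000000)
    (8619 / 500000) (13333 / 1000000) (-(8 * (2547 / 250000)))
    (by norm_num) (by norm_num) (by norm_num) (by norm_num) (by norm_num) (by norm_num)
    (log_le_neg (by norm_num) (by norm_num) (by norm_num) (by norm_num))
    (log_le_neg (by norm_num) (by norm_num) (by norm_num) (by norm_num))
    (log_le_pos (by norm_num) (by norm_num) (by norm_num))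
    (log_le_pos (by norm_num) (by norm_num) (by norm_num))
    (log_le_pos (by norm_num) (by norm_num) (by norm_num))
    (log_le_neg (by norm_num) (by norm_num) (by norm_num) (by norm_num))
    (by norm_num) (by norm_num)

theorem cex_k59 : ∃ p q : ℝ, 0 < p ∧ p < q ∧ q < 1 ∧
    Ncond (sg 59) p q ∧ ¬ ReplicaSymmetric (sg 59) p q :=
  cex_tab (n := 58) (by norm_num) (9 / 1000) (117 / 500) (2739 / 500)
    (-(8 * (117763 / 200000))) (-(8 * (181553 / 1000000))) (850371 / 500000)
    (16943 / 1000000) (6561 / 500000) (-(8 * (5021 / 500000)))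
    (by norm_num) (by norm_num) (by norm_num) (by norm_num) (by norm_num) (by norm_num)
    (log_le_neg (by norm_num) (by norm_num) (by norm_num) (by norm_num))
    (log_le_neg (by norm_num) (by norm_num) (by norm_num) (by norm_num))
    (log_le_pos (by norm_num) (by norm_num) (by norm_num))
    (log_le_pos (by norm_num) (by norm_num) (by norm_num))
    (log_le_pos (by norm_num) (by norm_num) (by norm_num))
    (log_le_neg (by norm_num) (by norm_num) (by norm_num) (by norm_num))
    (by norm_num) (by norm_num)

theorem cex_k60 : ∃ p q : ℝ, 0 < p ∧ p < q ∧ q < 1 ∧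
    Ncond (sg 60) p q ∧ ¬ ReplicaSymmetric (sg 60) p q :=
  cex_tab (n := 59) (by norm_num) (9 / 1000) (117 / 500) (5477 / 1000)
    (-(8 * (117763 / 200000))) (-(8 * (181553 / 1000000))) (1700559 / 1000000)
    (16659 / 1000000) (12901 / 1000000) (-(8 * (9863 / 1000000)))
    (by norm_num) (by norm_num) (by norm_num) (by norm_num) (by norm_num) (by norm_num)
    (log_le_neg (by norm_num) (by norm_num) (by norm_num) (by norm_num))
    (log_le_neg (by norm_num) (by norm_num) (by norm_num) (by norm_num))
    (log_le_pos (by norm_num) (by norm_num) (by norm_num))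
    (log_le_pos (by norm_num) (by norm_num) (by norm_num))
    (log_le_pos (by norm_num) (by norm_num) (by norm_num))
    (log_le_neg (by norm_num) (by norm_num) (by norm_num) (by norm_num))
    (by norm_num) (by norm_num)

theorem cex_k61 : ∃ p q : ℝ, 0 < p ∧ p < q ∧ q < 1 ∧
    Ncond (sg 61) p q ∧ ¬ ReplicaSymmetric (sg 61) p q :=
  cex_tab (n := 60) (by norm_num) (9 / 1000) (233 / 1000) (2747 / 500)
    (-(8 * (117763 / 200000))) (-(8 * (22761 / 125000))) (851829 / 500000)
    (16383 / 1000000) (397 / 31250) (-(8 * (973 / 100000)))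
    (by norm_num) (by norm_num) (by norm_num) (by norm_num) (by norm_num) (by norm_num)
    (log_le_neg (by norm_num) (by norm_num) (by norm_num) (by norm_num))
    (log_le_neg (by norm_num) (by norm_num) (by norm_num) (by norm_num))
    (log_le_pos (by norm_num) (by norm_num) (by norm_num))
    (log_le_pos (by norm_num) (by norm_num) (by norm_num))
    (log_le_pos (by norm_num) (by norm_num) (by norm_num))
    (log_le_neg (by norm_num) (by norm_num) (by norm_num) (by norm_num))
    (by norm_num) (by norm_num)

theorem cex_k62 : ∃ p q : ℝ, 0 < p ∧ p < q ∧ q < 1 ∧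
    Ncond (sg 62) p q ∧ ¬ ReplicaSymmetric (sg 62) p q :=
  cex_tab (n := 61) (by norm_num) (9 / 1000) (29 / 125) (551 / 100)
    (-(8 * (117763 / 200000))) (-(8 * (91313 / 500000))) (853283 / 500000)
    (16117 / 1000000) (12513 / 1000000) (-(8 * (6 / 625)))
    (by norm_num) (by norm_num) (by norm_num) (by norm_num) (by norm_num) (by norm_num)
    (log_le_neg (by norm_num) (by norm_num) (by norm_num) (by norm_num))
    (log_le_neg (by norm_num) (by norm_num) (by norm_num) (by norm_num))
    (log_le_pos (by norm_num) (by norm_num) (by norm_num))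
    (log_le_pos (by norm_num) (by norm_num) (by norm_num))
    (log_le_pos (by norm_num) (by norm_num) (by norm_num))
    (log_le_neg (by norm_num) (by norm_num) (by norm_num) (by norm_num))
    (by norm_num) (by norm_num)

theorem cex_k63 : ∃ p q : ℝ, 0 < p ∧ p < q ∧ q < 1 ∧
    Ncond (sg 63) p q ∧ ¬ ReplicaSymmetric (sg 63) p q :=
  cex_tab (n := 62) (by norm_num) (9 / 1000) (29 / 125) (551 / 100)
    (-(8 * (117763 / 200000))) (-(8 * (91313 / 500000))) (853283 / 500000)
    (15859 / 1000000) (12313 / 1000000) (-(8 * (9439 / 1000000)))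
    (by norm_num) (by norm_num) (by norm_num) (by norm_num) (by norm_num) (by norm_num)
    (log_le_neg (by norm_num) (by norm_num) (by norm_num) (by norm_num))
    (log_le_neg (by norm_num) (by norm_num) (by norm_num) (by norm_num))
    (log_le_pos (by norm_num) (by norm_num) (by norm_num))
    (log_le_pos (by norm_num) (by norm_num) (by norm_num))
    (log_le_pos (by norm_num) (by norm_num) (by norm_num))
    (log_le_neg (by norm_num) (by norm_num) (by norm_num) (by norm_num))
    (by norm_num) (by norm_num)

end Pool.Agent.W_bbc525_gd
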