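import Pool.Agent.W_bbc525_gd.Tab1
import Pool.Agent.W_bbc525_gd.Tab2
import Pool.Agent.W_bbc525_gd.Tab3

/-!
# Stars with at least `15` leaves: the vertex condition is not sufficient
-/

set_option autoImplicit false

namespace Pool.Agent.W_bbc525_gd

open Pool.Agent.W_MP_bbc525_pr Pool.Agent.W_bbc525_h89 Pool.Agent.W_bbc525_td

/-- **For the star with `k ≥ 15` leaves, the vertex condition is not sufficient.** -/
theorem star_cex15 {k : ℕ} (hk : 15 ≤ k) : ∃ p q : ℝ, 0 < p ∧ p < q ∧ q < 1 ∧
    Ncond (sg k) p q ∧ ¬ ReplicaSymmetric (sg k) p q := by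
  rcases Nat.lt_or_ge k 64 with h | h
  · interval_cases k
    · exact cex_k15
    · exact cex_k16
    · exact cex_k17
    · exact cex_k18
    · exact cex_k19
    · exact cex_k20
    · exact cex_k21
    · exact cex_k22
    · exact cex_k23
    · exact cex_k24
    · exact cex_k25
    · exact cex_k26
    · exact cex_k27
    · exact cex_k28
    · exact cex_k29
    · exact cex_k30
    · exact cex_k31
    · exact cex_k32
    · exact cex_k33
    · exact cex_k34
    · exact cex_k35
    · exact cex_k36
    · exact cex_k37
    · exact cex_k38
    · exact cex_k39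
    · exact cex_k40
    · exact cex_k41
    · exact cex_k42
    · exact cex_k43
    · exact cex_k44
    · exact cex_k45
    · exact cex_k46
    · exact cex_k47
    · exact cex_k48
    · exact cex_k49
    · exact cex_k50
    · exact cex_k51
    · exact cex_k52
    · exact cex_k53
    · exact cex_k54
    · exact cex_k55
    · exact cex_k56
    · exact cex_k57
    · exact cex_k58
    · exact cex_k59
    · exact cex_k60
    · exact cex_k61
    · exact cex_k62
    · exact cex_k63
  · exact star_cex h

end Pool.Agent.W_bbc525_gd
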