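import Mathlib

/-!
# General degrees: scaling of the certificate
-/

set_option autoImplicit false

namespace Pool.Agent.W_bbc525_gd

/-- the conclusion of `alg1` -/
def Cer (L β : ℝ) : Prop :=
  ∃ B A c g K κ : ℝ, 0 < B ∧ 0 < A ∧ 0 ≤ c ∧ 0 < K ∧ 0 < κ ∧ 1 < 4 * κ * K ∧
      B - 1 + A - c + g = 0 ∧
      8 * B - L + 2 * A - c = 0 ∧
      B * β ^ 8 - β ^ L + A * β ^ 2 - c * β + g = 0 ∧
      8 * B * β ^ 8 - L * β ^ L + 2 * A * β ^ 2 - c * β = 0 ∧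
      (β = 1 → 56 * B - L * (L - 1) + 2 * A = 0 ∧ 336 * B = L * (L - 1) * (L - 2)) ∧
      ∀ r t, 0 ≤ r → 0 ≤ t →
        K * (2 * t * (r ^ L - 1 - κ * (r ^ 2 - 1)) - t ^ 2 * (1 + r ^ 2)) ≤
          B * r ^ 8 - r ^ L + A * r ^ 2 - c * r + g

/-- the strong form for `0 < b < 1`, with the weight `b ^ 2 + s ^ 2` -/
def Star (L b : ℝ) : Prop :=
  ∃ B A c g K κ : ℝ, 0 < B ∧ 0 < A ∧ 0 ≤ c ∧ 0 < K ∧ 0 < κ ∧ 1 < 4 * κ * K ∧
      B - 1 + A - c + g = 0 ∧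
      8 * B - L + 2 * A - c = 0 ∧
      B * b ^ 8 - b ^ L + A * b ^ 2 - c * b + g = 0 ∧
      8 * B * b ^ 8 - L * b ^ L + 2 * A * b ^ 2 - c * b = 0 ∧
      κ * (1 - b ^ 2) = 1 - b ^ L ∧
      ∀ s t, 0 ≤ s → 0 ≤ t →
        K * (2 * t * (s ^ L - 1 - κ * (s ^ 2 - 1)) - t ^ 2 * (b ^ 2 + s ^ 2)) ≤
          B * s ^ 8 - s ^ L + A * s ^ 2 - c * s + g

theorem Star.lt {L b : ℝ} (hb : 0 < b) (hb1 : b < 1) (h : Star L b) : Cer L b := by
  obtain ⟨B, A, c, g, K, κ, h1, h2, h3, h4, h5, h6, e1, e2, e3, e4, e5, hs⟩ := h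
  refine ⟨B, A, c, g, K, κ, h1, h2, h3, h4, h5, h6, e1, e2, e3, e4,
    fun h => absurd h hb1.ne, fun r t hr ht => ?_⟩
  refine le_trans (mul_le_mul_of_nonneg_left ?_ h4.le) (hs r t hr ht)
  have : t ^ 2 * (b ^ 2 + r ^ 2) ≤ t ^ 2 * (1 + r ^ 2) := by
    apply mul_le_mul_of_nonneg_left _ (sq_nonneg t)
    nlinarith
  linarith

theorem Star.gt {L b : ℝ} (hb : 0 < b) (hb1 : b < 1) (h : Star L b) : Cer L b⁻¹ := by
  obtain ⟨B, A, c, g, K, κ, h1, h2, h3, h4, h5, h6, e1, e2, e3, e4, e5, hs⟩ := h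
  set β := b⁻¹ with hβ
  have hβ0 : 0 < β := inv_pos.2 hb
  have hbβ : β * b = 1 := by
    rw [hβ]
    field_simp
  obtain ⟨z, hz⟩ : ∃ z, z = β ^ L := ⟨_, rfl⟩
  have hz0 : 0 < z := by
    rw [hz]
    exact Real.rpow_pos_of_pos hβ0 L
  have hzb : z * b ^ L = 1 := by
    rw [hz, ← Real.mul_rpow hβ0.le hb.le, hbβ, Real.one_rpow]
  have hβb : ∀ n : ℕ, β ^ n * b ^ n = 1 := fun n => by rw [← mul_pow, hbβ, one_pow]
  refine ⟨z * b ^ 8 * B, z * b ^ 2 * A, z * b * c, z * g, K / (z * b ^ 2), z * b ^ 2 * κ,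
    by positivity, by positivity, by positivity, by positivity, by positivity, ?_, ?_, ?_, ?_, ?_,
    ?_, ?_⟩
  · have : 4 * (z * b ^ 2 * κ) * (K / (z * b ^ 2)) = 4 * κ * K := by
      field_simp
    rw [this]
    exact h6
  · linear_combination z * e3 + hzb
  · linear_combination z * e4 + L * hzb
  · rw [← hz]
    linear_combination z * e1 + z * B * hβb 8 + z * A * hβb 2 - z * c * hbβ
  · rw [← hz]
    linear_combination z * e2 + 8 * z * B * hβb 8 + 2 * z * A * hβb 2 - z * c * hbβ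
  · intro h
    exfalso
    rw [h, one_mul] at hbβ
    exact hb1.ne hbβ
  · intro r t hr ht
    have h7 := hs (r * b) (t * (z * b ^ 2)⁻¹) (by positivity) (by positivity)
    have hr' : r ^ L = z * (r * b) ^ L := by
      rw [Real.mul_rpow hr hb.le]
      linear_combination - r ^ L * hzb
    have h8 := mul_le_mul_of_nonneg_left h7 hz0.le
    have e6 : z * (B * (r * b) ^ 8 - (r * b) ^ L + A * (r * b) ^ 2 - c * (r * b) + g) =
        z * b ^ 8 * B * r ^ 8 - r ^ L + z * b ^ 2 * A * r ^ 2 - z * b * c * r + z * g := by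
      rw [hr']
      ring
    rw [e6] at h8
    refine le_trans (le_of_eq ?_) h8
    have e7 : r ^ L - 1 - z * b ^ 2 * κ * (r ^ 2 - 1) =
        z * ((r * b) ^ L - 1 - κ * ((r * b) ^ 2 - 1)) := by
      rw [hr']
      linear_combination - z * e5 + hzb
    rw [e7]
    field_simp

/-- **From `Star` to `Cer`.** -/
theorem cer_of_star {L : ℝ} (h : ∀ b, 0 < b → b < 1 → Star L b) (h1 : Cer L 1) {β : ℝ}
    (hβ : 0 < β) : Cer L β := by
  rcases lt_trichotomy β 1 with h2 | h2 | h2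
  · exact (h β hβ h2).lt hβ h2
  · rw [h2]
    exact h1
  · have h3 := (h β⁻¹ (inv_pos.2 hβ) (inv_lt_one_of_one_lt₀ h2)).gt (inv_pos.2 hβ)
      (inv_lt_one_of_one_lt₀ h2)
    rwa [inv_inv] at h3

end Pool.Agent.W_bbc525_gd
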