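import Pool.Agent.W_bbc525_gd.Star
import Pool.Agent.W_bbc525_gd.Scale

/-!
# General degrees: the certificate in the variable `r = X ^ (k / 2)`
-/

set_option autoImplicit false

namespace Pool.Agent.W_bbc525_gd

open Set Pool.Agent.W_bbc525_td

theorem Alg1_poly (r : ℝ) (hr : 0 ≤ r) : 7 * (1 + r) ^ 4 ≤ (1 + r ^ 2) * QQ 1 r := by
  have h : (1 + r ^ 2) * QQ 1 r - 7 * (1 + r) ^ 4 =
      (r - 1) ^ 2 * (r ^ 4 + 6 * r ^ 3 + 15 * r ^ 2 + 20 * r + 14) := by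
    unfold QQ
    ring
  have h2 : 0 ≤ (r - 1) ^ 2 * (r ^ 4 + 6 * r ^ 3 + 15 * r ^ 2 + 20 * r + 14) := by positivity
  linarith

theorem cer_one {L : ℝ} (hL : 2 < L) (hL4 : L ≤ 4) : Cer L 1 := by
  obtain ⟨A', c', g', hA', hc', e1, e2, e3, e4, e5, hE⟩ := herm hL hL4 (one_pos (α := ℝ))
  obtain ⟨e6, e7⟩ := e5 rfl
  set lm := lam L 1 with hlm
  have hp : 0 < L - 2 := by linarith
  have hl : lm = L * (L - 1) * (L - 2) / 24 := by linarith
  have hl0 : 0 < lm := by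
    rw [hl]
    have : 0 < L := by linarith
    have : 0 < L - 1 := by linarith
    positivity
  have hkap : kap L 1 = L / 2 := by
    unfold kap
    rw [if_pos rfl]
  have hdel : del L 1 = (L - 2) / 2 := by
    unfold del
    rw [if_pos rfl]
  have hK : 51 / 50 / (2 * L) * ((L - 2) / 2) ^ 2 ≤ lm / 2 := by
    rw [hl, div_mul_eq_mul_div, div_le_iff₀ (by linarith)]
    have h1 : 0 ≤ (L - 2) * ((L - 2) * (L ^ 2 + L - 4) + 4) := by
      apply mul_nonneg hp.le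
      nlinarith
    nlinarith
  refine ⟨lm / 14, A' + 4 * lm, c' + 64 / 14 * lm, g' + 21 / 14 * lm, 51 / 50 / (2 * L), L / 2,
    by positivity, by positivity, by positivity, by
      have : 0 < L := by linarith
      positivity, by linarith, ?_, ?_, ?_, ?_, ?_, ?_, ?_⟩
  · have : L ≠ 0 := by linarith
    have e : 4 * (L / 2) * (51 / 50 / (2 * L)) = 51 / 50 := by
      field_simp
      norm_num
    rw [e]
    norm_num
  · linear_combination e1
  · linear_combination e2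
  · linear_combination e3
  · linear_combination e4
  · intro _
    constructor
    · linear_combination e6
    · linear_combination e7
  · intro r t hr ht
    have h1 := hE r hr
    have h2 := Alg1_poly r hr
    have h3 : lm / 14 * r ^ 8 - r ^ L + (A' + 4 * lm) * r ^ 2 - (c' + 64 / 14 * lm) * r +
        (g' + 21 / 14 * lm) = (lm * r ^ 4 - r ^ L + A' * r ^ 2 - c' * r + g') +
          lm / 14 * ((r - 1) ^ 2 * (r - 1) ^ 2 * QQ 1 r) := by
      unfold QQ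
      ring
    rw [h3]
    refine le_trans ?_ (le_add_of_nonneg_left h1)
    have hR : 0 < 1 + r ^ 2 := by positivity
    have h5 : r ^ L - 1 - L / 2 * (r ^ 2 - 1) ≤ (L - 2) / 2 * ((r ^ 2 - 1) * (r ^ 2 - 1)) := by
      have := Alg_outside hL hL4 (one_pos (α := ℝ)) hr (by
        have : 0 ≤ (r ^ 2 - 1) ^ 2 := sq_nonneg _
        nlinarith)
      rw [hkap, hdel, one_pow] at this
      exact this
    set φ := (r ^ 2 - 1) * (r ^ 2 - 1) with hφ
    have hφ0 : 0 ≤ φ := mul_self_nonneg _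
    have h7 : 2 * t * (r ^ L - 1 - L / 2 * (r ^ 2 - 1)) - t ^ 2 * (1 + r ^ 2) ≤
        ((L - 2) / 2) ^ 2 * φ ^ 2 / (1 + r ^ 2) := by
      have g1 : 2 * t * (r ^ L - 1 - L / 2 * (r ^ 2 - 1)) ≤ 2 * t * ((L - 2) / 2 * φ) :=
        mul_le_mul_of_nonneg_left h5 (by positivity)
      have g2 : 2 * t * ((L - 2) / 2 * φ) - t ^ 2 * (1 + r ^ 2) ≤
          ((L - 2) / 2) ^ 2 * φ ^ 2 / (1 + r ^ 2) := by
        rw [le_div_iff₀ hR]
        nlinarith [sq_nonneg ((L - 2) / 2 * φ - t * (1 + r ^ 2))]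
      linarith
    have hK0 : 0 < 51 / 50 / (2 * L) := by
      have : 0 < L := by linarith
      positivity
    refine (mul_le_mul_of_nonneg_left h7 hK0.le).trans ?_
    have h8 : 51 / 50 / (2 * L) * (((L - 2) / 2) ^ 2 * φ ^ 2 / (1 + r ^ 2)) =
        (51 / 50 / (2 * L) * ((L - 2) / 2) ^ 2) * (φ ^ 2 / (1 + r ^ 2)) := by
      field_simp
    have h9 : (51 / 50 / (2 * L) * ((L - 2) / 2) ^ 2) * (φ ^ 2 / (1 + r ^ 2)) ≤
        lm / 2 * (φ ^ 2 / (1 + r ^ 2)) := mul_le_mul_of_nonneg_right hK (by positivity)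
    rw [h8]
    refine h9.trans ?_
    rw [← mul_div_assoc, div_le_iff₀ hR]
    have h10 : φ ^ 2 = (r - 1) ^ 2 * (r - 1) ^ 2 * (1 + r) ^ 4 := by
      rw [hφ]
      ring
    rw [h10]
    have h11 := mul_le_mul_of_nonneg_left h2
      (by positivity : 0 ≤ lm / 14 * ((r - 1) ^ 2 * (r - 1) ^ 2))
    linarith

/-- **The certificate.** -/
theorem alg1 {L β : ℝ} (hL : 2 < L) (hL4 : L ≤ 4) (hβ : 0 < β) :
    ∃ B A c g K κ : ℝ, 0 < B ∧ 0 < A ∧ 0 ≤ c ∧ 0 < K ∧ 0 < κ ∧ 1 < 4 * κ * K ∧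
      B - 1 + A - c + g = 0 ∧
      8 * B - L + 2 * A - c = 0 ∧
      B * β ^ 8 - β ^ L + A * β ^ 2 - c * β + g = 0 ∧
      8 * B * β ^ 8 - L * β ^ L + 2 * A * β ^ 2 - c * β = 0 ∧
      (β = 1 → 56 * B - L * (L - 1) + 2 * A = 0 ∧ 336 * B = L * (L - 1) * (L - 2)) ∧
      ∀ r t, 0 ≤ r → 0 ≤ t →
        K * (2 * t * (r ^ L - 1 - κ * (r ^ 2 - 1)) - t ^ 2 * (1 + r ^ 2)) ≤
          B * r ^ 8 - r ^ L + A * r ^ 2 - c * r + g := by
  refine cer_of_star (fun b hb hb1 => ?_) (cer_one hL hL4) hβ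
  obtain ⟨B, A, c, g, K, κ, h1, h2, h3, h4, h5, h6, e1, e2, e3, e4, e5, hs⟩ := star hL hL4 hb hb1
  exact ⟨B, A, c, g, K, κ, h1, h2, h3, h4, h5, h6, e1, e2, e3, e4, by linarith, hs⟩

end Pool.Agent.W_bbc525_gd
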