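import Pool.Agent.W_bbc525_gd.Sg

/-!
# Graphons with two blocks
-/

set_option autoImplicit false

namespace Pool.Agent.W_bbc525_gd

open MeasureTheory Finset Pool.Agent.W_MP_bbc525_pr

/-- The graphon with the values `u` on `A × A`, `v` on `A × Aᶜ` and `w` on `Aᶜ × Aᶜ`, where `A` is
the interval of length `ε`. -/
noncomputable def blk (ε u v w : ℝ) (hu : 0 ≤ u) (hu1 : u ≤ 1) (hv : 0 ≤ v) (hv1 : v ≤ 1)
    (hw : 0 ≤ w) (hw1 : w ≤ 1) : Graphon where
  W := fun x y => if (x : ℝ) < ε then (if (y : ℝ) < ε then u else v) else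
    (if (y : ℝ) < ε then v else w)
  measurable := by
    have h1 : MeasurableSet {z : unitInterval × unitInterval | (z.1 : ℝ) < ε} :=
      measurableSet_lt (measurable_subtype_coe.comp measurable_fst) measurable_const
    have h2 : MeasurableSet {z : unitInterval × unitInterval | (z.2 : ℝ) < ε} :=
      measurableSet_lt (measurable_subtype_coe.comp measurable_snd) measurable_const
    exact Measurable.ite h1 (Measurable.ite h2 measurable_const measurable_const)
      (Measurable.ite h2 measurable_const measurable_const)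
  symm := fun x y => by
    by_cases h1 : (x : ℝ) < ε <;> by_cases h2 : (y : ℝ) < ε <;> simp [h1, h2]
  nonneg := fun x y => by split_ifs <;> assumption
  le_one := fun x y => by split_ifs <;> assumption

theorem blk_int {ε : ℝ} (h0 : 0 ≤ ε) (h1 : ε ≤ 1) (a b : ℝ) :
    ∫ y : unitInterval, (if (y : ℝ) < ε then a else b) = ε * a + (1 - ε) * b := by
  have e : (fun y : unitInterval => if (y : ℝ) < ε then a else b) =
      fun y => b + (hubSet ε).indicator (fun _ => a - b) y := by
    ext y
    by_cases hy : (y : ℝ) < ε
    · have hy' : y ∈ hubSet ε := hy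
      rw [Set.indicator_of_mem hy', if_pos hy]
      ring
    · have hy' : y ∉ hubSet ε := hy
      rw [Set.indicator_of_notMem hy', if_neg hy]
      ring
  rw [e, integral_add (integrable_const _)
    ((integrable_const _).indicator (measurableSet_hubSet ε)),
    integral_indicator_const _ (measurableSet_hubSet ε), real_hubSet h0 h1]
  simp only [integral_const, probReal_univ, smul_eq_mul, one_mul]
  ring

section

variable {ε u v w : ℝ} {hu : 0 ≤ u} {hu1 : u ≤ 1} {hv : 0 ≤ v} {hv1 : v ≤ 1} {hw : 0 ≤ w}
  {hw1 : w ≤ 1}

theorem blk_density (h0 : 0 ≤ ε) (h1 : ε ≤ 1) (k : ℕ) :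
    homDensity (sg k) (blk ε u v w hu hu1 hv hv1 hw hw1) =
      ε * (ε * u + (1 - ε) * v) ^ k + (1 - ε) * (ε * v + (1 - ε) * w) ^ k := by
  rw [sg_density]
  have e : ∀ a : unitInterval, (∫ y, (blk ε u v w hu hu1 hv hv1 hw hw1).W a y) ^ k =
      if (a : ℝ) < ε then (ε * u + (1 - ε) * v) ^ k else (ε * v + (1 - ε) * w) ^ k := by
    intro a
    by_cases ha : (a : ℝ) < ε
    · rw [if_pos ha]
      have : (fun y => (blk ε u v w hu hu1 hv hv1 hw hw1).W a y) =
          fun y : unitInterval => if (y : ℝ) < ε then u else v := by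
        ext y
        simp [blk, ha]
      rw [this, blk_int h0 h1]
    · rw [if_neg ha]
      have : (fun y => (blk ε u v w hu hu1 hv hv1 hw hw1).W a y) =
          fun y : unitInterval => if (y : ℝ) < ε then v else w := by
        ext y
        simp [blk, ha]
      rw [this, blk_int h0 h1]
  simp_rw [e]
  rw [blk_int h0 h1]

theorem blk_cost (h0 : 0 ≤ ε) (h1 : ε ≤ 1) (p : ℝ) :
    cost p (blk ε u v w hu hu1 hv hv1 hw hw1) =
      ε ^ 2 * relEnt p u + 2 * ε * (1 - ε) * relEnt p v + (1 - ε) ^ 2 * relEnt p w := by
  unfold cost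
  have e : (fun z : unitInterval × unitInterval =>
      relEnt p ((blk ε u v w hu hu1 hv hv1 hw hw1).W z.1 z.2)) =
      fun z => if (z.1 : ℝ) < ε then (if (z.2 : ℝ) < ε then relEnt p u else relEnt p v) else
        (if (z.2 : ℝ) < ε then relEnt p v else relEnt p w) := by
    ext z
    by_cases ha : (z.1 : ℝ) < ε <;> by_cases hb : (z.2 : ℝ) < ε <;> simp [blk, ha, hb]
  rw [e, Measure.volume_eq_prod, integral_prod]
  · have e2 : ∀ a : unitInterval, (∫ y : unitInterval, (if (a : ℝ) < ε then
        (if (y : ℝ) < ε then relEnt p u else relEnt p v) else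
        (if (y : ℝ) < ε then relEnt p v else relEnt p w))) =
        if (a : ℝ) < ε then ε * relEnt p u + (1 - ε) * relEnt p v else
          ε * relEnt p v + (1 - ε) * relEnt p w := by
      intro a
      by_cases ha : (a : ℝ) < ε
      · simp only [if_pos ha]
        rw [blk_int h0 h1]
      · simp only [if_neg ha]
        rw [blk_int h0 h1]
    simp only [e2]
    rw [blk_int h0 h1]
    ring
  · have h1 : MeasurableSet {z : unitInterval × unitInterval | (z.1 : ℝ) < ε} :=
      measurableSet_lt (measurable_subtype_coe.comp measurable_fst) measurable_const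
    have h2 : MeasurableSet {z : unitInterval × unitInterval | (z.2 : ℝ) < ε} :=
      measurableSet_lt (measurable_subtype_coe.comp measurable_snd) measurable_const
    refine Graphon.integrable_of_bdd (Measurable.ite h1
      (Measurable.ite h2 measurable_const measurable_const)
      (Measurable.ite h2 measurable_const measurable_const))
      (C := |relEnt p u| + |relEnt p v| + |relEnt p w|) fun z => ?_
    have a1 := abs_nonneg (relEnt p u)
    have a2 := abs_nonneg (relEnt p v)
    have a3 := abs_nonneg (relEnt p w)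
    split_ifs <;> linarith

end

end Pool.Agent.W_bbc525_gd
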