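import Pool.Agent.W_bbc525_gd.Comp
import Pool.Agent.W_bbc525_gd.Alg1

/-!
# General degrees: the pointwise certificate
-/

set_option autoImplicit false

namespace Pool.Agent.W_bbc525_gd

open Set Pool.Agent.W_MP_bbc525_pr Pool.Agent.W_bbc525_td

variable {ι : Type*} {s : Finset ι} {w : ι → ℝ} {d : ι → ℕ}

/-- a finite set of numbers above `1` -/
theorem exists_one_lt (s : Finset ι) (f : ι → ℝ) (h : ∀ i ∈ s, 1 < f i) :
    ∃ ρ : ℝ, 1 < ρ ∧ ∀ i ∈ s, ρ ≤ f i := by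
  classical
  induction s using Finset.induction_on with
  | empty => exact ⟨2, by norm_num, fun i hi => absurd hi (Finset.notMem_empty i)⟩
  | insert a s ha ih =>
    obtain ⟨ρ, h1, h2⟩ := ih fun i hi => h i (Finset.mem_insert_of_mem hi)
    refine ⟨min ρ (f a), lt_min h1 (h a (Finset.mem_insert_self a s)), fun i hi => ?_⟩
    rcases Finset.mem_insert.1 hi with rfl | hi
    · exact min_le_right _ _
    · exact (min_le_left _ _).trans (h2 i hi)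

/-- **The pointwise certificate.** -/
theorem cert {k : ℕ} (hk : 2 ≤ k) (hd : ∀ i ∈ s, k ≤ d i) (hd2 : ∀ i ∈ s, d i ≤ 2 * k)
    (hw : ∀ i ∈ s, 0 < w i) (hw1 : ∑ i ∈ s, w i = 1) (hbig : ∃ i ∈ s, k < d i) {q T₀ : ℝ}
    (hq : 0 < q) (hq1 : q < 1) (hT₀ : 0 ≤ T₀)
    (hN : ∀ X, 0 ≤ X → X ≤ 1 / q → T₀ * ∑ i ∈ s, w i * ps (d i) X ≤ dd q X) :
    ∃ (T ρ : ℝ) (K κ : ι → ℝ), T₀ ≤ T ∧ 0 < T ∧ 1 < ρ ∧
      (∀ i ∈ s, 0 < K i ∧ 0 < κ i ∧ ρ ≤ 4 * κ i * K i) ∧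
      ∀ (X : ℝ) (t : ι → ℝ), 0 ≤ X → X ≤ 1 / q → (∀ i ∈ s, 0 ≤ t i) →
        T * ∑ i ∈ s, w i * ps (d i) X +
        T * ∑ i ∈ s, w i / d i * (K i * (2 * t i * (X ^ d i - 1 - κ i * (X ^ k - 1)) -
          t i ^ 2 * (1 + X ^ k))) ≤ dd q X := by
  have hk0 : (0 : ℝ) < k := by exact_mod_cast (by omega : 0 < k)
  have hd0 : ∀ i ∈ s, (0 : ℝ) < d i := fun i hi => by
    have := hd i hi
    exact_mod_cast (by omega : 0 < d i)
  have hdt : ∀ i ∈ s, 2 ≤ d i := fun i hi => hk.trans (hd i hi)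
  obtain ⟨T, X₀, hTT, hT, hX0, hX1, hS, e0, e1, e2⟩ := touch hdt hw hw1 hq hq1 hT₀
    (fun X hX hX' => by
      have := hN X hX hX'
      unfold SS Ph
      linarith)
  set β : ℝ := X₀ ^ ((k : ℝ) / 2) with hβ
  have hβ0 : 0 < β := Real.rpow_pos_of_pos hX0 _
  have s2 : ∀ X : ℝ, 0 ≤ X → (X ^ ((k : ℝ) / 2)) ^ 2 = X ^ k := by
    intro X hX
    rw [← Real.rpow_natCast (X ^ ((k : ℝ) / 2)) 2, ← Real.rpow_mul hX, ← Real.rpow_natCast X k]
    congr 1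
    push_cast
    ring
  have s8 : ∀ X : ℝ, 0 ≤ X → (X ^ ((k : ℝ) / 2)) ^ 8 = X ^ (4 * k) := by
    intro X hX
    have : (X ^ ((k : ℝ) / 2)) ^ 8 = ((X ^ ((k : ℝ) / 2)) ^ 2) ^ 4 := by ring
    rw [this, s2 X hX, ← pow_mul]
    congr 1
    ring
  have sL : ∀ (X : ℝ) (l : ℕ), 0 ≤ X → (X ^ ((k : ℝ) / 2)) ^ (2 * (l : ℝ) / k) = X ^ l := by
    intro X l hX
    rw [← Real.rpow_mul hX, ← Real.rpow_natCast X l]
    congr 1
    field_simp
  -- the constants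
  have hex : ∀ i, ∃ B A c g K κ : ℝ, i ∈ s → (0 ≤ B ∧ 0 < A ∧ 0 ≤ c ∧ 0 < K ∧ 0 < κ ∧
      1 < 4 * κ * K ∧ (k < d i → 0 < B) ∧ B - 1 + A - c + g = 0 ∧
      8 * B - 2 * d i / k + 2 * A - c = 0 ∧
      B * X₀ ^ (4 * k) - X₀ ^ d i + A * X₀ ^ k - c * X₀ ^ ((k : ℝ) / 2) + g = 0 ∧
      8 * B * X₀ ^ (4 * k) - 2 * d i / k * X₀ ^ d i + 2 * A * X₀ ^ k -
        c * X₀ ^ ((k : ℝ) / 2) = 0 ∧
      (X₀ = 1 → 56 * B - 2 * d i / k * (2 * d i / k - 1) + 2 * A = 0 ∧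
        336 * B = 2 * d i / k * (2 * d i / k - 1) * (2 * d i / k - 2)) ∧
      ∀ X t, 0 ≤ X → 0 ≤ t → K * (2 * t * (X ^ d i - 1 - κ * (X ^ k - 1)) -
        t ^ 2 * (1 + X ^ k)) ≤
        B * X ^ (4 * k) - X ^ d i + A * X ^ k - c * X ^ ((k : ℝ) / 2) + g) := by
    intro i
    by_cases hi : i ∈ s
    swap
    · exact ⟨0, 0, 0, 0, 0, 0, fun h => absurd h hi⟩
    rcases (hd i hi).eq_or_lt with h | h
    · refine ⟨0, 1, 0, 0, 1, 1, fun _ => ⟨le_rfl, one_pos, le_rfl, one_pos, one_pos,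
        by norm_num, fun h2 => by omega, by ring, ?_, ?_, ?_, fun _ => ⟨?_, ?_⟩, ?_⟩⟩
      · rw [← h]
        field_simp
        ring
      · rw [← h]
        ring
      · rw [← h]
        field_simp
        ring
      · rw [← h]
        field_simp
        ring
      · rw [← h]
        field_simp
        ring
      · intro X t hX ht
        rw [← h]
        have : 0 ≤ t ^ 2 * (1 + X ^ k) := by positivity
        linarith
    · have hkl' : (k : ℝ) < d i := by exact_mod_cast h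
      have hl' : (d i : ℝ) ≤ 2 * k := by exact_mod_cast hd2 i hi
      have hL2 : 2 < 2 * (d i : ℝ) / k := by
        rw [lt_div_iff₀ hk0]
        linarith
      have hL4 : 2 * (d i : ℝ) / k ≤ 4 := by
        rw [div_le_iff₀ hk0]
        linarith
      obtain ⟨B, A, c, g, K, κ, hB, hA, hc, hK, hκ, hKκ, g1, g2, g3, g4, g5, hcert⟩ :=
        alg1 hL2 hL4 hβ0
      refine ⟨B, A, c, g, K, κ, fun _ => ⟨hB.le, hA, hc, hK, hκ, hKκ, fun _ => hB, g1, g2,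
        ?_, ?_, ?_, ?_⟩⟩
      · rw [s8 X₀ hX0.le, sL X₀ (d i) hX0.le, s2 X₀ hX0.le] at g3
        exact g3
      · rw [s8 X₀ hX0.le, sL X₀ (d i) hX0.le, s2 X₀ hX0.le] at g4
        exact g4
      · intro h1
        apply g5
        rw [hβ, h1, Real.one_rpow]
      · intro X t hX ht
        have h2 := hcert (X ^ ((k : ℝ) / 2)) t (Real.rpow_nonneg hX _) ht
        rw [s8 X hX, sL X (d i) hX, s2 X hX] at h2
        exact h2
  choose B A c g K κ hprop using hex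
  obtain ⟨ρ, hρ, hρ'⟩ := exists_one_lt s (fun i => 4 * κ i * K i)
    (fun i hi => (hprop i hi).2.2.2.2.2.1)
  refine ⟨T, ρ, K, κ, hTT, hT, hρ, fun i hi => ⟨(hprop i hi).2.2.2.1, (hprop i hi).2.2.2.2.1,
    hρ' i hi⟩, ?_⟩
  intro X t hX hX' ht
  have hcomp := comp hk hd hw hw1 hq hq1 hT hX0 hX1 (B := B) (A := A) (c := c) (g := g)
    (by
      unfold SS Ph at e0
      linarith)
    (by
      unfold SS' Ph' at e1
      have p1 : ∑ i ∈ s, w i * (X₀ ^ d i - X₀) = X₀ * ∑ i ∈ s, w i * (X₀ ^ (d i - 1) - 1) := by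
        rw [Finset.mul_sum]
        refine Finset.sum_congr rfl fun i hi => ?_
        have p2 : X₀ ^ d i = X₀ * X₀ ^ (d i - 1) := by
          rw [← pow_succ']
          congr 1
          have := hdt i hi
          omega
        rw [p2]
        ring
      rw [p1]
      linear_combination - X₀ * e1)
    e2 (fun i hi => (hprop i hi).1)
    (by
      obtain ⟨i, hi, hi'⟩ := hbig
      exact ⟨i, hi, (hprop i hi).2.2.2.2.2.2.1 hi'⟩)
    (fun i hi => (hprop i hi).2.1) (fun i hi => (hprop i hi).2.2.1)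
    (fun i hi => (hprop i hi).2.2.2.2.2.2.2.1) (fun i hi => (hprop i hi).2.2.2.2.2.2.2.2.1)
    (fun i hi => (hprop i hi).2.2.2.2.2.2.2.2.2.1)
    (fun i hi => (hprop i hi).2.2.2.2.2.2.2.2.2.2.1)
    (fun h i hi => (hprop i hi).2.2.2.2.2.2.2.2.2.2.2.1 h)
    X hX hX'
  refine le_trans (add_le_add le_rfl (mul_le_mul_of_nonneg_left
    (Finset.sum_le_sum fun i hi => ?_) hT.le)) hcomp
  exact mul_le_mul_of_nonneg_left
    ((hprop i hi).2.2.2.2.2.2.2.2.2.2.2.2 X (t i) hX (ht i hi))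
    (div_pos (hw i hi) (hd0 i hi)).le

end Pool.Agent.W_bbc525_gd
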