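import Pool.Agent.W_bbc525_gd.Blk
import Pool.Agent.W_bbc525_td.Comp
import Pool.Agent.W_bbc525_h89.Atoms

/-!
# Stars with at least `64` leaves: the vertex condition is not sufficient
-/

set_option autoImplicit false

namespace Pool.Agent.W_bbc525_gd

open MeasureTheory Finset Pool.Agent.W_MP_bbc525_pr Pool.Agent.W_bbc525_h89 Pool.Agent.W_bbc525_td

/-! ### The vertex condition at `q = 1 - 1 / k` -/

theorem cex_pow {n : ℕ} {X : ℝ} (hX : 0 ≤ X) : X ^ n * ((n + 1) - n * X) ≤ 1 := by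
  have h := one_add_mul_le_pow (a := X - 1) (by linarith) (n + 1)
  induction n with
  | zero => simp
  | succ n ih =>
    have h1 := ih (one_add_mul_le_pow (a := X - 1) (by linarith) (n + 1))
    have h2 : 0 ≤ X ^ n := pow_nonneg hX n
    have h3 : X ^ (n + 1) * ((n + 1 : ℕ) + 1 - (n + 1 : ℕ) * X) =
        X ^ n * ((n + 1) - n * X) - X ^ n * (n + 1) * (1 - X) ^ 2 := by
      push_cast
      ring
    have h4 : 0 ≤ X ^ n * (n + 1) * (1 - X) ^ 2 := by positivity
    linarith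

/-- `I_q(q X) ≥ (X ^ k - 1) / k - (X - 1)` for `q = 1 - 1 / k` -/
theorem cex_dd {k : ℕ} (hk : 2 ≤ k) {q : ℝ} (hq : q = 1 - 1 / k) {X : ℝ} (hX : 0 ≤ X)
    (hX1 : X ≤ 1 / q) : ps k X ≤ dd q X := by
  have hk0 : (2 : ℝ) ≤ k := by exact_mod_cast hk
  have hkp : (0 : ℝ) < k := by linarith
  have hinv : 1 / (k : ℝ) ≤ 1 / 2 := one_div_le_one_div_of_le (by norm_num) hk0
  have hinv0 : 0 < 1 / (k : ℝ) := by positivity
  have hq0 : 0 < q := by linarith
  have hq1 : q < 1 := by linarith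
  have hone : (1 : ℝ) < 1 / q := by
    rw [lt_div_iff₀ hq0]
    linarith
  have d1 : ∀ x ∈ Set.Ioo 0 (1 / q), HasDerivAt (fun x => dd q x - ps k x)
      (dd' q x - (x ^ (k - 1) - 1)) x := fun x hx =>
    (hasDerivAt_dd hq0 hq1 hx.1 hx.2).sub (hasDerivAt_ps (by omega) x)
  have d2 : ∀ x ∈ Set.Ioo 0 (1 / q), HasDerivAt (fun x => dd' q x - (x ^ (k - 1) - 1))
      (dd'' q x - (k - 1 : ℕ) * x ^ (k - 1 - 1)) x := fun x hx =>
    (hasDerivAt_dd' hq0 hx.1 hx.2).sub ((hasDerivAt_pow (k - 1) x).sub_const 1)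
  have h := convex_zero d1 d2 (fun x hx => by
    have hx1 := one_sub_pos hq0 hx.2
    have hxp := hx.1
    unfold dd''
    rw [sub_nonneg, le_div_iff₀ (by positivity)]
    have h3 := cex_pow (n := k - 1) hx.1.le
    have e1 : ((k - 1 : ℕ) : ℝ) = k - 1 := by
      rw [Nat.cast_sub (by omega)]
      simp
    rw [e1] at h3 ⊢
    have e2 : x ^ (k - 1) = x ^ (k - 1 - 1) * x := by
      rw [← pow_succ]
      congr 1
      omega
    rw [e2] at h3
    have e3 : q = (k - 1) / k := by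
      rw [hq]
      field_simp
    have hk1 : 0 ≤ ((k : ℝ) - 1) / k := by
      rw [← e3]
      exact hq0.le
    have h4 := mul_le_mul_of_nonneg_left h3 hk1
    have e4 : ((k : ℝ) - 1) * x ^ (k - 1 - 1) * (x * (1 - q * x)) =
        (k - 1) / k * (x ^ (k - 1 - 1) * x * ((k - 1 : ℝ) + 1 - (k - 1) * x)) := by
      rw [e3]
      field_simp
      ring
    rw [e4]
    calc _ ≤ ((k : ℝ) - 1) / k * 1 := h4
      _ = q := by rw [e3, mul_one]) one_pos hone (by
      rw [dd_one hq0 hq1, ps_one]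
      ring) (by
      rw [dd'_one, one_pow]
      ring)
  have hcont : ContinuousOn (fun x => dd q x - ps k x) (Set.Icc 0 (1 / q)) :=
    (continuousOn_dd hq0 hq1).sub (continuous_ps k).continuousOn
  have hXc : X ∈ closure (Set.Ioo 0 (1 / q)) := by
    rw [closure_Ioo (by positivity)]
    exact ⟨hX, hX1⟩
  have h5 := ((hcont X ⟨hX, hX1⟩).mono Set.Ioo_subset_Icc_self).mem_closure hXc
    (t := Set.Ici 0) (fun Y hY => h.1 Y hY.1 hY.2)
  rw [isClosed_Ici.closure_eq, Set.mem_Ici] at h5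
  linarith

theorem cex_sum (k : ℕ) (x : ℝ) :
    ∑ v, (x ^ (sg k).degree v - 1) = (x ^ k - 1) + k * (x - 1) := by
  rw [Fin.sum_univ_succ, sg_deg_zero]
  simp only [sg_deg_succ, pow_one, sum_const, card_univ, Fintype.card_fin, nsmul_eq_mul]

theorem cex_N {k : ℕ} (hk : 2 ≤ k) {p q : ℝ} (hq : q = 1 - 1 / k) (hp : 0 < p) (hp1 : p < 1)
    (hT : q * (logit q - logit p) = 2) : Ncond (sg k) p q := by
  have hk0 : (2 : ℝ) ≤ k := by exact_mod_cast hk
  have hkp : (0 : ℝ) < k := by linarith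
  have hinv : 1 / (k : ℝ) ≤ 1 / 2 := one_div_le_one_div_of_le (by norm_num) hk0
  have hinv0 : 0 < 1 / (k : ℝ) := by positivity
  have hq0 : 0 < q := by linarith
  have hq1 : q < 1 := by linarith
  intro r hr hr1
  rw [relEnt_shift hp hp1 hq0 hq1 hr hr1, hT, sg_card, cex_sum]
  have h := cex_dd hk hq (X := r / q) (by positivity) (by
    apply div_le_div_of_nonneg_right hr1 hq0.le)
  unfold dd at h
  rw [mul_div_cancel₀ _ hq0.ne'] at h
  have e1 : (logit q - logit p) * (r - q) = 2 * (r / q - 1) := by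
    have : r - q = q * (r / q - 1) := by
      field_simp
    rw [this, ← mul_assoc, mul_comm (logit q - logit p) q, hT]
  rw [e1]
  unfold ps at h
  have e2 : 2 / (2 * (k : ℝ)) * ((r / q) ^ k - 1 + k * (r / q - 1)) =
      ((r / q) ^ k - 1) / k + (r / q - 1) := by
    field_simp
  rw [e2]
  linarith

end Pool.Agent.W_bbc525_gd
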