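import Pool.Agent.W_bbc525_gd.Cex
import Pool.Agent.W_MP_bbc525_pr.Closed

/-!
# Stars with at least `64` leaves: symmetry breaking at a point with the vertex condition
-/

set_option autoImplicit false

namespace Pool.Agent.W_bbc525_gd

open MeasureTheory Finset Pool.Agent.W_MP_bbc525_pr Pool.Agent.W_bbc525_h89 Pool.Agent.W_bbc525_td

theorem xlx_neg {z : ℝ} (hz : 0 ≤ z) : (1 + z) * Real.log (1 + z) ≤ z + z ^ 2 / 2 := by
  have h1 : 0 ≤ Real.log (1 + z) := Real.log_nonneg (by linarith)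
  have h2 := Real.self_le_sinh_iff.2 h1
  have hz1 : 0 < 1 + z := by linarith
  rw [Real.sinh_log hz1] at h2
  have h3 := mul_le_mul_of_nonneg_left h2 hz1.le
  have h4 : (1 + z) * ((1 + z - (1 + z)⁻¹) / 2) = z + z ^ 2 / 2 := by
    field_simp
    ring
  linarith

theorem xlx_pos {y : ℝ} (hy : 0 ≤ y) (hy1 : y < 1) :
    (1 - y) * Real.log (1 - y) ≤ -y + y ^ 2 / 2 + y ^ 3 / 2 := by
  have h1 : 0 < 1 - y := by linarith
  have h2 := Real.le_log_one_add_of_nonneg (x := y / (1 - y)) (by positivity)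
  have h3 : 1 + y / (1 - y) = (1 - y)⁻¹ := by
    field_simp
    ring
  rw [h3, Real.log_inv] at h2
  have h4 : 2 * (y / (1 - y)) / (y / (1 - y) + 2) = 2 * y / (2 - y) := by
    have h5 : y / (1 - y) + 2 = (2 - y) / (1 - y) := by
      field_simp
      ring
    have h6 : 0 < 2 - y := by linarith
    rw [h5]
    field_simp
  rw [h4] at h2
  have h5 := mul_le_mul_of_nonneg_left h2 h1.le
  have h6 : 0 < 2 - y := by linarith
  have h7 : y - y ^ 2 / 2 - y ^ 3 / 2 ≤ (1 - y) * (2 * y / (2 - y)) := by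
    rw [mul_div_assoc', le_div_iff₀ h6]
    have : 0 ≤ y ^ 3 * (1 - y) := by positivity
    nlinarith [this]
  linarith

theorem relEnt_V {n V : ℝ} (hn : 0 < n) : (n + 1) * relEnt (n / (n + 1)) (1 - V / (n + 1)) =
    n * ((1 - (V - 1) / n) * Real.log (1 - (V - 1) / n)) + V * Real.log V := by
  have hn1 : 0 < n + 1 := by linarith
  have e1 : (1 - V / (n + 1)) / (n / (n + 1)) = 1 - (V - 1) / n := by
    field_simp
    ring
  have e2 : (1 - (1 - V / (n + 1))) / (1 - n / (n + 1)) = V := by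
    have : 1 - n / (n + 1) = 1 / (n + 1) := by
      field_simp
      ring
    rw [this]
    field_simp
    ring
  unfold relEnt
  rw [e1, e2]
  generalize Real.log (1 - (V - 1) / n) = a
  generalize Real.log V = b
  field_simp
  ring

theorem log_bound : 336 / 100 * Real.log 2 + 18 / 10 * Real.log (5 / 4) ≤ 2734 / 1000 := by
  have h1 := Real.log_two_lt_d9
  have h2 : Real.log (5 / 4) ≤ 9 / 40 := by
    have h := Real.self_le_sinh_iff.2 (Real.log_nonneg (x := 5 / 4) (by norm_num))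
    rw [Real.sinh_log (by norm_num)] at h
    linarith
  linarith

/-- the cost of the two block graphon is smaller -/
theorem cex_cost {n : ℝ} (hn : 63 ≤ n) :
    (2 / 5) ^ 2 * relEnt (n / (n + 1)) 1 +
      2 * (2 / 5) * (1 - 2 / 5) * relEnt (n / (n + 1)) (1 - 1 / 4 / (n + 1)) +
      (1 - 2 / 5) ^ 2 * relEnt (n / (n + 1)) (1 - 5 / (n + 1)) < 46 / 25 / n := by
  have hn0 : 0 < n := by linarith
  have hn1 : 0 < n + 1 := by linarith
  have r0 := relEnt_V (V := 0) hn0
  have r1 := relEnt_V (V := 1 / 4) hn0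
  have r2 := relEnt_V (V := 5) hn0
  have x0 := xlx_neg (z := 1 / n) (by positivity)
  have x1 := xlx_neg (z := 3 / 4 / n) (by positivity)
  have x2 := xlx_pos (y := 4 / n) (by positivity) (by rw [div_lt_one hn0]; linarith)
  rw [show (0 : ℝ) / (n + 1) = 0 by simp, sub_zero,
    show 1 - (0 - 1) / n = 1 + 1 / n by ring, zero_mul, add_zero] at r0
  rw [show 1 - (1 / 4 - 1) / n = 1 + 3 / 4 / n by ring] at r1
  rw [show ((5 : ℝ) - 1) / n = 4 / n by ring] at r2
  have l1 : Real.log (1 / 4) = - (2 * Real.log 2) := by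
    rw [one_div, Real.log_inv, show (4 : ℝ) = 2 ^ 2 by norm_num, Real.log_pow]
    push_cast
    ring
  have l2 : Real.log 5 = 2 * Real.log 2 + Real.log (5 / 4) := by
    rw [show (5 : ℝ) = 2 ^ 2 * (5 / 4) by norm_num, Real.log_mul (by norm_num) (by norm_num),
      Real.log_pow]
    push_cast
    norm_num
  rw [l1] at r1
  rw [l2] at r2
  have lb := log_bound
  have y0 := mul_le_mul_of_nonneg_left x0 hn0.le
  have y1 := mul_le_mul_of_nonneg_left x1 hn0.le
  have y2 := mul_le_mul_of_nonneg_left x2 hn0.le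
  have z0 : n * (1 / n + (1 / n) ^ 2 / 2) = 1 + 1 / 2 * (1 / n) := by
    field_simp
  have z1 : n * (3 / 4 / n + (3 / 4 / n) ^ 2 / 2) = 3 / 4 + 9 / 32 * (1 / n) := by
    field_simp
    ring
  have z2 : n * (-(4 / n) + (4 / n) ^ 2 / 2 + (4 / n) ^ 3 / 2) =
      -4 + 8 * (1 / n) + 32 * (1 / n) ^ 2 := by
    field_simp
    ring
  rw [z0] at y0
  rw [z1] at y1
  rw [z2] at y2
  have hi : 1 / n ≤ 1 / 63 := one_div_le_one_div_of_le (by norm_num) hn
  have hi0 : 0 < 1 / n := by positivity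
  have hi2 : (1 / n) ^ 2 ≤ 1 / 63 * (1 / n) := by
    rw [pow_two]
    exact mul_le_mul_of_nonneg_right hi hi0.le
  have e3 : (n + 1) * (46 / 25 / n) = 46 / 25 + 46 / 25 * (1 / n) := by
    field_simp
  rw [← mul_lt_mul_iff_right₀ hn1, e3]
  linarith

theorem exp_bound1 : (2339 / 1000 : ℝ) ≤ Real.exp (85 / 100) := by
  have h := Real.sum_le_exp_of_nonneg (x := 85 / 100) (by norm_num) 6
  refine le_trans ?_ h
  simp only [Finset.sum_range_succ, Finset.sum_range_zero, Nat.factorial]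
  norm_num

theorem exp_bound2 : (1218 / 10000 : ℝ) ≤ Real.exp (-(21 / 10)) := by
  have e : Real.exp (-(21 / 10)) = (Real.exp 1)⁻¹ ^ 2 * Real.exp (-(1 / 10)) := by
    rw [← Real.exp_neg, ← Real.exp_nat_mul, ← Real.exp_add]
    congr 1
    norm_num
  have h1 := Real.exp_one_lt_d9
  have h2 : (9 / 10 : ℝ) ≤ Real.exp (-(1 / 10)) := by
    have := Real.add_one_le_exp (-(1 / 10 : ℝ))
    linarith
  have h3 : (1 / 2.7182818286 : ℝ) ≤ (Real.exp 1)⁻¹ := by
    rw [← one_div]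
    exact one_div_le_one_div_of_le (Real.exp_pos 1) h1.le
  rw [e]
  have h4 : (1 / 2.7182818286 : ℝ) ^ 2 ≤ (Real.exp 1)⁻¹ ^ 2 := by gcongr
  calc (1218 / 10000 : ℝ) ≤ (1 / 2.7182818286 : ℝ) ^ 2 * (9 / 10) := by norm_num
    _ ≤ _ := by gcongr

theorem cex_dens {n : ℕ} (hn : 63 ≤ n) :
    1 ≤ 2 / 5 * (1 + 17 / 20 / (n : ℝ)) ^ (n + 1) + 3 / 5 * (1 - 21 / 10 / (n : ℝ)) ^ (n + 1) := by
  have hn' : (63 : ℝ) ≤ n := by exact_mod_cast hn
  have hn0 : (0 : ℝ) < n := by linarith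
  have h1 : (2339 / 1000 : ℝ) ≤ (1 + 17 / 20 / (n : ℝ)) ^ (n + 1) := by
    have hp : 0 < 1 + 17 / 20 / (n : ℝ) := by positivity
    have l1 := Real.one_sub_inv_le_log_of_pos hp
    have l2 : (85 / 100 : ℝ) ≤ ((n + 1 : ℕ) : ℝ) * Real.log (1 + 17 / 20 / (n : ℝ)) := by
      have : 17 / 20 / ((n : ℝ) + 17 / 20) ≤ Real.log (1 + 17 / 20 / (n : ℝ)) := by
        refine le_trans (le_of_eq ?_) l1
        field_simp
        ring
      push_cast
      calc (85 / 100 : ℝ) ≤ ((n : ℝ) + 1) * (17 / 20 / ((n : ℝ) + 17 / 20)) := by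
            rw [mul_div_assoc', le_div_iff₀ (by positivity)]
            linarith
        _ ≤ _ := mul_le_mul_of_nonneg_left this (by positivity)
    calc (2339 / 1000 : ℝ) ≤ Real.exp (85 / 100) := exp_bound1
      _ ≤ Real.exp (((n + 1 : ℕ) : ℝ) * Real.log (1 + 17 / 20 / (n : ℝ))) :=
        Real.exp_le_exp.2 l2
      _ = _ := by rw [Real.exp_nat_mul, Real.exp_log hp]
  have h2 : (1218 / 10000 * (893 / 1000) : ℝ) ≤ (1 - 21 / 10 / (n : ℝ)) ^ (n + 1) := by
    have hp : 0 < 1 - 21 / 10 / (n : ℝ) := by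
      rw [sub_pos, div_lt_one hn0]
      linarith
    have hm : 0 < (n : ℝ) - 21 / 10 := by linarith
    have l1 := Real.one_sub_inv_le_log_of_pos hp
    have l2 : (-(21 / 10) - 107 / 1000 : ℝ) ≤
        ((n + 1 : ℕ) : ℝ) * Real.log (1 - 21 / 10 / (n : ℝ)) := by
      have : -(21 / 10) / ((n : ℝ) - 21 / 10) ≤ Real.log (1 - 21 / 10 / (n : ℝ)) := by
        refine le_trans (le_of_eq ?_) l1
        have e1 : 1 - 21 / 10 / (n : ℝ) = (n - 21 / 10) / n := by field_simp
        rw [e1, inv_div, eq_sub_iff_add_eq, ← add_div, div_eq_one_iff_eq hm.ne']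
        ring
      push_cast
      calc (-(21 / 10) - 107 / 1000 : ℝ) ≤
          ((n : ℝ) + 1) * (-(21 / 10) / ((n : ℝ) - 21 / 10)) := by
            rw [mul_div_assoc', le_div_iff₀ hm]
            nlinarith
        _ ≤ _ := mul_le_mul_of_nonneg_left this (by positivity)
    calc (1218 / 10000 * (893 / 1000) : ℝ) ≤ Real.exp (-(21 / 10)) * Real.exp (-(107 / 1000)) := by
          have := Real.add_one_le_exp (-(107 / 1000 : ℝ))
          have h3 : (893 / 1000 : ℝ) ≤ Real.exp (-(107 / 1000)) := by linarith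
          exact mul_le_mul exp_bound2 h3 (by norm_num) (Real.exp_pos _).le
      _ = Real.exp (-(21 / 10) - 107 / 1000) := by
          rw [← Real.exp_add]
          congr 1
      _ ≤ Real.exp (((n + 1 : ℕ) : ℝ) * Real.log (1 - 21 / 10 / (n : ℝ))) :=
        Real.exp_le_exp.2 l2
      _ = _ := by rw [Real.exp_nat_mul, Real.exp_log hp]
  nlinarith

end Pool.Agent.W_bbc525_gd
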