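import Pool.Agent.W_bbc525_gd.Cex2

/-!
# Stars with at least `64` leaves: the vertex condition is not sufficient
-/

set_option autoImplicit false

namespace Pool.Agent.W_bbc525_gd

open MeasureTheory Finset Pool.Agent.W_MP_bbc525_pr Pool.Agent.W_bbc525_h89 Pool.Agent.W_bbc525_td

theorem cex_real {n : ℕ} (hn : 63 ≤ n) {p : ℝ} (hp : 0 < p)
    (hpq : p < (n : ℝ) / (n + 1))
    (hT : logit ((n : ℝ) / (n + 1)) - logit p = 2 * (n + 1) / n) :
    ¬ ReplicaSymmetric (sg (n + 1)) p ((n : ℝ) / (n + 1)) := by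
  have hn' : (63 : ℝ) ≤ n := by exact_mod_cast hn
  have hn0 : (0 : ℝ) < n := by linarith
  have hn1 : (0 : ℝ) < n + 1 := by linarith
  have hq0 : 0 < (n : ℝ) / (n + 1) := by positivity
  have hq1 : (n : ℝ) / (n + 1) < 1 := by
    rw [div_lt_one hn1]
    linarith
  have hp1 : p < 1 := lt_trans hpq hq1
  have c1 : (1 / 4 : ℝ) / (n + 1) ≤ 1 := by
    rw [div_le_one hn1]
    linarith
  have c2 : (5 : ℝ) / (n + 1) ≤ 1 := by
    rw [div_le_one hn1]
    linarith
  have c1' : (0 : ℝ) ≤ 1 / 4 / (n + 1) := by positivity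
  have c2' : (0 : ℝ) ≤ 5 / (n + 1) := by positivity
  intro hRS
  rw [replicaSymmetric_iff (sg (n + 1)) hp hpq.le hq1] at hRS
  have h := hRS (blk (2 / 5) 1 (1 - 1 / 4 / (n + 1)) (1 - 5 / (n + 1)) zero_le_one le_rfl
    (by linarith) (by linarith) (by linarith) (by linarith)) (by
      rw [blk_density (by norm_num) (by norm_num), sg_card]
      have e1 : (2 / 5 * 1 + (1 - 2 / 5) * (1 - 1 / 4 / ((n : ℝ) + 1))) =
          n / (n + 1) * (1 + 17 / 20 / n) := by
        field_simp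
        ring
      have e2 : (2 / 5 * (1 - 1 / 4 / ((n : ℝ) + 1)) + (1 - 2 / 5) * (1 - 5 / ((n : ℝ) + 1))) =
          n / (n + 1) * (1 - 21 / 10 / n) := by
        field_simp
        ring
      rw [e1, e2, mul_pow, mul_pow]
      have h1 := cex_dens hn
      have h2 : 0 < ((n : ℝ) / (n + 1)) ^ (n + 1) := by positivity
      have h3 := mul_le_mul_of_nonneg_left h1 h2.le
      rw [mul_one] at h3
      calc _ ≤ _ := h3
        _ = _ := by ring)
  rw [blk_cost (by norm_num) (by norm_num)] at h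
  have s1 := relEnt_shift hp hp1 hq0 hq1 (r := 1) zero_le_one le_rfl
  have s2 := relEnt_shift hp hp1 hq0 hq1 (r := 1 - 1 / 4 / ((n : ℝ) + 1)) (by linarith)
    (by linarith)
  have s3 := relEnt_shift hp hp1 hq0 hq1 (r := 1 - 5 / ((n : ℝ) + 1)) (by linarith)
    (by linarith)
  rw [hT] at s1 s2 s3
  have hc := cex_cost hn'
  have key : 2 * ((n : ℝ) + 1) / n * ((2 / 5) ^ 2 * (1 - (n : ℝ) / (n + 1)) +
      2 * (2 / 5) * (1 - 2 / 5) * (1 - 1 / 4 / ((n : ℝ) + 1) - (n : ℝ) / (n + 1)) +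
      (1 - 2 / 5) ^ 2 * (1 - 5 / ((n : ℝ) + 1) - (n : ℝ) / (n + 1))) = - (46 / 25 / n) := by
    field_simp
    ring
  nlinarith [s1, s2, s3, hc, key, h]

/-- For the star with `k ≥ 64` leaves, the vertex condition is not sufficient. -/
theorem star_cex {k : ℕ} (hk : 64 ≤ k) : ∃ p q : ℝ, 0 < p ∧ p < q ∧ q < 1 ∧
    Ncond (sg k) p q ∧ ¬ ReplicaSymmetric (sg k) p q := by
  obtain ⟨n, rfl⟩ : ∃ n, k = n + 1 := ⟨k - 1, by omega⟩
  have hn : 63 ≤ n := by omega
  have hn' : (63 : ℝ) ≤ n := by exact_mod_cast hn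
  have hn0 : (0 : ℝ) < n := by linarith
  have hn1 : (0 : ℝ) < n + 1 := by linarith
  have hq0 : 0 < (n : ℝ) / (n + 1) := by positivity
  have hq1 : (n : ℝ) / (n + 1) < 1 := by
    rw [div_lt_one hn1]
    linarith
  set x : ℝ := Real.exp (Real.log n - 2 * (n + 1) / n) with hx
  have hx0 : 0 < x := Real.exp_pos _
  have hxn : x < n := by
    have : Real.exp (Real.log n - 2 * (n + 1) / n) < Real.exp (Real.log n) := by
      apply Real.exp_lt_exp.2
      have : 0 < 2 * ((n : ℝ) + 1) / n := by positivity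
      linarith
    rwa [Real.exp_log hn0] at this
  have hp0 : 0 < x / (1 + x) := by positivity
  have hpq : x / (1 + x) < (n : ℝ) / (n + 1) := by
    rw [div_lt_div_iff₀ (by positivity) hn1]
    nlinarith
  have hT : logit ((n : ℝ) / (n + 1)) - logit (x / (1 + x)) = 2 * (n + 1) / n := by
    have e1 : (n : ℝ) / (n + 1) / (1 - (n : ℝ) / (n + 1)) = n := by
      have : 1 - (n : ℝ) / (n + 1) = 1 / (n + 1) := by
        field_simp
        ring
      rw [this]
      field_simp
    have e2 : x / (1 + x) / (1 - x / (1 + x)) = x := by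
      have : 1 - x / (1 + x) = 1 / (1 + x) := by
        field_simp
        ring
      rw [this]
      field_simp
    rw [← logit_eq hq0 hq1, ← logit_eq hp0 (lt_trans hpq hq1), e1, e2, hx, Real.log_exp]
    ring
  refine ⟨x / (1 + x), (n : ℝ) / (n + 1), hp0, hpq, hq1, ?_, cex_real hn hp0 hpq hT⟩
  refine cex_N (by omega) ?_ hp0 (lt_trans hpq hq1) ?_
  · push_cast
    field_simp
    ring
  · rw [hT]
    field_simp

end Pool.Agent.W_bbc525_gd
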