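import Pool.Agent.W_bbc525_gd.Cex3

/-!
# Small stars: the reduction to rational inequalities
-/

set_option autoImplicit false

namespace Pool.Agent.W_bbc525_gd

open MeasureTheory Finset Pool.Agent.W_MP_bbc525_pr Pool.Agent.W_bbc525_h89 Pool.Agent.W_bbc525_td

theorem log_le_pos {x y : ℝ} (hx : 0 < x) (hy : 0 ≤ y)
    (h : x ≤ 1 + y + y ^ 2 / 2 + y ^ 3 / 6 + y ^ 4 / 24 + y ^ 5 / 120 + y ^ 6 / 720 +
      y ^ 7 / 5040 + y ^ 8 / 40320 + y ^ 9 / 362880 + y ^ 10 / 3628800 + y ^ 11 / 39916800) :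
    Real.log x ≤ y := by
  rw [Real.log_le_iff_le_exp hx]
  refine h.trans (le_trans (le_of_eq ?_) (Real.sum_le_exp_of_nonneg hy 12))
  simp only [Finset.sum_range_succ, Finset.sum_range_zero, Nat.factorial]
  norm_num

theorem log_le_neg {x w : ℝ} (hx : 0 < x) (hw : 0 ≤ w) (hw1 : w ≤ 1)
    (h : x * (1 + w + w ^ 2 / 2 + w ^ 3 / 6 + w ^ 4 / 24 + w ^ 5 / 120 + w ^ 6 / 720 +
      w ^ 7 / 5040 + w ^ 8 / 40320 + w ^ 9 / 362880 + w ^ 10 * 11 / 36288000) ^ 8 ≤ 1) :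
    Real.log x ≤ - (8 * w) := by
  rw [Real.log_le_iff_le_exp hx, Real.exp_neg]
  have h1 := Real.exp_bound' hw hw1 (n := 10) (by norm_num)
  have h2 : Real.exp (8 * w) = Real.exp w ^ 8 := by
    rw [← Real.exp_nat_mul]
    norm_num
  rw [h2, le_inv_comm₀ hx (by positivity), ← one_div, le_div_iff₀ hx, mul_comm]
  refine le_trans (mul_le_mul_of_nonneg_left (pow_le_pow_left₀ (Real.exp_pos w).le ?_ 8) hx.le) h
  refine h1.trans (le_of_eq ?_)
  simp only [Finset.sum_range_succ, Finset.sum_range_zero, Nat.factorial]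
  norm_num

/-- a failing two block graphon from rational data -/
theorem cex_tab {n : ℕ} (hn : 1 ≤ n) (V0 V1 V2 a0 a1 a2 b0 b1 b2 : ℝ)
    (h0 : 0 < V0) (h0' : V0 ≤ n + 1) (h1 : 0 < V1) (h1' : V1 ≤ n + 1)
    (h2 : 0 < V2) (h2' : V2 ≤ n + 1)
    (la0 : Real.log V0 ≤ a0) (la1 : Real.log V1 ≤ a1) (la2 : Real.log V2 ≤ a2)
    (lb0 : Real.log (1 - (V0 - 1) / n) ≤ b0) (lb1 : Real.log (1 - (V1 - 1) / n) ≤ b1)
    (lb2 : Real.log (1 - (V2 - 1) / n) ≤ b2)
    (hd : ((n : ℝ) / (n + 1)) ^ (n + 1) ≤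
      2 / 5 * (1 - (2 / 5 * V0 + 3 / 5 * V1) / (n + 1)) ^ (n + 1) +
      3 / 5 * (1 - (2 / 5 * V1 + 3 / 5 * V2) / (n + 1)) ^ (n + 1))
    (hc : 4 / 25 * ((n + 1 - V0) * b0 + V0 * a0) + 12 / 25 * ((n + 1 - V1) * b1 + V1 * a1) +
      9 / 25 * ((n + 1 - V2) * b2 + V2 * a2) <
        2 * (n + 1) * (4 / 25 * V0 + 12 / 25 * V1 + 9 / 25 * V2 - 1) / n) :
    ∃ p q : ℝ, 0 < p ∧ p < q ∧ q < 1 ∧
      Ncond (sg (n + 1)) p q ∧ ¬ ReplicaSymmetric (sg (n + 1)) p q := by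
  have hn' : (1 : ℝ) ≤ n := by exact_mod_cast hn
  have hn0 : (0 : ℝ) < n := by linarith
  have hn1 : (0 : ℝ) < n + 1 := by linarith
  have hq0 : 0 < (n : ℝ) / (n + 1) := by positivity
  have hq1 : (n : ℝ) / (n + 1) < 1 := by
    rw [div_lt_one hn1]
    linarith
  set x : ℝ := Real.exp (Real.log n - 2 * (n + 1) / n) with hx
  have hx0 : 0 < x := Real.exp_pos _
  have hxn : x < n := by
    have : Real.exp (Real.log n - 2 * (n + 1) / n) < Real.exp (Real.log n) := by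
      apply Real.exp_lt_exp.2
      have : 0 < 2 * ((n : ℝ) + 1) / n := by positivity
      linarith
    rwa [Real.exp_log hn0] at this
  obtain ⟨p, hp⟩ : ∃ p, p = x / (1 + x) := ⟨_, rfl⟩
  have hp0 : 0 < p := by
    rw [hp]
    positivity
  have hpq : p < (n : ℝ) / (n + 1) := by
    rw [hp, div_lt_div_iff₀ (by positivity) hn1]
    nlinarith
  have hp1 : p < 1 := lt_trans hpq hq1
  have hT : logit ((n : ℝ) / (n + 1)) - logit p = 2 * (n + 1) / n := by
    have e1 : (n : ℝ) / (n + 1) / (1 - (n : ℝ) / (n + 1)) = n := by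
      have : 1 - (n : ℝ) / (n + 1) = 1 / (n + 1) := by
        field_simp
        ring
      rw [this]
      field_simp
    have e2 : p / (1 - p) = x := by
      have : 1 - p = 1 / (1 + x) := by
        rw [hp]
        field_simp
        ring
      rw [this, hp]
      field_simp
    rw [← logit_eq hq0 hq1, ← logit_eq hp0 hp1, e1, e2, hx, Real.log_exp]
    ring
  refine ⟨p, (n : ℝ) / (n + 1), hp0, hpq, hq1, ?_, ?_⟩
  · refine cex_N (by omega) ?_ hp0 hp1 ?_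
    · push_cast
      field_simp
      ring
    · rw [hT]
      field_simp
  -- the graphon
  have c0 : 0 ≤ V0 / (n + 1) := by positivity
  have c1 : 0 ≤ V1 / (n + 1) := by positivity
  have c2 : 0 ≤ V2 / (n + 1) := by positivity
  have c0' : V0 / (n + 1) ≤ 1 := by
    rw [div_le_one hn1]
    exact h0'
  have c1' : V1 / (n + 1) ≤ 1 := by
    rw [div_le_one hn1]
    exact h1'
  have c2' : V2 / (n + 1) ≤ 1 := by
    rw [div_le_one hn1]
    exact h2'
  intro hRS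
  rw [replicaSymmetric_iff (sg (n + 1)) hp0 hpq.le hq1] at hRS
  have h := hRS (blk (2 / 5) (1 - V0 / (n + 1)) (1 - V1 / (n + 1)) (1 - V2 / (n + 1))
    (by linarith) (by linarith) (by linarith) (by linarith) (by linarith) (by linarith)) (by
      rw [blk_density (by norm_num) (by norm_num), sg_card]
      refine hd.trans (le_of_eq ?_)
      have e1 : 1 - (2 / 5 * V0 + 3 / 5 * V1) / ((n : ℝ) + 1) =
          (2 / 5 * (1 - V0 / (n + 1)) + (1 - 2 / 5) * (1 - V1 / (n + 1))) := by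
        field_simp
        ring
      have e2 : 1 - (2 / 5 * V1 + 3 / 5 * V2) / ((n : ℝ) + 1) =
          (2 / 5 * (1 - V1 / (n + 1)) + (1 - 2 / 5) * (1 - V2 / (n + 1))) := by
        field_simp
        ring
      rw [e1, e2]
      ring)
  rw [blk_cost (by norm_num) (by norm_num)] at h
  have s0 := relEnt_shift hp0 hp1 hq0 hq1 (r := 1 - V0 / ((n : ℝ) + 1)) (by linarith)
    (by linarith)
  have s1 := relEnt_shift hp0 hp1 hq0 hq1 (r := 1 - V1 / ((n : ℝ) + 1)) (by linarith)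
    (by linarith)
  have s2 := relEnt_shift hp0 hp1 hq0 hq1 (r := 1 - V2 / ((n : ℝ) + 1)) (by linarith)
    (by linarith)
  rw [hT] at s0 s1 s2
  have r0 := relEnt_V (V := V0) hn0
  have r1 := relEnt_V (V := V1) hn0
  have r2 := relEnt_V (V := V2) hn0
  -- bounds for the terms
  have t : ∀ V a b : ℝ, 0 < V → V ≤ n + 1 → Real.log V ≤ a → Real.log (1 - (V - 1) / n) ≤ b →
      n * ((1 - (V - 1) / n) * Real.log (1 - (V - 1) / n)) + V * Real.log V ≤
        (n + 1 - V) * b + V * a := by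
    intro V a b hV hV' ha hb
    have e : n * ((1 - (V - 1) / n) * Real.log (1 - (V - 1) / n)) =
        (n + 1 - V) * Real.log (1 - (V - 1) / n) := by
      rw [← mul_assoc]
      congr 1
      field_simp
      ring
    rw [e]
    exact add_le_add (mul_le_mul_of_nonneg_left hb (by linarith))
      (mul_le_mul_of_nonneg_left ha hV.le)
  have t0 := t V0 a0 b0 h0 h0' la0 lb0
  have t1 := t V1 a1 b1 h1 h1' la1 lb1
  have t2 := t V2 a2 b2 h2 h2' la2 lb2
  have key : 2 * ((n : ℝ) + 1) / n * (4 / 25 * (1 - V0 / (n + 1) - (n : ℝ) / (n + 1)) +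
      12 / 25 * (1 - V1 / ((n : ℝ) + 1) - (n : ℝ) / (n + 1)) +
      9 / 25 * (1 - V2 / ((n : ℝ) + 1) - (n : ℝ) / (n + 1))) * (n + 1) =
      - (2 * (n + 1) * (4 / 25 * V0 + 12 / 25 * V1 + 9 / 25 * V2 - 1) / n) := by
    field_simp
    ring
  have h3 : 0 ≤ (4 / 25 * relEnt (n / (n + 1)) (1 - V0 / (n + 1)) +
      12 / 25 * relEnt (n / (n + 1)) (1 - V1 / (n + 1)) +
      9 / 25 * relEnt (n / (n + 1)) (1 - V2 / (n + 1))) +
      2 * ((n : ℝ) + 1) / n * (4 / 25 * (1 - V0 / (n + 1) - (n : ℝ) / (n + 1)) +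
      12 / 25 * (1 - V1 / ((n : ℝ) + 1) - (n : ℝ) / (n + 1)) +
      9 / 25 * (1 - V2 / ((n : ℝ) + 1) - (n : ℝ) / (n + 1))) := by
    linarith
  have h4 := mul_nonneg h3 hn1.le
  rw [add_mul, key] at h4
  have e5 : (4 / 25 * relEnt ((n : ℝ) / (n + 1)) (1 - V0 / (n + 1)) +
      12 / 25 * relEnt (n / (n + 1)) (1 - V1 / (n + 1)) +
      9 / 25 * relEnt (n / (n + 1)) (1 - V2 / (n + 1))) * ((n : ℝ) + 1) =
      4 / 25 * ((n + 1) * relEnt (n / (n + 1)) (1 - V0 / (n + 1))) +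
      12 / 25 * ((n + 1) * relEnt (n / (n + 1)) (1 - V1 / (n + 1))) +
      9 / 25 * ((n + 1) * relEnt (n / (n + 1)) (1 - V2 / (n + 1))) := by
    ring
  rw [e5, r0, r1, r2] at h4
  linarith

end Pool.Agent.W_bbc525_gd
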