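import Pool.Agent.W_bbc525_td.Comp
import Pool.Agent.W_bbc525_gd.Touch2

/-!
# General degrees: comparison of the relative entropy with the certificate
-/

set_option autoImplicit false

namespace Pool.Agent.W_bbc525_gd

open Set Pool.Agent.W_MP_bbc525_pr Pool.Agent.W_bbc525_td

variable {ι : Type*} {s : Finset ι} {w : ι → ℝ} {d : ι → ℕ}

/-- **Comparison.** -/
theorem comp {k : ℕ} (hk : 2 ≤ k) (hd : ∀ i ∈ s, k ≤ d i) (hw : ∀ i ∈ s, 0 < w i)
    (hw1 : ∑ i ∈ s, w i = 1) {q T X₀ : ℝ} {B A c g : ι → ℝ}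
    (hq : 0 < q) (hq1 : q < 1) (hT : 0 < T) (hX0 : 0 < X₀) (hX1 : X₀ < 1 / q)
    (h1 : T * ∑ i ∈ s, w i * ps (d i) X₀ = dd q X₀)
    (h2 : T * ∑ i ∈ s, w i * (X₀ ^ d i - X₀) = X₀ * dd' q X₀)
    (h3 : X₀ = 1 → T * ∑ i ∈ s, w i * ((d i : ℝ) - 1) = q / (1 - q) ∧
      T * ∑ i ∈ s, w i * ((d i : ℝ) - 1) ^ 2 = (q / (1 - q)) ^ 2)
    (hB : ∀ i ∈ s, 0 ≤ B i) (hB' : ∃ i ∈ s, 0 < B i) (hA : ∀ i ∈ s, 0 < A i)
    (hc : ∀ i ∈ s, 0 ≤ c i)
    (g1 : ∀ i ∈ s, B i - 1 + A i - c i + g i = 0)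
    (g2 : ∀ i ∈ s, 8 * B i - 2 * d i / k + 2 * A i - c i = 0)
    (g3 : ∀ i ∈ s, B i * X₀ ^ (4 * k) - X₀ ^ d i + A i * X₀ ^ k - c i * X₀ ^ ((k : ℝ) / 2) +
      g i = 0)
    (g4 : ∀ i ∈ s, 8 * B i * X₀ ^ (4 * k) - 2 * d i / k * X₀ ^ d i + 2 * A i * X₀ ^ k -
      c i * X₀ ^ ((k : ℝ) / 2) = 0)
    (g5 : X₀ = 1 → ∀ i ∈ s, 56 * B i - 2 * d i / k * (2 * d i / k - 1) + 2 * A i = 0 ∧
      336 * B i = 2 * d i / k * (2 * d i / k - 1) * (2 * d i / k - 2)) :
    ∀ X, 0 ≤ X → X ≤ 1 / q → T * ∑ i ∈ s, w i * ps (d i) X +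
      T * ∑ i ∈ s, w i / d i * (B i * X ^ (4 * k) - X ^ d i + A i * X ^ k -
        c i * X ^ ((k : ℝ) / 2) + g i) ≤ dd q X := by
  have hk0 : (0 : ℝ) < k := by exact_mod_cast (by omega : 0 < k)
  have hk2 : (2 : ℝ) ≤ k := by exact_mod_cast hk
  have hd0 : ∀ i ∈ s, (0 : ℝ) < d i := fun i hi => by
    have := hd i hi
    exact_mod_cast (by omega : 0 < d i)
  have hwd : ∀ i ∈ s, 0 < w i / d i := fun i hi => div_pos (hw i hi) (hd0 i hi)
  have hne : s.Nonempty := by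
    obtain ⟨i, hi, -⟩ := hB'
    exact ⟨i, hi⟩
  -- the coefficients
  obtain ⟨sB, hsB⟩ : ∃ sB, sB = ∑ i ∈ s, w i / d i * B i := ⟨_, rfl⟩
  obtain ⟨sA, hsA⟩ : ∃ sA, sA = ∑ i ∈ s, w i / d i * A i := ⟨_, rfl⟩
  obtain ⟨sc, hsc⟩ : ∃ sc, sc = ∑ i ∈ s, w i / d i * c i := ⟨_, rfl⟩
  obtain ⟨sg, hsg⟩ : ∃ sg, sg = ∑ i ∈ s, w i / d i * (g i - 1) := ⟨_, rfl⟩
  have hsB0 : 0 < sB := by
    rw [hsB]
    exact Finset.sum_pos' (fun i hi => mul_nonneg (hwd i hi).le (hB i hi))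
      (by obtain ⟨i, hi, hi'⟩ := hB'; exact ⟨i, hi, mul_pos (hwd i hi) hi'⟩)
  have hsA0 : 0 < sA := by
    rw [hsA]
    exact Finset.sum_pos (fun i hi => mul_pos (hwd i hi) (hA i hi)) hne
  have hsc0 : 0 ≤ sc := by
    rw [hsc]
    exact Finset.sum_nonneg fun i hi => mul_nonneg (hwd i hi).le (hc i hi)
  set c₀ : ℝ := T * sc with hc0
  set c₁ : ℝ := T * sA with hc1
  set c₂ : ℝ := T * sB with hc2
  set C : ℝ := - T - T * sg with hC
  have p0 : 0 ≤ c₀ := mul_nonneg hT.le hsc0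
  have p1 : 0 < c₁ := mul_pos hT hsA0
  have p2 : 0 < c₂ := mul_pos hT hsB0
  -- the total potential
  have tot : ∀ u v r' X : ℝ, ∑ i ∈ s, w i * ((X ^ d i - 1) / d i - (X - 1)) +
      ∑ i ∈ s, w i / d i * (B i * u - X ^ d i + A i * v - c i * r' + g i) =
      sB * u + sA * v - sc * r' + sg - (X - 1) := by
    intro u v r' X
    have e1 : (X - 1) = ∑ i ∈ s, w i * (X - 1) := by rw [← Finset.sum_mul, hw1, one_mul]
    rw [hsB, hsA, hsc, hsg, Finset.sum_mul, Finset.sum_mul, Finset.sum_mul]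
    nth_rewrite 2 [e1]
    rw [← Finset.sum_add_distrib, ← Finset.sum_add_distrib, ← Finset.sum_sub_distrib,
      ← Finset.sum_add_distrib, ← Finset.sum_sub_distrib]
    refine Finset.sum_congr rfl fun i hi => ?_
    have := (hd0 i hi).ne'
    field_simp
    ring
  have key : ∀ X : ℝ, ff k c₀ c₁ c₂ T C q X = dd q X - (T * ∑ i ∈ s, w i * ps (d i) X +
      T * ∑ i ∈ s, w i / d i * (B i * X ^ (4 * k) - X ^ d i + A i * X ^ k -
        c i * X ^ ((k : ℝ) / 2) + g i)) := by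
    intro X
    have e1 : X ^ (k : ℝ) = X ^ k := Real.rpow_natCast X k
    have e2 : X ^ (4 * (k : ℝ)) = X ^ (4 * k) := by
      rw [← Real.rpow_natCast X (4 * k)]
      congr 1
      push_cast
      ring
    rw [← mul_add]
    unfold ff ps
    rw [tot, e1, e2, hc0, hc1, hc2, hC]
    ring
  have key' : ∀ X : ℝ, 0 < X → X * ff' k c₀ c₁ c₂ T q X = (X * dd' q X -
      T * ∑ i ∈ s, w i * (X ^ d i - X)) - T * ∑ i ∈ s, w i / d i * (k / 2) *
        (8 * B i * X ^ (4 * k) - 2 * d i / k * X ^ d i + 2 * A i * X ^ k -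
          c i * X ^ ((k : ℝ) / 2)) := by
    intro X hX
    have e1 : X ^ ((k : ℝ) - 1) = X ^ k / X := by
      rw [Real.rpow_sub_one hX.ne', Real.rpow_natCast]
    have e2 : X ^ (4 * (k : ℝ) - 1) = X ^ (4 * k) / X := by
      rw [Real.rpow_sub_one hX.ne', ← Real.rpow_natCast X (4 * k)]
      push_cast
      ring
    have e3 : X ^ ((k : ℝ) / 2 - 1) = X ^ ((k : ℝ) / 2) / X := Real.rpow_sub_one hX.ne' _
    have e4 : ∑ i ∈ s, w i * (X ^ d i - X) + ∑ i ∈ s, w i / d i * (k / 2) *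
        (8 * B i * X ^ (4 * k) - 2 * d i / k * X ^ d i + 2 * A i * X ^ k -
          c i * X ^ ((k : ℝ) / 2)) =
        4 * k * X ^ (4 * k) * sB + k * X ^ k * sA - k / 2 * X ^ ((k : ℝ) / 2) * sc - X := by
      have e5 : X = ∑ i ∈ s, w i * X := by rw [← Finset.sum_mul, hw1, one_mul]
      rw [hsB, hsA, hsc, Finset.mul_sum, Finset.mul_sum, Finset.mul_sum]
      nth_rewrite 10 [e5]
      rw [← Finset.sum_add_distrib, ← Finset.sum_add_distrib, ← Finset.sum_sub_distrib,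
        ← Finset.sum_sub_distrib]
      refine Finset.sum_congr rfl fun i hi => ?_
      have := (hd0 i hi).ne'
      field_simp
      ring
    have e6 : X * ff' k c₀ c₁ c₂ T q X = X * dd' q X - T * (4 * k * X ^ (4 * k) * sB +
        k * X ^ k * sA - k / 2 * X ^ ((k : ℝ) / 2) * sc - X) := by
      unfold ff'
      rw [e1, e2, e3, hc0, hc1, hc2]
      field_simp
      ring
    rw [e6, ← e4]
    ring
  have hne' : ∀ X : ℝ, 0 < X → X * ff' k c₀ c₁ c₂ T q X = 0 → ff' k c₀ c₁ c₂ T q X = 0 :=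
    fun X hX h => (mul_eq_zero.1 h).resolve_left hX.ne'
  have hd1 : X₀ = 1 → nn k (c₀ * (k / 2 * (k / 2 - 1))) (c₁ * (k * (k - 1)))
      (c₂ * (4 * k * (4 * k - 1))) 1 = q / (1 - q) ∧
      nn' k (c₀ * (k / 2 * (k / 2 - 1))) (c₁ * (k * (k - 1)))
      (c₂ * (4 * k * (4 * k - 1))) 1 = (q / (1 - q)) ^ 2 := by
    intro h
    obtain ⟨i1, i2⟩ := h3 h
    have s1 : ∀ i ∈ s, 4 * k * (4 * k - 1) * B i + k * (k - 1) * A i -
        k / 2 * (k / 2 - 1) * c i = d i * ((d i : ℝ) - 1) := by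
      intro i hi
      obtain ⟨j1, j2⟩ := g5 h i hi
      have : 4 * k * (4 * k - 1) * B i + k * (k - 1) * A i - k / 2 * (k / 2 - 1) * c i -
        d i * ((d i : ℝ) - 1) = (k : ℝ) ^ 2 / 4 *
          (56 * B i - 2 * d i / k * (2 * d i / k - 1) + 2 * A i) + k / 2 * (k / 2 - 1) *
            (8 * B i - 2 * d i / k + 2 * A i - c i) := by
        field_simp
        ring
      rw [j1, g2 i hi] at this
      linarith
    have s2 : ∀ i ∈ s, 4 * k * (4 * k - 1) ^ 2 * B i + k * (k - 1) ^ 2 * A i -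
        k / 2 * (k / 2 - 1) ^ 2 * c i = d i * ((d i : ℝ) - 1) ^ 2 := by
      intro i hi
      obtain ⟨j1, j2⟩ := g5 h i hi
      have : 4 * k * (4 * k - 1) ^ 2 * B i + k * (k - 1) ^ 2 * A i -
        k / 2 * (k / 2 - 1) ^ 2 * c i - d i * ((d i : ℝ) - 1) ^ 2 = (k : ℝ) ^ 3 / 8 *
          (336 * B i - 2 * d i / k * (2 * d i / k - 1) * (2 * d i / k - 2)) +
          (3 * (k : ℝ) ^ 3 / 8 - 2 * (k : ℝ) ^ 2 / 4) *
          (56 * B i - 2 * d i / k * (2 * d i / k - 1) + 2 * A i) +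
          ((k : ℝ) ^ 3 / 8 - 2 * (k : ℝ) ^ 2 / 4 + k / 2) *
            (8 * B i - 2 * d i / k + 2 * A i - c i) := by
        field_simp
        ring
      rw [j1, g2 i hi, j2] at this
      linarith
    constructor
    · rw [← i1]
      unfold nn
      rw [Real.one_rpow, Real.one_rpow, Real.one_rpow, hc0, hc1, hc2, hsB, hsA, hsc]
      have : ∑ i ∈ s, w i * ((d i : ℝ) - 1) = ∑ i ∈ s, w i / d i * (4 * k * (4 * k - 1) * B i +
          k * (k - 1) * A i - k / 2 * (k / 2 - 1) * c i) := Finset.sum_congr rfl fun i hi => by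
        rw [s1 i hi]
        have := (hd0 i hi).ne'
        field_simp
      rw [this]
      have e1 : ∑ i ∈ s, w i / d i * (4 * k * (4 * k - 1) * B i +
          k * (k - 1) * A i - k / 2 * (k / 2 - 1) * c i) =
          4 * k * (4 * k - 1) * (∑ i ∈ s, w i / d i * B i) +
          k * (k - 1) * (∑ i ∈ s, w i / d i * A i) -
          k / 2 * (k / 2 - 1) * ∑ i ∈ s, w i / d i * c i := by
        rw [Finset.mul_sum, Finset.mul_sum, Finset.mul_sum, ← Finset.sum_add_distrib,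
          ← Finset.sum_sub_distrib]
        exact Finset.sum_congr rfl fun i hi => by ring
      rw [e1]
      ring
    · rw [← i2]
      unfold nn'
      rw [Real.one_rpow, Real.one_rpow, Real.one_rpow, hc0, hc1, hc2, hsB, hsA, hsc]
      have : ∑ i ∈ s, w i * ((d i : ℝ) - 1) ^ 2 = ∑ i ∈ s, w i / d i *
          (4 * k * (4 * k - 1) ^ 2 * B i +
          k * (k - 1) ^ 2 * A i - k / 2 * (k / 2 - 1) ^ 2 * c i) :=
        Finset.sum_congr rfl fun i hi => by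
        rw [s2 i hi]
        have := (hd0 i hi).ne'
        field_simp
      rw [this]
      have e1 : ∑ i ∈ s, w i / d i * (4 * k * (4 * k - 1) ^ 2 * B i +
          k * (k - 1) ^ 2 * A i - k / 2 * (k / 2 - 1) ^ 2 * c i) =
          4 * k * (4 * k - 1) ^ 2 * (∑ i ∈ s, w i / d i * B i) +
          k * (k - 1) ^ 2 * (∑ i ∈ s, w i / d i * A i) -
          k / 2 * (k / 2 - 1) ^ 2 * ∑ i ∈ s, w i / d i * c i := by
        rw [Finset.mul_sum, Finset.mul_sum, Finset.mul_sum, ← Finset.sum_add_distrib,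
          ← Finset.sum_sub_distrib]
        exact Finset.sum_congr rfl fun i hi => by ring
      rw [e1]
      ring
  have f1 : ff k c₀ c₁ c₂ T C q 1 = 0 := by
    rw [key, dd_one hq hq1, one_pow, one_pow, Real.one_rpow]
    have e1 : ∑ i ∈ s, w i * ps (d i) 1 = 0 :=
      Finset.sum_eq_zero fun i _ => by rw [ps_one, mul_zero]
    have e2 : ∑ i ∈ s, w i / d i * (B i * 1 - 1 ^ d i + A i * 1 - c i * 1 + g i) = 0 :=
      Finset.sum_eq_zero fun i hi => by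
        rw [one_pow]
        linear_combination (w i / d i) * g1 i hi
    rw [e1, e2]
    ring
  have f1' : ff' k c₀ c₁ c₂ T q 1 = 0 := by
    apply hne' 1 one_pos
    rw [key' 1 one_pos, dd'_one, one_pow, one_pow, Real.one_rpow]
    have e1 : ∑ i ∈ s, w i * ((1 : ℝ) ^ d i - 1) = 0 :=
      Finset.sum_eq_zero fun i _ => by rw [one_pow, sub_self, mul_zero]
    have e2 : ∑ i ∈ s, w i / d i * (k / 2) * (8 * B i * 1 - 2 * d i / k * 1 ^ d i +
        2 * A i * 1 - c i * 1) = 0 :=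
      Finset.sum_eq_zero fun i hi => by
        rw [one_pow]
        linear_combination (w i / d i * (k / 2)) * g2 i hi
    rw [e1, e2]
    ring
  have f2 : ff k c₀ c₁ c₂ T C q X₀ = 0 := by
    rw [key, h1]
    have e2 : ∑ i ∈ s, w i / d i * (B i * X₀ ^ (4 * k) - X₀ ^ d i + A i * X₀ ^ k -
        c i * X₀ ^ ((k : ℝ) / 2) + g i) = 0 :=
      Finset.sum_eq_zero fun i hi => by rw [g3 i hi, mul_zero]
    rw [e2]
    ring
  have f2' : ff' k c₀ c₁ c₂ T q X₀ = 0 := by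
    apply hne' X₀ hX0
    rw [key' X₀ hX0, h2]
    have e2 : ∑ i ∈ s, w i / d i * (k / 2) * (8 * B i * X₀ ^ (4 * k) -
        2 * d i / k * X₀ ^ d i + 2 * A i * X₀ ^ k - c i * X₀ ^ ((k : ℝ) / 2)) = 0 :=
      Finset.sum_eq_zero fun i hi => by rw [g4 i hi, mul_zero]
    rw [e2]
    ring
  have main : ∀ X, 0 < X → X < 1 / q → 0 ≤ ff k c₀ c₁ c₂ T C q X := fun X hX hX' =>
    ff_nonneg hk2 p0 p1 p2 hq hq1 hX0 hX1 f1 f1' f2 f2' hd1 hX hX'
  have hcont : ContinuousOn (ff k c₀ c₁ c₂ T C q) (Icc 0 (1 / q)) := by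
    have r1 : ∀ s : ℝ, 0 ≤ s → Continuous (fun X : ℝ => X ^ s) := fun s hs =>
      Real.continuous_rpow_const hs
    unfold ff
    have c1 : Continuous fun X : ℝ => X ^ (k : ℝ) := r1 _ (by positivity)
    have c2 : Continuous fun X : ℝ => X ^ (4 * (k : ℝ)) := r1 _ (by positivity)
    have c3 : Continuous fun X : ℝ => X ^ ((k : ℝ) / 2) := r1 _ (by positivity)
    exact ((((continuousOn_dd hq hq1).sub (continuous_const.mul c1).continuousOn).sub
      (continuous_const.mul c2).continuousOn).add (continuous_const.mul c3).continuousOn).add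
      (continuous_const.mul continuous_id).continuousOn |>.add continuousOn_const
  intro X hX hX'
  have hq' : (0 : ℝ) < 1 / q := by positivity
  have hXc : X ∈ closure (Ioo 0 (1 / q)) := by
    rw [closure_Ioo hq'.ne]
    exact ⟨hX, hX'⟩
  have := ((hcont X ⟨hX, hX'⟩).mono Ioo_subset_Icc_self).mem_closure hXc
    (t := Ici 0) (fun Y hY => main Y hY.1 hY.2)
  rw [isClosed_Ici.closure_eq, mem_Ici, key] at this
  linarith

end Pool.Agent.W_bbc525_gd
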