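import Mathlib

/-!
# General degrees: the inequality on an edge
-/

set_option autoImplicit false

namespace Pool.Agent.W_bbc525_gd

/-- `θ (1 - y) (1 + x) ≤ 2 (1 - y ^ θ)` for `y = x ^ s`, `1 ≤ s`, `θ s ≤ 2` -/
theorem Edge_aux {x s A : ℝ} (hx : 0 < x) (hx1 : x < 1) (hs : 1 ≤ s) (hsA : s ≤ A) (hA : A ≤ 2) :
    A / s * (1 - x ^ s) * (1 + x) ≤ 2 * (1 - x ^ A) := by
  have hs0 : 0 < s := by linarith
  have hA0 : 0 < A := by linarith
  have h1 := one_add_mul_self_le_rpow_one_add (s := x - 1) (by linarith) (p := s) hs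
  have e1 : 1 + (x - 1) = x := by ring
  rw [e1] at h1
  have hxA : 0 < x ^ A := Real.rpow_pos_of_pos hx A
  have h2 := one_add_mul_self_le_rpow_one_add (s := x ^ A - 1) (by linarith) (p := 2 / A)
    (by rw [le_div_iff₀ hA0]; linarith)
  have e2 : 1 + (x ^ A - 1) = x ^ A := by ring
  rw [e2, ← Real.rpow_mul hx.le, mul_div_cancel₀ _ hA0.ne'] at h2
  have e3 : x ^ (2 : ℝ) = x ^ 2 := by norm_num
  rw [e3] at h2
  -- `1 - x ^ s ≤ s (1 - x)`
  have h3 : 1 - x ^ s ≤ s * (1 - x) := by linarith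
  -- `A (1 - x ^ 2) ≤ 2 (1 - x ^ A)`
  have h4 : A * (1 - x ^ 2) ≤ 2 * (1 - x ^ A) := by
    have h5 := mul_le_mul_of_nonneg_left h2 hA0.le
    have e4 : A * (1 + 2 / A * (x ^ A - 1)) = A + 2 * (x ^ A - 1) := by
      field_simp
    rw [e4] at h5
    linarith
  calc A / s * (1 - x ^ s) * (1 + x) ≤ A / s * (s * (1 - x)) * (1 + x) := by
        apply mul_le_mul_of_nonneg_right _ (by linarith)
        exact mul_le_mul_of_nonneg_left h3 (by positivity)
    _ = A * (1 - x ^ 2) := by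
        field_simp
        ring
    _ ≤ _ := h4

/-- the case `m_b < 1` -/
theorem Edge_key {k b a : ℕ} (hk : 0 < k) (hkb : k ≤ b) (hba : b ≤ a) (ha : a ≤ 2 * k)
    {x y ρ : ℝ} (hx : 0 < x) (hρ : 1 < ρ) (hy : 0 < y) (hy1 : y < 1)
    (hxy : x ^ ((b : ℝ) / k) ≤ y) :
    (a : ℝ) / b * (1 - y) < (1 + ρ * ((1 - x) / (1 + x))) * (1 - y ^ ((a : ℝ) / b)) := by
  have hk' : (0 : ℝ) < k := by exact_mod_cast hk
  have hb' : (0 : ℝ) < b := by exact_mod_cast (by omega : 0 < b)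
  have ha' : (0 : ℝ) < a := by exact_mod_cast (by omega : 0 < a)
  have hkb' : (k : ℝ) ≤ b := by exact_mod_cast hkb
  have hba' : (b : ℝ) ≤ a := by exact_mod_cast hba
  have ha2 : (a : ℝ) ≤ 2 * k := by exact_mod_cast ha
  set x' := y ^ ((k : ℝ) / b) with hx'
  have hx'0 : 0 < x' := Real.rpow_pos_of_pos hy _
  have hx'1 : x' < 1 := Real.rpow_lt_one hy.le hy1 (by positivity)
  have hxx' : x ≤ x' := by
    have h := Real.rpow_le_rpow (Real.rpow_nonneg hx.le _) hxy
      (by positivity : (0 : ℝ) ≤ (k : ℝ) / b)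
    rw [← Real.rpow_mul hx.le] at h
    have e : (b : ℝ) / k * (k / b) = 1 := by field_simp
    rwa [e, Real.rpow_one] at h
  have hx1 : x < 1 := lt_of_le_of_lt hxx' hx'1
  have e1 : x' ^ ((b : ℝ) / k) = y := by
    rw [hx', ← Real.rpow_mul hy.le]
    have e : (k : ℝ) / b * (b / k) = 1 := by field_simp
    rw [e, Real.rpow_one]
  have e2 : x' ^ ((a : ℝ) / k) = y ^ ((a : ℝ) / b) := by
    rw [hx', ← Real.rpow_mul hy.le]
    congr 1
    field_simp
  have h1 := Edge_aux hx'0 hx'1 (s := (b : ℝ) / k) (A := (a : ℝ) / k)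
    (by rw [le_div_iff₀ hk']; linarith) (div_le_div_of_nonneg_right hba' hk'.le)
    (by rw [div_le_iff₀ hk']; linarith)
  rw [e1, e2] at h1
  have e3 : (a : ℝ) / k / (b / k) = a / b := by field_simp
  rw [e3] at h1
  have hyθ : y ^ ((a : ℝ) / b) < 1 := Real.rpow_lt_one hy.le hy1 (by positivity)
  have hD : 0 < 1 - y ^ ((a : ℝ) / b) := by linarith
  -- `1 + ν > 2 / (1 + x')`
  have h2 : 2 / (1 + x') < 1 + ρ * ((1 - x) / (1 + x)) := by
    have h3 : 2 / (1 + x') ≤ 2 / (1 + x) :=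
      div_le_div_of_nonneg_left (by norm_num) (by linarith) (by linarith)
    have h4 : 2 / (1 + x) = 1 + 1 * ((1 - x) / (1 + x)) := by
      field_simp
      ring
    have h5 : 0 < (1 - x) / (1 + x) := div_pos (by linarith) (by linarith)
    have h6 := mul_lt_mul_of_pos_right hρ h5
    linarith
  calc (a : ℝ) / b * (1 - y) = a / b * (1 - y) * (1 + x') / (1 + x') := by
        have : 1 + x' ≠ 0 := by linarith
        field_simp
    _ ≤ 2 * (1 - y ^ ((a : ℝ) / b)) / (1 + x') := div_le_div_of_nonneg_right h1 (by linarith)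
    _ = 2 / (1 + x') * (1 - y ^ ((a : ℝ) / b)) := by ring
    _ < _ := mul_lt_mul_of_pos_right h2 hD

/-- **The inequality on an edge.** -/
theorem edge_le {k b a : ℕ} (hk : 0 < k) (hkb : k ≤ b) (hba : b ≤ a) (ha : a ≤ 2 * k)
    {x mb ma ρ : ℝ} (hx : 0 < x) (hx1 : x < 1) (hρ : 1 < ρ) (hmb : 0 < mb)
    (hab : mb ^ ((a : ℝ) / b) ≤ ma) (hxb : x ^ ((b : ℝ) / k) ≤ mb) :
    2 * ((1 + ρ * ((1 - x) / (1 + x))) * Real.log ((ma + mb ^ ((a : ℝ) / b)) / 2)) ≤
      (ma - 1 + max 0 (ρ * ((1 - x) / (1 + x)) * (ma - 1))) +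
        (a : ℝ) / b * (mb - 1 + max 0 (ρ * ((1 - x) / (1 + x)) * (mb - 1))) ∧
    (mb < 1 → 2 * ((1 + ρ * ((1 - x) / (1 + x))) * Real.log ((ma + mb ^ ((a : ℝ) / b)) / 2)) <
      (ma - 1 + max 0 (ρ * ((1 - x) / (1 + x)) * (ma - 1))) +
        (a : ℝ) / b * (mb - 1 + max 0 (ρ * ((1 - x) / (1 + x)) * (mb - 1)))) := by
  have hb' : (0 : ℝ) < b := by exact_mod_cast (by omega : 0 < b)
  have ha' : (0 : ℝ) < a := by exact_mod_cast (by omega : 0 < a)
  have hba' : (b : ℝ) ≤ a := by exact_mod_cast hba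
  have hθ : 0 < (a : ℝ) / b := by positivity
  set θ : ℝ := (a : ℝ) / b with hθdef
  set u := mb ^ θ with hu
  have hu0 : 0 < u := Real.rpow_pos_of_pos hmb _
  set ν := ρ * ((1 - x) / (1 + x)) with hν
  have hν0 : 0 < ν := by
    have h5 : 0 < (1 - x) / (1 + x) := div_pos (by linarith) (by linarith)
    have : 0 < ρ := by linarith
    positivity
  have hlt : mb < 1 → 2 * ((1 + ν) * Real.log ((ma + u) / 2)) <
      (ma - 1 + max 0 (ν * (ma - 1))) + θ * (mb - 1 + max 0 (ν * (mb - 1))) := by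
    intro h
    have h1 := Edge_key hk hkb hba ha hx hρ hmb h hxb
    rw [← hθdef, ← hu, ← hν] at h1
    have h2 := Real.log_le_sub_one_of_pos (by linarith : 0 < (ma + u) / 2)
    have h3 := mul_le_mul_of_nonneg_left h2 (by linarith : 0 ≤ 1 + ν)
    have h4 := le_max_right 0 (ν * (ma - 1))
    have h5 := le_max_left 0 (ν * (mb - 1))
    have h6 := mul_nonneg hθ.le h5
    nlinarith
  refine ⟨?_, hlt⟩
  rcases lt_or_ge mb 1 with h | h
  · exact (hlt h).le
  · have hu1 : 1 ≤ u := Real.one_le_rpow h hθ.le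
    have hma1 : 1 ≤ ma := hu1.trans hab
    have h1 : Real.log ((ma + u) / 2) ≤ Real.log u + (ma - u) / 2 := by
      have h2 : (ma + u) / 2 = u * (1 + (ma - u) / (2 * u)) := by
        field_simp
        ring
      have h3 : 0 ≤ (ma - u) / (2 * u) := div_nonneg (by linarith) (by linarith)
      rw [h2, Real.log_mul hu0.ne' (by linarith)]
      have h4 := Real.log_le_sub_one_of_pos (by linarith : 0 < 1 + (ma - u) / (2 * u))
      have h5 : (ma - u) / (2 * u) ≤ (ma - u) / 2 :=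
        div_le_div_of_nonneg_left (by linarith) (by norm_num) (by linarith)
      linarith
    have h2 : Real.log u = θ * Real.log mb := Real.log_rpow hmb θ
    have h3 := Real.log_le_sub_one_of_pos hu0
    have h4 := mul_le_mul_of_nonneg_left (Real.log_le_sub_one_of_pos hmb) hθ.le
    have h5 : 2 * Real.log ((ma + u) / 2) ≤ (ma - 1) + θ * (mb - 1) := by linarith
    have h6 := mul_le_mul_of_nonneg_left h5 (by linarith : 0 ≤ 1 + ν)
    have h7 : ν * (ma - 1) ≤ max 0 (ν * (ma - 1)) := le_max_right _ _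
    have h8 := mul_le_mul_of_nonneg_left (le_max_right 0 (ν * (mb - 1))) hθ.le
    nlinarith

end Pool.Agent.W_bbc525_gd
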