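import Pool.Agent.W_bbc525_gd.Reg
import Pool.Agent.W_bbc525_td.Alg

/-!
# The two final inequalities between the constants
-/

set_option autoImplicit false

namespace Pool.Agent.W_bbc525_gd

open Set Pool.Agent.W_bbc525_td

section

variable {L b : ℝ}

/-- Bernoulli -/
theorem fin_up (hL : 2 < L) (hL4 : L ≤ 4) (hb : 0 < b) :
    b ^ (L - 2) ≤ 1 - (L - 2) / 2 * (1 - b ^ 2) := by
  have h := rpow_one_add_le_one_add_mul_self (s := b ^ 2 - 1) (p := (L - 2) / 2)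
    (by nlinarith [sq_nonneg b]) (by linarith) (by linarith)
  rw [show 1 + (b ^ 2 - 1) = b ^ 2 by ring, Alg_half (L := L - 2) hb.le] at h
  linarith

/-- Bernoulli for the inverse -/
theorem fin_lo (hL : 2 < L) (hL4 : L ≤ 4) (hb : 0 < b) :
    b ^ 2 ≤ b ^ (L - 2) * ((L - 2) / 2 + b ^ 2 - (L - 2) / 2 * b ^ 2) := by
  have hb2 : 0 < b ^ 2 := by positivity
  have h := rpow_one_add_le_one_add_mul_self (s := (b ^ 2)⁻¹ - 1) (p := (L - 2) / 2)
    (by
      have : 0 < (b ^ 2)⁻¹ := by positivity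
      linarith) (by linarith) (by linarith)
  rw [show 1 + ((b ^ 2)⁻¹ - 1) = (b ^ 2)⁻¹ by ring, Real.inv_rpow hb2.le,
    Alg_half (L := L - 2) hb.le] at h
  have hy : 0 < b ^ (L - 2) := Real.rpow_pos_of_pos hb _
  set y := b ^ (L - 2)
  have h2 := mul_le_mul_of_nonneg_left h (mul_pos hy hb2).le
  have e1 : y * b ^ 2 * y⁻¹ = b ^ 2 := by field_simp
  have e2 : y * b ^ 2 * (1 + (L - 2) / 2 * ((b ^ 2)⁻¹ - 1)) =
      y * ((L - 2) / 2 + b ^ 2 - (L - 2) / 2 * b ^ 2) := by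
    field_simp
    ring
  rw [e1, e2] at h2
  exact h2

/-- the `[1/1]` bound for `3 ≤ L` -/
theorem fin_be (hL : 3 ≤ L) (hL4 : L ≤ 4) (hb : 0 < b) (hb1 : b < 1) :
    b ^ (L - 2) * (b + (L - 2) / 2 * (1 - b)) ≤ b * (1 - (L - 2) / 2 * (1 - b)) := by
  have h := pade1 hb hb1.le (q := L - 3) (by linarith) (by linarith)
  have e : b ^ (L - 2) = b * b ^ (L - 3) := by
    have : L - 2 = (L - 3) + 1 := by ring
    rw [this, Real.rpow_add hb, Real.rpow_one]
    ring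
  rw [e]
  have h2 := mul_le_mul_of_nonneg_left h hb.le
  nlinarith only [h2]

theorem fin_w (hb : 0 ≤ b) (hb1 : b ≤ 1) : 5 * (2 + b) / 6 ≤ 1 + QQ b 0 / pp b := by
  have hp := pp_pos hb
  rw [← sub_nonneg]
  have e : 1 + QQ b 0 / pp b - 5 * (2 + b) / 6 =
      (b * (1 - b) * (13 + 17 * b + 25 * b ^ 2 + 15 * b ^ 3)) / (6 * pp b) := by
    rw [eq_div_iff (by positivity)]
    have e2 : QQ b 0 / pp b * pp b = QQ b 0 := div_mul_cancel₀ _ hp.ne'
    have e3 : (1 + QQ b 0 / pp b - 5 * (2 + b) / 6) * (6 * pp b) =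
        6 * pp b + 6 * (QQ b 0 / pp b * pp b) - 5 * (2 + b) * pp b := by ring
    rw [e3, e2]
    unfold QQ pp
    ring
  rw [e]
  have : 0 ≤ 1 - b := by linarith
  positivity

/-- `λ` in terms of `a = (L - 2) / 2` and `Y = b ^ (L - 2)` -/
theorem fin_lam (hb : 0 < b) (hb1 : b < 1) :
    lam L b * ((1 - b) ^ 3 * (1 + b)) =
      (L - 2) / 2 * (1 - b) * (1 + b * b ^ (L - 2)) - b * (1 - b ^ (L - 2)) := by
  unfold lam
  rw [if_neg hb1.ne, rpow_L1 (L := L) hb, rpow_L (L := L) hb]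
  have h1 : 1 - b ≠ 0 := by linarith
  have h2 : 1 + b ≠ 0 := by positivity
  field_simp
  ring

/-- the coefficient `g` -/
theorem fin_g {A c g : ℝ} (hb : 0 < b) (hb1 : b < 1)
    (e1 : lam L b - 1 + A - c + g = 0) (e2 : 4 * lam L b - L + 2 * A - c = 0)
    (e4 : 4 * lam L b * b ^ 4 - L * b ^ L + 2 * A * b ^ 2 - c * b = 0) :
    (lam L b - g / b ^ 2) * (1 - b) ^ 3 =
      (L - 2) * (1 - b) * (1 + b ^ (L - 2)) - (1 + b) * (1 - b ^ (L - 2)) := by
  have hl := fin_lam (L := L) hb hb1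
  rw [rpow_L (L := L) hb] at e4
  set y := b ^ (L - 2)
  set lm := lam L b
  have h1 : 1 - b ≠ 0 := by linarith
  have h2 : 1 + b ≠ 0 := by positivity
  have h3 : b ≠ 0 := hb.ne'
  have hlm : lm = ((L - 2) / 2 * (1 - b) * (1 + b * y) - b * (1 - y)) / ((1 - b) ^ 3 * (1 + b)) := by
    rw [eq_div_iff (by positivity)]
    exact hl
  have hA : A = (4 * lm * b ^ 3 - L * b * y - 4 * lm + L) / (2 * (1 - b)) := by
    rw [eq_div_iff (by positivity)]
    have : b * (A * (2 * (1 - b)) - (4 * lm * b ^ 3 - L * b * y - 4 * lm + L)) = 0 := by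
      linear_combination b * e2 - e4
    rcases mul_eq_zero.1 this with h | h
    · exact absurd h h3
    · linarith only [h]
  have hg : g = 1 + 3 * lm - L + A := by linarith only [e1, e2]
  rw [hg, hA, hlm]
  field_simp
  ring

/-- the coefficient `m` -/
theorem fin_m {A c : ℝ} (hb : 0 < b) (hb1 : b < 1)
    (e2 : 4 * lam L b - L + 2 * A - c = 0)
    (e4 : 4 * lam L b * b ^ 4 - L * b ^ L + 2 * A * b ^ 2 - c * b = 0) :
    (lam L b - (12 * lam L b * b ^ 2 - L * (L - 1) * b ^ (L - 2) + 2 * A) / (2 * (1 - b) ^ 2)) *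
      (1 - b) ^ 4 =
      - (1 + 2 * b) * (1 - b ^ (L - 2)) + (L - 2) / 2 * (1 - b) * (2 + (3 + b) * b ^ (L - 2)) +
        2 * ((L - 2) / 2) ^ 2 * (1 - b) ^ 2 * b ^ (L - 2) := by
  have hl := fin_lam (L := L) hb hb1
  rw [rpow_L (L := L) hb] at e4
  set y := b ^ (L - 2)
  set lm := lam L b
  have h1 : 1 - b ≠ 0 := by linarith
  have h2 : 1 + b ≠ 0 := by positivity
  have h3 : b ≠ 0 := hb.ne'
  have hlm : lm = ((L - 2) / 2 * (1 - b) * (1 + b * y) - b * (1 - y)) / ((1 - b) ^ 3 * (1 + b)) := by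
    rw [eq_div_iff (by positivity)]
    exact hl
  have hA : A = (4 * lm * b ^ 3 - L * b * y - 4 * lm + L) / (2 * (1 - b)) := by
    rw [eq_div_iff (by positivity)]
    have : b * (A * (2 * (1 - b)) - (4 * lm * b ^ 3 - L * b * y - 4 * lm + L)) = 0 := by
      linear_combination b * e2 - e4
    rcases mul_eq_zero.1 this with h | h
    · exact absurd h h3
    · linarith only [h]
  rw [hA, hlm]
  field_simp
  ring

/-- **final inequality for `3 ≤ L`** -/
theorem fin3 {A c g : ℝ} (hL : 3 ≤ L) (hL4 : L ≤ 4) (hb : 0 < b) (hb1 : b < 1)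
    (e1 : lam L b - 1 + A - c + g = 0) (e2 : 4 * lam L b - L + 2 * A - c = 0)
    (e4 : 4 * lam L b * b ^ 4 - L * b ^ L + 2 * A * b ^ 2 - c * b = 0) :
    51 / 50 * (del L b) ^ 2 * (1 + b) ^ 2 ≤
      2 * kap L b * (g / b ^ 2 + lam L b / pp b * QQ b 0) := by
  have hL2 : 2 < L := by linarith
  have hg := fin_g (L := L) hb hb1 e1 e2 e4
  have hl := fin_lam (L := L) hb hb1
  have hw := fin_w hb.le hb1.le
  have hlm := lam_pos hL2 hL4 hb
  have hpoly := reg3_poly (a := (L - 2) / 2) (Y := b ^ (L - 2)) (by linarith) (by linarith) hb hb1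
    (fin_be hL hL4 hb hb1)
  have hlo := fin_lo hL2 hL4 hb
  have hy1 : b ^ (L - 2) < 1 := Real.rpow_lt_one hb.le hb1 (by linarith only [hL, hb, hb1])
  have hpp := pp_pos hb.le
  have hk : kap L b = (1 - b ^ 2 * b ^ (L - 2)) / (1 - b ^ 2) := by
    unfold kap
    rw [if_neg hb1.ne, rpow_L (L := L) hb]
  have hd : del L b = (1 - b ^ (L - 2)) / (1 - b ^ 2) := by
    unfold del
    rw [if_neg hb1.ne]
  rw [hk, hd]
  set y := b ^ (L - 2)
  set lm := lam L b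
  set a := (L - 2) / 2 with ha
  have hLa : L - 2 = 2 * a := by rw [ha]; ring
  rw [hLa] at hg
  set w0 := 5 * (2 + b) / 6 with hw0
  have ha0 : 0 < a := by rw [ha]; linarith only [hL, hb, hb1]
  have b1 : 0 < 1 - b := by linarith only [hb1]
  have b2 : 0 < 1 - b ^ 2 := by nlinarith only [hb1, hb]
  have b3 : 0 < 1 - y := by linarith
  -- the lower bound
  set H := w0 * (a * (1 - b) * (1 + b * y) - b * (1 - y)) - 2 * a * (1 - b ^ 2) * (1 + y) +
    (1 + b) ^ 2 * (1 - y) with hH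
  have h1 : H / ((1 - b) ^ 3 * (1 + b)) ≤ g / b ^ 2 + lm / pp b * QQ b 0 := by
    have c1 : H = (lm * w0 - (lm - g / b ^ 2)) * ((1 - b) ^ 3 * (1 + b)) := by
      have : (lm * w0 - (lm - g / b ^ 2)) * ((1 - b) ^ 3 * (1 + b)) =
          w0 * (lm * ((1 - b) ^ 3 * (1 + b))) - (1 + b) * ((lm - g / b ^ 2) * (1 - b) ^ 3) := by
        ring
      rw [this, hl, hg, hH]
      ring
    rw [div_le_iff₀ (by positivity), c1]
    apply mul_le_mul_of_nonneg_right _ (by positivity)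
    have c2 := mul_le_mul_of_nonneg_left hw hlm.le
    have c3 : lm / pp b * QQ b 0 = lm * (QQ b 0 / pp b) := by ring
    rw [c3]
    linarith only [c2]
  have h2 : 0 ≤ a * (1 - b ^ 2 * y) - (1 - y) * (a + b ^ 2) := by
    linarith
  have h3 : 51 / 50 * (1 - b ^ 2) ^ 2 * (1 - y) ^ 2 ≤ 2 * (1 - b ^ 2 * y) * H := by
    have c0 : 0 ≤ H := by
      have : 0 ≤ 2 * (a + b ^ 2) * H := le_trans (by positivity) hpoly
      have c : 0 < 2 * (a + b ^ 2) := by positivity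
      exact nonneg_of_mul_nonneg_right this c
    have c1 := mul_le_mul_of_nonneg_right hpoly b3.le
    have c2 := mul_nonneg h2 c0
    have c3 : a * (51 / 50 * (1 - b ^ 2) ^ 2 * (1 - y) ^ 2) ≤ a * (2 * (1 - b ^ 2 * y) * H) := by
      linarith only [c1, c2]
    exact le_of_mul_le_mul_left c3 ha0
  have h4 : 51 / 50 * ((1 - y) / (1 - b ^ 2)) ^ 2 * (1 + b) ^ 2 ≤
      2 * ((1 - b ^ 2 * y) / (1 - b ^ 2)) * (H / ((1 - b) ^ 3 * (1 + b))) := by
    have f1 : 51 / 50 * ((1 - y) / (1 - b ^ 2)) ^ 2 * (1 + b) ^ 2 =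
        (51 / 50 * (1 - b ^ 2) ^ 2 * (1 - y) ^ 2) / ((1 - b ^ 2) ^ 2 * (1 - b) ^ 2) := by
      field_simp
      ring
    have f2 : 2 * ((1 - b ^ 2 * y) / (1 - b ^ 2)) * (H / ((1 - b) ^ 3 * (1 + b))) =
        (2 * (1 - b ^ 2 * y) * H) / ((1 - b ^ 2) ^ 2 * (1 - b) ^ 2) := by
      have hc : (1 - b ^ 2) = (1 - b) * (1 + b) := by ring
      generalize (1 - b ^ 2 * y) = N
      rw [hc]
      field_simp
    rw [f1, f2]
    exact div_le_div_of_nonneg_right h3 (by positivity)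
  refine h4.trans (mul_le_mul_of_nonneg_left h1 ?_)
  have : 0 ≤ 1 - b ^ 2 * y := by nlinarith only [b2, hy1]
  positivity

/-- **final inequality for `L ≤ 3`** -/
theorem fin2 {A c : ℝ} (hL : 2 < L) (hL3 : L ≤ 3) (hb : 0 < b) (hb1 : b < 1)
    (e2 : 4 * lam L b - L + 2 * A - c = 0)
    (e4 : 4 * lam L b * b ^ 4 - L * b ^ L + 2 * A * b ^ 2 - c * b = 0) :
    51 / 50 * (del L b) ^ 2 * (1 + b) ^ 2 ≤
      2 * kap L b * ((12 * lam L b * b ^ 2 - L * (L - 1) * b ^ (L - 2) + 2 * A) /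
        (2 * (1 - b) ^ 2) + lam L b / pp b * QQ b 0) := by
  have hL4 : L ≤ 4 := by linarith
  have hg := fin_m (L := L) hb hb1 e2 e4
  have hl := fin_lam (L := L) hb hb1
  have hw := fin_w hb.le hb1.le
  have hlm := lam_pos hL hL4 hb
  have hpd := pade3 hb hb1.le (q := L - 2) (by linarith) (by linarith)
  have hpoly := reg2_poly (a := (L - 2) / 2) (Y := b ^ (L - 2)) (by linarith) (by linarith only [hL3]) hb hb1.le
    (by
      rw [show 2 * ((L - 2) / 2) = L - 2 by ring]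
      exact hpd)
  have hlo := fin_lo hL hL4 hb
  have hy1 : b ^ (L - 2) < 1 := Real.rpow_lt_one hb.le hb1 (by linarith only [hL])
  have hpp := pp_pos hb.le
  have hk : kap L b = (1 - b ^ 2 * b ^ (L - 2)) / (1 - b ^ 2) := by
    unfold kap
    rw [if_neg hb1.ne, rpow_L (L := L) hb]
  have hd : del L b = (1 - b ^ (L - 2)) / (1 - b ^ 2) := by
    unfold del
    rw [if_neg hb1.ne]
  rw [hk, hd]
  set m := (12 * lam L b * b ^ 2 - L * (L - 1) * b ^ (L - 2) + 2 * A) / (2 * (1 - b) ^ 2)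
  set y := b ^ (L - 2)
  set lm := lam L b
  set a := (L - 2) / 2 with ha
  set w0 := 5 * (2 + b) / 6 with hw0
  have ha0 : 0 < a := by rw [ha]; linarith
  have b1 : 0 < 1 - b := by linarith
  have b2 : 0 < 1 - b ^ 2 := by nlinarith only [hb1, hb]
  have b3 : 0 < 1 - y := by linarith
  -- the lower bound
  set H := w0 * (1 - b) * (a * (1 - b) * (1 + b * y) - b * (1 - y)) +
        (1 + b) * ((1 + 2 * b) * (1 - y) - a * (1 - b) * (2 + (3 + b) * y) -
          2 * a ^ 2 * (1 - b) ^ 2 * y) with hH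
  have h1 : H / ((1 - b) ^ 4 * (1 + b)) ≤ m + lm / pp b * QQ b 0 := by
    have c1 : H = (lm * w0 - (lm - m)) * ((1 - b) ^ 4 * (1 + b)) := by
      have : (lm * w0 - (lm - m)) * ((1 - b) ^ 4 * (1 + b)) =
          w0 * (1 - b) * (lm * ((1 - b) ^ 3 * (1 + b))) - (1 + b) * ((lm - m) * (1 - b) ^ 4) := by
        ring
      rw [this, hl, hg, hH]
      ring
    rw [div_le_iff₀ (by positivity), c1]
    apply mul_le_mul_of_nonneg_right _ (by positivity)
    have c2 := mul_le_mul_of_nonneg_left hw hlm.le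
    have c3 : lm / pp b * QQ b 0 = lm * (QQ b 0 / pp b) := by ring
    rw [c3]
    linarith only [c2]
  have h2 : (1 - y) * (1 + b) ^ 2 ≤ (1 + a) * (1 - b ^ 2 * y) := by
    have c1 : 0 ≤ a * (1 - b ^ 2 * y) - (1 - y) * (a + b ^ 2) := by linarith only [hlo]
    have c2 : 0 ≤ (1 - y) * (a - b) ^ 2 := by positivity
    have c3 : a * ((1 - y) * (1 + b) ^ 2) ≤ a * ((1 + a) * (1 - b ^ 2 * y)) := by
      nlinarith only [c2, hb, hb1, ha0, c1, mul_nonneg (by linarith : 0 ≤ 1 + a) c1]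
    exact le_of_mul_le_mul_left c3 ha0
  have h4 : 51 / 50 * ((1 - y) / (1 - b ^ 2)) ^ 2 * (1 + b) ^ 2 ≤
      2 * ((1 - b ^ 2 * y) / (1 - b ^ 2)) * (H / ((1 - b) ^ 4 * (1 + b))) := by
    have hc : (1 - b ^ 2) = (1 - b) * (1 + b) := by ring
    have f1 : 51 / 50 * ((1 - y) / (1 - b ^ 2)) ^ 2 * (1 + b) ^ 2 =
        (51 / 50 * (1 - y) * (1 - b) ^ 3 * ((1 - y) * (1 + b) ^ 2)) /
          ((1 - b ^ 2) ^ 2 * (1 - b) ^ 3) := by
      field_simp
    have f2 : 2 * ((1 - b ^ 2 * y) / (1 - b ^ 2)) * (H / ((1 - b) ^ 4 * (1 + b))) =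
        ((1 - b ^ 2 * y) * (2 * H)) / ((1 - b ^ 2) ^ 2 * (1 - b) ^ 3) := by
      generalize (1 - b ^ 2 * y) = N
      rw [hc]
      field_simp
    rw [f1, f2]
    apply div_le_div_of_nonneg_right _ (by positivity)
    have c1 : 0 ≤ 1 - b ^ 2 * y := by nlinarith only [b2, hy1]
    calc 51 / 50 * (1 - y) * (1 - b) ^ 3 * ((1 - y) * (1 + b) ^ 2)
        ≤ 51 / 50 * (1 - y) * (1 - b) ^ 3 * ((1 + a) * (1 - b ^ 2 * y)) :=
          mul_le_mul_of_nonneg_left h2 (by positivity)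
      _ = (1 - b ^ 2 * y) * (51 / 50 * (1 + a) * (1 - y) * (1 - b) ^ 3) := by ring
      _ ≤ (1 - b ^ 2 * y) * (2 * H) := mul_le_mul_of_nonneg_left hpoly c1
  refine h4.trans (mul_le_mul_of_nonneg_left h1 ?_)
  have : 0 ≤ 1 - b ^ 2 * y := by nlinarith only [b2, hy1]
  positivity

end

end Pool.Agent.W_bbc525_gd
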