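import Pool.Agent.W_bbc525_td.Alg

/-!
# Lower bounds for `J(r) = λ r⁴ - r ^ L + A r² - c r + g` on `[0, b]`
-/

set_option autoImplicit false

namespace Pool.Agent.W_bbc525_gd

open Set Pool.Agent.W_bbc525_td

/-- Rolle's theorem on `(0, ∞)` -/
theorem Hlo_rolle {f f' : ℝ → ℝ} (h1 : ∀ x, 0 < x → HasDerivAt f (f' x) x) {a b : ℝ} (ha : 0 < a)
    (hab : a < b) (h : f a = f b) : ∃ c, a < c ∧ c < b ∧ f' c = 0 := by
  obtain ⟨c, hc, hc'⟩ := exists_hasDerivAt_eq_zero hab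
    (fun x hx => (h1 x (lt_of_lt_of_le ha hx.1)).continuousAt.continuousWithinAt) h
    (fun x hx => h1 x (ha.trans hx.1))
  exact ⟨c, hc.1, hc.2, hc'⟩

/-- a derivative of constant sign -/
theorem Hlo_mono {f f' : ℝ → ℝ} (h1 : ∀ x, 0 < x → HasDerivAt f (f' x) x) {b : ℝ}
    (h : ∀ x, 0 < x → x ≤ b → 0 ≤ f' x) (h0 : f b = 0) {x : ℝ} (hx : 0 < x) (hxb : x ≤ b) :
    f x ≤ 0 := by
  have h2 := Shape_mono (g := f) (g' := f') (ω := b + 1) (fun y hy => h1 y hy.1) hx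
    (by linarith : b < b + 1) (fun y hy => h y (hx.trans hy.1) hy.2.le) le_rfl hxb le_rfl
  rwa [h0] at h2

theorem Hlo_anti {f f' : ℝ → ℝ} (h1 : ∀ x, 0 < x → HasDerivAt f (f' x) x) {b : ℝ}
    (h : ∀ x, 0 < x → x ≤ b → f' x ≤ 0) (h0 : f b = 0) {x : ℝ} (hx : 0 < x) (hxb : x ≤ b) :
    0 ≤ f x := by
  have h2 := Hlo_mono (f := fun x => - f x) (f' := fun x => - f' x) (fun y hy => (h1 y hy).neg)
    (fun y hy hyb => by have := h y hy hyb; linarith) (by simp [h0]) hx hxb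
  linarith

/-- to the closed interval -/
theorem Hlo_closed {f : ℝ → ℝ} (hf : ContinuousOn f (Ici 0)) {b : ℝ} (hb : 0 < b)
    (h : ∀ x, 0 < x → x ≤ b → 0 ≤ f x) {x : ℝ} (hx : 0 ≤ x) (hxb : x ≤ b) : 0 ≤ f x := by
  rcases hx.eq_or_lt with rfl | hx'
  · have h0 : (0 : ℝ) ∈ closure (Ioo 0 b) := by
      rw [closure_Ioo hb.ne]
      exact ⟨le_rfl, hb.le⟩
    have := ((hf 0 (mem_Ici.2 le_rfl)).mono (fun y (hy : y ∈ Ioo 0 b) => mem_Ici.2 hy.1.le)).mem_closure
      h0 (t := Ici 0) (fun y hy => h y hy.1 hy.2.le)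
    rwa [isClosed_Ici.closure_eq, mem_Ici] at this
  · exact h x hx' hxb

theorem Hlo_convex {s C : ℝ} (hs : s ≤ 0) (hC : 0 ≤ C) (u v : ℝ) :
    ConvexOn ℝ (Ioi (0 : ℝ)) (fun x : ℝ => C * x ^ s + (u * x + v)) := by
  refine convexOn_of_hasDerivWithinAt2_nonneg (convex_Ioi 0)
    (f' := fun x => C * (s * x ^ (s - 1)) + u) (f'' := fun x => C * (s * ((s - 1) * x ^ (s - 1 - 1))))
    ?_ ?_ ?_ ?_
  · intro x hx
    have hx0 : x ≠ 0 := (mem_Ioi.1 hx).ne'
    exact (((Real.continuousAt_rpow_const x s (Or.inl hx0)).const_mul C).add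
      (by fun_prop)).continuousWithinAt
  · intro x hx
    rw [interior_Ioi] at hx
    have hx0 : x ≠ 0 := (mem_Ioi.1 hx).ne'
    have h := (((Real.hasDerivAt_rpow_const (p := s) (Or.inl hx0)).const_mul C).add
      (((hasDerivAt_id x).const_mul u).add_const v))
    exact (h.congr_deriv (by ring)).hasDerivWithinAt
  · intro x hx
    rw [interior_Ioi] at hx
    have hx0 : x ≠ 0 := (mem_Ioi.1 hx).ne'
    have h := ((((Real.hasDerivAt_rpow_const (p := s - 1) (Or.inl hx0)).const_mul s).const_mul C).add_const u)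
    exact (h.congr_deriv (by ring)).hasDerivWithinAt
  · intro x hx
    rw [interior_Ioi] at hx
    have h1 : 0 ≤ x ^ (s - 1 - 1) := Real.rpow_nonneg (mem_Ioi.1 hx).le _
    have h2 : 0 ≤ s * (s - 1) := mul_nonneg_of_nonpos_of_nonpos hs (by linarith)
    have : C * (s * ((s - 1) * x ^ (s - 1 - 1))) = C * (s * (s - 1) * x ^ (s - 1 - 1)) := by ring
    rw [this]
    positivity

/-- `3 ≤ L`: `r ^ (L - 1)` is at most its cubic Hermite interpolant with nodes `b, b, 1, 1`. -/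
theorem hlo3 {L b lm A c g : ℝ} (hL : 3 ≤ L) (hL4 : L ≤ 4) (hb : 0 < b) (hb1 : b < 1)
    (e1 : lm - 1 + A - c + g = 0) (e2 : 4 * lm - L + 2 * A - c = 0)
    (e3 : lm * b ^ 4 - b ^ L + A * b ^ 2 - c * b + g = 0)
    (e4 : 4 * lm * b ^ 4 - L * b ^ L + 2 * A * b ^ 2 - c * b = 0) {r : ℝ} (hr : 0 ≤ r)
    (hrb : r ≤ b) :
    g / b ^ 2 * ((1 - r) ^ 2 * (b - r) ^ 2) ≤ lm * r ^ 4 - r ^ L + A * r ^ 2 - c * r + g := by
  obtain ⟨m, hm⟩ : ∃ m, m = g / b ^ 2 := ⟨_, rfl⟩
  have hmb : m * b ^ 2 = g := by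
    rw [hm]
    field_simp
  rw [← hm]
  -- the cubic minus `r ^ (L - 1)`
  set F : ℝ → ℝ := fun r => (lm - m) * r ^ 3 + 2 * m * (1 + b) * r ^ 2 +
    (A - m * (2 * b + (1 + b) ^ 2)) * r + (2 * m * b * (1 + b) - c) - r ^ (L - 1) with hF
  set F1 : ℝ → ℝ := fun r => 3 * (lm - m) * r ^ 2 + 4 * m * (1 + b) * r +
    (A - m * (2 * b + (1 + b) ^ 2)) - (L - 1) * r ^ (L - 2) with hF1
  set F2 : ℝ → ℝ := fun r => 6 * (lm - m) * r + 4 * m * (1 + b) -
    (L - 1) * ((L - 2) * r ^ (L - 3)) with hF2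
  have hpow : ∀ x : ℝ, 0 < x → x ^ L = x * x ^ (L - 1) := by
    intro x hx
    rw [Real.rpow_sub_one hx.ne']
    field_simp
  have hpow2 : ∀ x : ℝ, 0 < x → x ^ L = x ^ 2 * x ^ (L - 2) := by
    intro x hx
    rw [Real.rpow_sub hx, Real.rpow_two]
    field_simp
  have hfac : ∀ x : ℝ, 0 < x → x * F x = lm * x ^ 4 - x ^ L + A * x ^ 2 - c * x + g -
      m * ((1 - x) ^ 2 * (b - x) ^ 2) := by
    intro x hx
    rw [hpow x hx, hF]
    simp only
    linear_combination hmb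
  have hfac1 : ∀ x : ℝ, 0 < x → x ^ 2 * F1 x + x * F x = 4 * lm * x ^ 4 - L * x ^ L +
      2 * A * x ^ 2 - c * x - m * (x * (2 * (x ^ 2 - (1 + b) * x + b) * (2 * x - (1 + b)))) := by
    intro x hx
    have h1 : x ^ 2 * x ^ (L - 2) = x * x ^ (L - 1) := by rw [← hpow x hx, ← hpow2 x hx]
    rw [hpow x hx, hF, hF1]
    simp only
    linear_combination (1 - L) * h1
  have dF : ∀ x, 0 < x → HasDerivAt F (F1 x) x := by
    intro x hx
    have h := ((((hasDerivAt_pow 3 x).const_mul (lm - m)).add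
      ((hasDerivAt_pow 2 x).const_mul (2 * m * (1 + b)))).add
      ((hasDerivAt_id x).const_mul (A - m * (2 * b + (1 + b) ^ 2)))).add_const
        (2 * m * b * (1 + b) - c) |>.sub (Real.hasDerivAt_rpow_const (p := L - 1) (Or.inl hx.ne'))
    refine h.congr_deriv ?_
    rw [hF1]
    have e : L - 1 - 1 = L - 2 := by ring
    rw [e]
    simp only
    norm_num
    ring
  have dF1 : ∀ x, 0 < x → HasDerivAt F1 (F2 x) x := by
    intro x hx
    have h := (((hasDerivAt_pow 2 x).const_mul (3 * (lm - m))).add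
      ((hasDerivAt_id x).const_mul (4 * m * (1 + b)))).add_const
        (A - m * (2 * b + (1 + b) ^ 2)) |>.sub
        ((Real.hasDerivAt_rpow_const (p := L - 2) (Or.inl hx.ne')).const_mul (L - 1))
    refine h.congr_deriv ?_
    rw [hF2]
    have e : L - 2 - 1 = L - 3 := by ring
    rw [e]
    simp only
    norm_num
    ring
  -- the zeros
  have z1 : F 1 = 0 := by
    have := hfac 1 one_pos
    rw [one_mul, Real.one_rpow] at this
    rw [this]
    linear_combination e1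
  have zb : F b = 0 := by
    have := hfac b hb
    have h2 : b * F b = 0 := by
      rw [this]
      linear_combination e3
    exact (mul_eq_zero.1 h2).resolve_left hb.ne'
  have z1' : F1 1 = 0 := by
    have := hfac1 1 one_pos
    rw [z1, Real.one_rpow] at this
    linear_combination this + e2
  have zb' : F1 b = 0 := by
    have := hfac1 b hb
    rw [zb] at this
    have h2 : b ^ 2 * F1 b = 0 := by
      linear_combination this + e4
    exact (mul_eq_zero.1 h2).resolve_left (by positivity)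
  obtain ⟨ξ, hξ1, hξ2, hξ⟩ := Hlo_rolle dF hb hb1 (zb.trans z1.symm)
  obtain ⟨η, hη1, hη2, hη⟩ := Hlo_rolle dF1 hb hξ1 (zb'.trans hξ.symm)
  obtain ⟨ζ, hζ1, hζ2, hζ⟩ := Hlo_rolle dF1 (hb.trans hξ1) hξ2 (hξ.trans z1'.symm)
  have hconv : ConvexOn ℝ (Ici (0 : ℝ)) F2 := by
    have h1 := Real.concaveOn_rpow (p := L - 3) (by linarith) (by linarith)
    refine ⟨convex_Ici 0, fun x hx y hy a b' ha hb' hab => ?_⟩
    have h2 := h1.2 hx hy ha hb' hab
    rw [hF2]
    simp only [smul_eq_mul] at h2 ⊢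
    have h3 := mul_le_mul_of_nonneg_left h2
      (mul_nonneg (by linarith : 0 ≤ L - 1) (by linarith : 0 ≤ L - 2))
    have e5 : 4 * m * (1 + b) = (a + b') * (4 * m * (1 + b)) := by rw [hab, one_mul]
    have e6 : 6 * (lm - m) * (a * x + b' * y) + 4 * m * (1 + b) -
        (L - 1) * ((L - 2) * (a * x + b' * y) ^ (L - 3)) =
        6 * (lm - m) * (a * x + b' * y) + (a + b') * (4 * m * (1 + b)) -
        (L - 1) * (L - 2) * (a * x + b' * y) ^ (L - 3) := by
      rw [hab]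
      ring
    rw [e6]
    linarith
  have q2 : ∀ x, 0 < x → x ≤ b → 0 ≤ F2 x := fun x hx hxb =>
    Alg_out hconv (mem_Ici.2 hx.le) (mem_Ici.2 (by linarith)) (by linarith) (by linarith) hη hζ
  have q1 : ∀ x, 0 < x → x ≤ b → F1 x ≤ 0 := fun x hx hxb => Hlo_mono dF1 q2 zb' hx hxb
  have q0 : ∀ x, 0 < x → x ≤ b → 0 ≤ F x := fun x hx hxb => Hlo_anti dF q1 zb hx hxb
  have hcl := Hlo_closed (f := fun x => lm * x ^ 4 - x ^ L + A * x ^ 2 - c * x + g -
      m * ((1 - x) ^ 2 * (b - x) ^ 2)) (by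
      have h1 : Continuous fun x : ℝ => x ^ L := Real.continuous_rpow_const (by linarith)
      have : Continuous fun x : ℝ => lm * x ^ 4 - x ^ L + A * x ^ 2 - c * x + g -
        m * ((1 - x) ^ 2 * (b - x) ^ 2) := by fun_prop
      exact this.continuousOn) hb
    (fun x hx hxb => by
      rw [← hfac x hx]
      exact mul_nonneg hx.le (q0 x hx hxb)) hr hrb
  linarith

/-- `L ≤ 3`: `r ^ L` is at most its quartic Hermite interpolant with nodes `b, b, b, 1, 1`, on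
`[0, b]`. -/
theorem hlo2 {L b lm A c g : ℝ} (hL : 2 < L) (hL3 : L ≤ 3) (hb : 0 < b) (hb1 : b < 1)
    (e1 : lm - 1 + A - c + g = 0) (e2 : 4 * lm - L + 2 * A - c = 0)
    (e3 : lm * b ^ 4 - b ^ L + A * b ^ 2 - c * b + g = 0)
    (e4 : 4 * lm * b ^ 4 - L * b ^ L + 2 * A * b ^ 2 - c * b = 0) {r : ℝ} (hr : 0 ≤ r)
    (hrb : r ≤ b) :
    (12 * lm * b ^ 2 - L * (L - 1) * b ^ (L - 2) + 2 * A) / (2 * (1 - b) ^ 2) *
      ((1 - r) ^ 2 * (b - r) ^ 2) ≤ lm * r ^ 4 - r ^ L + A * r ^ 2 - c * r + g := by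
  obtain ⟨m, hm⟩ : ∃ m, m = (12 * lm * b ^ 2 - L * (L - 1) * b ^ (L - 2) + 2 * A) /
    (2 * (1 - b) ^ 2) := ⟨_, rfl⟩
  have hb1' : 1 - b ≠ 0 := by linarith
  have hmb : m * (2 * (1 - b) ^ 2) = 12 * lm * b ^ 2 - L * (L - 1) * b ^ (L - 2) + 2 * A := by
    rw [hm]
    field_simp
  rw [← hm]
  set T0 : ℝ → ℝ := fun r => lm * r ^ 4 - r ^ L + A * r ^ 2 - c * r + g -
    m * (r ^ 2 - (1 + b) * r + b) ^ 2 with hT0
  set T1 : ℝ → ℝ := fun r => 4 * lm * r ^ 3 - L * r ^ (L - 1) + 2 * A * r - c -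
    m * (2 * (r ^ 2 - (1 + b) * r + b) * (2 * r - (1 + b))) with hT1
  set T2 : ℝ → ℝ := fun r => 12 * lm * r ^ 2 - L * ((L - 1) * r ^ (L - 2)) + 2 * A -
    m * (2 * ((2 * r - (1 + b)) ^ 2 + 2 * (r ^ 2 - (1 + b) * r + b))) with hT2
  set T3 : ℝ → ℝ := fun r => 24 * lm * r - L * ((L - 1) * ((L - 2) * r ^ (L - 3))) -
    m * (12 * (2 * r - (1 + b))) with hT3
  have dq : ∀ x : ℝ, HasDerivAt (fun r : ℝ => r ^ 2 - (1 + b) * r + b) (2 * x - (1 + b)) x := by
    intro x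
    have h := ((hasDerivAt_pow 2 x).sub ((hasDerivAt_id x).const_mul (1 + b))).add_const b
    refine h.congr_deriv ?_
    norm_num
  have dl : ∀ x : ℝ, HasDerivAt (fun r : ℝ => 2 * r - (1 + b)) 2 x := by
    intro x
    have h := ((hasDerivAt_id x).const_mul (2 : ℝ)).sub_const (1 + b)
    refine h.congr_deriv ?_
    norm_num
  have d0 : ∀ x, 0 < x → HasDerivAt T0 (T1 x) x := by
    intro x hx
    have h := ((((((hasDerivAt_pow 4 x).const_mul lm).sub
      (Real.hasDerivAt_rpow_const (p := L) (Or.inl hx.ne'))).add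
      ((hasDerivAt_pow 2 x).const_mul A)).sub ((hasDerivAt_id x).const_mul c)).add_const g).sub
      (((dq x).pow 2).const_mul m)
    refine h.congr_deriv ?_
    rw [hT1]
    simp only
    norm_num
    ring
  have d1 : ∀ x, 0 < x → HasDerivAt T1 (T2 x) x := by
    intro x hx
    have h := (((((hasDerivAt_pow 3 x).const_mul (4 * lm)).sub
      ((Real.hasDerivAt_rpow_const (p := L - 1) (Or.inl hx.ne')).const_mul L)).add
      ((hasDerivAt_id x).const_mul (2 * A))).sub_const c).sub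
      ((((dq x).const_mul 2).mul (dl x)).const_mul m)
    refine h.congr_deriv ?_
    rw [hT2]
    have e : L - 1 - 1 = L - 2 := by ring
    rw [e]
    simp only
    norm_num
    ring
  have d2 : ∀ x, 0 < x → HasDerivAt T2 (T3 x) x := by
    intro x hx
    have h := ((((hasDerivAt_pow 2 x).const_mul (12 * lm)).sub
      (((Real.hasDerivAt_rpow_const (p := L - 2) (Or.inl hx.ne')).const_mul (L - 1)).const_mul
        L)).add_const (2 * A)).sub
      ((((((dl x).pow 2)).add ((dq x).const_mul 2)).const_mul 2).const_mul m)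
    refine h.congr_deriv ?_
    rw [hT3]
    have e : L - 2 - 1 = L - 3 := by ring
    rw [e]
    simp only
    norm_num
    ring
  have hpow1 : ∀ x : ℝ, 0 < x → x ^ L = x * x ^ (L - 1) := by
    intro x hx
    rw [Real.rpow_sub_one hx.ne']
    field_simp
  have z1 : T0 1 = 0 := by
    rw [hT0]
    simp only [Real.one_rpow]
    linear_combination e1
  have zb : T0 b = 0 := by
    rw [hT0]
    simp only
    linear_combination e3
  have z1' : T1 1 = 0 := by
    rw [hT1]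
    simp only [Real.one_rpow]
    linear_combination e2
  have zb' : T1 b = 0 := by
    have h2 : b * T1 b = 0 := by
      rw [hT1]
      simp only
      rw [hpow1 b hb] at e4
      linear_combination e4
    exact (mul_eq_zero.1 h2).resolve_left hb.ne'
  have zb'' : T2 b = 0 := by
    rw [hT2]
    simp only
    linear_combination - hmb
  obtain ⟨ξ, hξ1, hξ2, hξ⟩ := Hlo_rolle d0 hb hb1 (zb.trans z1.symm)
  obtain ⟨u, hu1, hu2, hu⟩ := Hlo_rolle d1 hb hξ1 (zb'.trans hξ.symm)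
  obtain ⟨v, hv1, hv2, hv⟩ := Hlo_rolle d1 (hb.trans hξ1) hξ2 (hξ.trans z1'.symm)
  obtain ⟨η, hη1, hη2, hη⟩ := Hlo_rolle d2 hb hu1 (zb''.trans hu.symm)
  obtain ⟨ζ, hζ1, hζ2, hζ⟩ := Hlo_rolle d2 (hb.trans hu1) (hu2.trans hv1) (hu.trans hv.symm)
  have hconv : ConvexOn ℝ (Ioi (0 : ℝ)) (fun x => - T3 x) := by
    have h1 := Hlo_convex (s := L - 3) (C := L * ((L - 1) * (L - 2))) (by linarith) (by
      have : 0 < L := by linarith
      have : 0 < L - 1 := by linarith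
      have : 0 < L - 2 := by linarith
      positivity) (24 * m - 24 * lm) (- (12 * m * (1 + b)))
    have e : (fun x => - T3 x) = fun x : ℝ => L * ((L - 1) * (L - 2)) * x ^ (L - 3) +
        ((24 * m - 24 * lm) * x + (- (12 * m * (1 + b)))) := by
      funext x
      rw [hT3]
      simp only
      ring
    rw [e]
    exact h1
  have q3 : ∀ x, 0 < x → x ≤ b → T3 x ≤ 0 := by
    intro x hx hxb
    have := Alg_out hconv (x := x) (y := η) (z := ζ) (mem_Ioi.2 hx) (mem_Ioi.2 (by linarith))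
      (by linarith) (by linarith) (by rw [hη, neg_zero]) (by rw [hζ, neg_zero])
    linarith
  have q2 : ∀ x, 0 < x → x ≤ b → 0 ≤ T2 x := fun x hx hxb => Hlo_anti d2 q3 zb'' hx hxb
  have q1 : ∀ x, 0 < x → x ≤ b → T1 x ≤ 0 := fun x hx hxb => Hlo_mono d1 q2 zb' hx hxb
  have q0 : ∀ x, 0 < x → x ≤ b → 0 ≤ T0 x := fun x hx hxb => Hlo_anti d0 q1 zb hx hxb
  have hcl := Hlo_closed (f := T0) (by
      have h1 : Continuous fun x : ℝ => x ^ L := Real.continuous_rpow_const (by linarith)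
      have : Continuous T0 := by
        rw [hT0]
        fun_prop
      exact this.continuousOn) hb q0 hr hrb
  rw [hT0] at hcl
  simp only at hcl
  have e5 : (1 - r) ^ 2 * (b - r) ^ 2 = (r ^ 2 - (1 + b) * r + b) ^ 2 := by ring
  rw [e5]
  linarith

end Pool.Agent.W_bbc525_gd
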