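import Pool.Agent.W_bbc525_gd.Cert
import Pool.Agent.W_bbc525_gd.Edge
import Pool.Agent.W_bbc525_td.Main

/-!
# General degrees: the excess of a feasible graphon with small `k`-th moment
-/

set_option autoImplicit false
set_option linter.unusedSectionVars false

namespace Pool.Agent.W_bbc525_gd

open Finset MeasureTheory Pool.Agent.W_MP_bbc525_pr Pool.Agent.W_bbc525_h89 Pool.Agent.W_bbc525_td

section abstract

variable {ι : Type*} {s : Finset ι} {w : ι → ℝ} {d : ι → ℕ}

/-- the integrated certificate -/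
theorem integrated {k : ℕ} (hw1 : ∑ i ∈ s, w i = 1) {q T : ℝ} {K κ t : ι → ℝ}
    (hd0 : ∀ i ∈ s, 0 < d i) (hq : 0 < q) (hq1 : q < 1)
    (hc : ∀ X : ℝ, 0 ≤ X → X ≤ 1 / q → T * ∑ i ∈ s, w i * ps (d i) X +
        T * ∑ i ∈ s, w i / d i * (K i * (2 * t i * (X ^ d i - 1 - κ i * (X ^ k - 1)) -
          t i ^ 2 * (1 + X ^ k))) ≤ dd q X) (W : Graphon) :
    T * ∑ i ∈ s, w i / d i * ((W.mom (d i) / q ^ d i - 1) +
      K i * (2 * t i * ((W.mom (d i) / q ^ d i - 1) + κ i * (1 - W.mom k / q ^ k)) -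
        t i ^ 2 * (1 + W.mom k / q ^ k))) - T * (W.mean / q - 1) ≤ cost q W := by
  have hint : ∀ i ∈ s, Integrable (fun z : unitInterval × unitInterval =>
      (T * (w i * (-1 / d i + 1)) + T * (w i / d i) * (K i * (2 * t i * (-1 + κ i) - t i ^ 2))) +
        (-(T * w i / q)) * W.W z.1 z.2 +
        (T * (w i / d i) * (K i * (- (2 * t i * κ i) - t i ^ 2)) / q ^ k) * W.W z.1 z.2 ^ k +
        ((T * (w i / d i) + T * (w i / d i) * (K i * (2 * t i))) / q ^ d i) *
          W.W z.1 z.2 ^ d i) := fun i _ => integrable_poly W k (d i) _ _ _ _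
  have h1 : ∫ z : unitInterval × unitInterval, ∑ i ∈ s,
      ((T * (w i * (-1 / d i + 1)) + T * (w i / d i) * (K i * (2 * t i * (-1 + κ i) - t i ^ 2))) +
        (-(T * w i / q)) * W.W z.1 z.2 +
        (T * (w i / d i) * (K i * (- (2 * t i * κ i) - t i ^ 2)) / q ^ k) * W.W z.1 z.2 ^ k +
        ((T * (w i / d i) + T * (w i / d i) * (K i * (2 * t i))) / q ^ d i) *
          W.W z.1 z.2 ^ d i) ≤ cost q W := by
    unfold cost
    apply integral_mono (integrable_finsetSum _ hint) (integrable_relEnt hq hq1 W)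
    intro y
    simp only
    set v := W.W y.1 y.2 with hv
    have h2 := hc (v / q) (div_nonneg (W.nonneg _ _) hq.le)
      (div_le_div_of_nonneg_right (W.le_one _ _) hq.le)
    have e1 : dd q (v / q) = relEnt q v := by
      unfold dd
      rw [mul_div_cancel₀ _ hq.ne']
    rw [e1] at h2
    refine le_trans (le_of_eq ?_) h2
    rw [Finset.mul_sum, Finset.mul_sum, ← Finset.sum_add_distrib]
    refine Finset.sum_congr rfl fun i hi => ?_
    have hdi : (d i : ℝ) ≠ 0 := by exact_mod_cast (hd0 i hi).ne'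
    unfold ps
    rw [div_pow, div_pow]
    field_simp
    ring
  rw [integral_finsetSum _ hint] at h1
  refine le_trans (le_of_eq ?_) h1
  have e0 : T * (W.mean / q - 1) = ∑ i ∈ s, w i * (T * (W.mean / q - 1)) := by
    rw [← Finset.sum_mul, hw1, one_mul]
  rw [e0, Finset.mul_sum, ← Finset.sum_sub_distrib]
  refine Finset.sum_congr rfl fun i hi => ?_
  have hdi : (d i : ℝ) ≠ 0 := by exact_mod_cast (hd0 i hi).ne'
  rw [integral_poly]
  field_simp
  ring

/-- the inequality of Cauchy and the inequality of the means -/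
theorem gain {K κ ρ x Y : ℝ} (hK : 0 < K) (hκ : 0 < κ) (hρ0 : 0 ≤ ρ) (hρ : ρ ≤ 4 * κ * K)
    (hx : 0 < x) (hx1 : x < 1) : ∃ t, 0 ≤ t ∧ max 0 (ρ * ((1 - x) / (1 + x)) * Y) ≤
      K * (2 * t * (Y + κ * (1 - x)) - t ^ 2 * (1 + x)) := by
  rcases lt_or_ge Y 0 with h | h
  · refine ⟨0, le_rfl, ?_⟩
    have h1 : ρ * ((1 - x) / (1 + x)) * Y ≤ 0 :=
      mul_nonpos_of_nonneg_of_nonpos
        (mul_nonneg hρ0 (div_nonneg (by linarith) (by linarith))) h.le
    rw [max_eq_left h1]
    simp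
  · have hx' : 0 < 1 + x := by linarith
    refine ⟨(Y + κ * (1 - x)) / (1 + x), ?_, ?_⟩
    · have : 0 ≤ κ * (1 - x) := mul_nonneg hκ.le (by linarith)
      exact div_nonneg (by linarith) hx'.le
    · have h1 : 0 ≤ ρ * ((1 - x) / (1 + x)) * Y :=
        mul_nonneg (mul_nonneg hρ0 (div_nonneg (by linarith) (by linarith))) h
      rw [max_eq_right h1]
      have e1 : K * (2 * ((Y + κ * (1 - x)) / (1 + x)) * (Y + κ * (1 - x)) -
          ((Y + κ * (1 - x)) / (1 + x)) ^ 2 * (1 + x)) =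
          K * (Y + κ * (1 - x)) ^ 2 / (1 + x) := by
        field_simp
        ring
      have e2 : ρ * ((1 - x) / (1 + x)) * Y = ρ * ((1 - x) * Y) / (1 + x) := by
        field_simp
      rw [e1, e2]
      apply div_le_div_of_nonneg_right _ hx'.le
      have h2 : ρ * ((1 - x) * Y) ≤ 4 * κ * K * ((1 - x) * Y) :=
        mul_le_mul_of_nonneg_right hρ (mul_nonneg (by linarith) h)
      nlinarith [mul_nonneg hK.le (sq_nonneg (Y - κ * (1 - x)))]

end abstract

variable {V : Type*} [Fintype V] [DecidableEq V] {H : SimpleGraph V} [DecidableRel H.Adj]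

/-- the vertices of positive degree -/
def PV (H : SimpleGraph V) [DecidableRel H.Adj] : Finset V := univ.filter fun v => 0 < H.degree v

theorem mem_PV {v : V} : v ∈ PV H ↔ 0 < H.degree v := by simp [PV]

/-- the weights -/
noncomputable def wt (H : SimpleGraph V) [DecidableRel H.Adj] (v : V) : ℝ :=
  (H.degree v : ℝ) / (2 * H.edgeFinset.card)

theorem sum_PV {f : V → ℝ} (hf : ∀ v, H.degree v = 0 → f v = 0) :
    ∑ v ∈ PV H, f v = ∑ v, f v := by
  unfold PV
  rw [Finset.sum_filter]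
  refine Finset.sum_congr rfl fun v _ => ?_
  split_ifs with h
  · rfl
  · exact (hf v (by omega)).symm

theorem sum_wt (hE : 0 < H.edgeFinset.card) : ∑ v ∈ PV H, wt H v = 1 := by
  have hE' : (0:ℝ) < H.edgeFinset.card := by exact_mod_cast hE
  rw [sum_PV (f := wt H) (fun v hv => by simp [wt, hv])]
  unfold wt
  rw [← Finset.sum_div, div_eq_one_iff_eq (by positivity)]
  have := H.sum_degrees_eq_twice_card_edges
  exact_mod_cast this

theorem wt_pos (hE : 0 < H.edgeFinset.card) {v : V} (hv : v ∈ PV H) : 0 < wt H v := by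
  have hE' : (0:ℝ) < H.edgeFinset.card := by exact_mod_cast hE
  have : (0 : ℝ) < H.degree v := by exact_mod_cast mem_PV.1 hv
  unfold wt
  positivity

theorem wt_div (hE : 0 < H.edgeFinset.card) {v : V} (hv : v ∈ PV H) :
    wt H v / H.degree v = 1 / (2 * H.edgeFinset.card) := by
  have hE' : (0:ℝ) < H.edgeFinset.card := by exact_mod_cast hE
  have : (0 : ℝ) < H.degree v := by exact_mod_cast mem_PV.1 hv
  unfold wt
  field_simp

/-- the vertex condition in normalized form -/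
theorem Ncond.norm (hE : 0 < H.edgeFinset.card) {p q : ℝ} (hp : 0 < p) (hpq : p ≤ q)
    (hq1 : q < 1) (hN : Ncond H p q) :
    ∀ X, 0 ≤ X → X ≤ 1 / q →
      q * (logit q - logit p) * ∑ v ∈ PV H, wt H v * ps (H.degree v) X ≤ dd q X := by
  intro X hX hX'
  have hq : 0 < q := lt_of_lt_of_le hp hpq
  have hp1 : p < 1 := lt_of_le_of_lt hpq hq1
  have hE' : (0:ℝ) < H.edgeFinset.card := by exact_mod_cast hE
  have h1 : q * X ≤ 1 := by
    rw [le_div_iff₀ hq] at hX'
    linarith
  have h2 := hN (q * X) (by positivity) h1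
  rw [relEnt_shift hp hp1 hq hq1 (by positivity) h1, mul_div_cancel_left₀ _ hq.ne'] at h2
  have e1 : ∑ v ∈ PV H, wt H v * ps (H.degree v) X =
      1 / (2 * H.edgeFinset.card) * ∑ v, (X ^ H.degree v - 1) - (X - 1) := by
    have e2 : ∀ v ∈ PV H, wt H v * ps (H.degree v) X =
        1 / (2 * H.edgeFinset.card) * (X ^ H.degree v - 1) - wt H v * (X - 1) := by
      intro v hv
      unfold ps
      rw [← wt_div hE hv]
      have : (0 : ℝ) < H.degree v := by exact_mod_cast mem_PV.1 hv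
      field_simp
    rw [Finset.sum_congr rfl e2, Finset.sum_sub_distrib, ← Finset.sum_mul, sum_wt hE, one_mul,
      ← Finset.mul_sum, sum_PV (f := fun v => X ^ H.degree v - 1) (fun v hv => by simp [hv])]
  rw [e1]
  unfold dd
  have e3 : q * (logit q - logit p) * (1 / (2 * (H.edgeFinset.card : ℝ)) *
      ∑ v, (X ^ H.degree v - 1) - (X - 1)) =
      q * (logit q - logit p) / (2 * (H.edgeFinset.card : ℝ)) * ∑ v, (X ^ H.degree v - 1) -
        (logit q - logit p) * (q * X - q) := by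
    field_simp
  rw [e3]
  linarith

/-- what feasibility gives -/
theorem feas (hE : 0 < H.edgeFinset.card) (hT : Two H) {q : ℝ} (hq : 0 < q) (W : Graphon)
    (hW : q ^ H.edgeFinset.card ≤ homDensity H W) :
    (∀ k, 0 < W.mom k / q ^ k) ∧
    (∀ b a : ℕ, 0 < b → b ≤ a → (W.mom b / q ^ b) ^ ((a : ℝ) / b) ≤ W.mom a / q ^ a) ∧
    0 ≤ lpsi H.edgeFinset (mdeg H) (ndeg H) (fun k => W.mom k / q ^ k) := by
  have h1 : q ^ H.edgeFinset.card ≤ Psi H W.mom := hW.trans (homDensity_le_Psi H hT W)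
  have h2 : 0 < Psi H W.mom := lt_of_lt_of_le (pow_pos hq _) h1
  have hpos : ∀ k, 0 < W.mom k / q ^ k := fun k => div_pos (mom_pos W hE h2 k) (pow_pos hq k)
  refine ⟨hpos, ?_, ?_⟩
  · intro b a hb hba
    have hb' : (0 : ℝ) < b := by exact_mod_cast hb
    have h3 : (W.mom b / q ^ b) ^ ((a : ℝ) / b) = W.mom b ^ ((a : ℝ) / b) / q ^ a := by
      rw [Real.div_rpow (W.mom_nonneg _) (by positivity), ← Real.rpow_natCast q b,
        ← Real.rpow_mul hq.le, mul_div_cancel₀ _ hb'.ne', Real.rpow_natCast]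
    rw [h3]
    exact div_le_div_of_nonneg_right (mom_jensen W hb hba) (by positivity)
  · rw [← log_Psi H (M := fun k => W.mom k / q ^ k) hpos, Psi_scale W.mom_nonneg hq]
    apply Real.log_nonneg
    rw [le_div_iff₀ (by positivity), one_mul]
    exact h1

/-- all positive degrees lie in `[k, 2 k]` -/
def DK (H : SimpleGraph V) [DecidableRel H.Adj] (k : ℕ) : Prop :=
  ∀ v, H.degree v = 0 ∨ (k ≤ H.degree v ∧ H.degree v ≤ 2 * k)

theorem DK.two {k : ℕ} (h : DK H k) : Two H := by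
  intro i j hij
  have h1 : 0 < H.degree j := (H.degree_pos_iff_exists_adj j).2 ⟨i, hij.symm⟩
  rcases h i with h2 | h2 <;> rcases h j with h3 | h3 <;> omega

theorem DK.edge {k : ℕ} (h : DK H k) {e : Sym2 V} (he : e ∈ H.edgeFinset) :
    k ≤ ndeg H e ∧ mdeg H e ≤ 2 * k := by
  have h1 := ndeg_pos H he
  have h2 := mdeg_pos H he
  obtain ⟨u, hu⟩ := exists_ndeg (H := H) e
  obtain ⟨v, hv⟩ := exists_mdeg (H := H) e
  rcases h u with h3 | h3 <;> rcases h v with h4 | h4 <;> omega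

/-- **Excess.** -/
theorem excess {k : ℕ} (hk : 2 ≤ k) (h : DK H k) (hkv : ∃ v, H.degree v = k)
    (hbig : ∃ v, k < H.degree v) (hE : 0 < H.edgeFinset.card)
    {p q : ℝ} (hp : 0 < p) (hpq : p ≤ q) (hq1 : q < 1)
    (hN : Ncond H p q) (W : Graphon) (hW : q ^ H.edgeFinset.card ≤ homDensity H W)
    (hx1 : W.mom k / q ^ k < 1) : relEnt p q < cost p W := by
  have hq : 0 < q := lt_of_lt_of_le hp hpq
  have hp1 : p < 1 := lt_of_le_of_lt hpq hq1
  have hk0 : 0 < k := by omega
  have hE' : (0:ℝ) < H.edgeFinset.card := by exact_mod_cast hE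
  obtain ⟨hpos, hjen, hI⟩ := feas hE h.two hq W hW
  obtain ⟨m, hm⟩ : ∃ m : ℕ → ℝ, ∀ j, m j = W.mom j / q ^ j := ⟨_, fun _ => rfl⟩
  have hm' : (fun j => W.mom j / q ^ j) = m := funext fun j => (hm j).symm
  rw [hm'] at hI
  obtain ⟨x, hx⟩ : ∃ x, x = W.mom k / q ^ k := ⟨_, rfl⟩
  have hx0 : 0 < x := hx ▸ hpos k
  rw [← hx] at hx1
  -- the mean
  have hmean : W.mean < q := by
    have h1 := mom_jensen W (b := 1) (a := k) one_pos (by omega)
    rw [Graphon.mom_one, Nat.cast_one, div_one, Real.rpow_natCast] at h1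
    have h2 : W.mom k < q ^ k := by
      rw [hx, div_lt_one (by positivity)] at hx1
      exact hx1
    by_contra hcon
    push Not at hcon
    have := pow_le_pow_left₀ hq.le hcon k
    linarith
  -- the certificate
  have hT₀ : 0 ≤ q * (logit q - logit p) := mul_nonneg hq.le (logit_mono hp hpq hq1)
  have hdP : ∀ v ∈ PV H, k ≤ H.degree v := fun v hv => by
    have := mem_PV.1 hv
    rcases h v with h1 | h1 <;> omega
  have hdP2 : ∀ v ∈ PV H, H.degree v ≤ 2 * k := fun v hv => by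
    have := mem_PV.1 hv
    rcases h v with h1 | h1 <;> omega
  obtain ⟨T, ρ, K, κ, hTT, hT, hρ, hK, hcert⟩ := cert (d := fun v => H.degree v) hk hdP hdP2
    (fun v hv => wt_pos hE hv) (sum_wt hE)
    (by
      obtain ⟨v, hv⟩ := hbig
      exact ⟨v, mem_PV.2 (by omega), hv⟩) hq hq1 hT₀ (Ncond.norm hE hp hpq hq1 hN)
  have ht : ∀ v, ∃ t : ℝ, v ∈ PV H → (0 ≤ t ∧
      max 0 (ρ * ((1 - x) / (1 + x)) * (m (H.degree v) - 1)) ≤
      K v * (2 * t * ((m (H.degree v) - 1) + κ v * (1 - x)) - t ^ 2 * (1 + x))) := by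
    intro v
    by_cases hv : v ∈ PV H
    · obtain ⟨h1, h2, h3⟩ := hK v hv
      obtain ⟨t, ht⟩ := gain (Y := m (H.degree v) - 1) h1 h2 (by linarith) h3 hx0 hx1
      exact ⟨t, fun _ => ht⟩
    · exact ⟨0, fun h1 => absurd h1 hv⟩
  choose t ht using ht
  have h1 := integrated (d := fun v => H.degree v) (k := k) (sum_wt hE)
    (fun v hv => mem_PV.1 hv) hq hq1
    (fun X hX hX' => hcert X t hX hX' fun v hv => (ht v hv).1) W
  -- the total
  obtain ⟨ν, hν⟩ : ∃ ν, ν = ρ * ((1 - x) / (1 + x)) := ⟨_, rfl⟩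
  have hν0 : 0 < ν := by
    have h5 : 0 < (1 - x) / (1 + x) := div_pos (by linarith) (by linarith)
    have : 0 < ρ := by linarith
    rw [hν]
    positivity
  obtain ⟨Y, hY⟩ : ∃ Y : ℕ → ℝ, ∀ j, Y j = 1 + ((m j - 1) + max 0 (ν * (m j - 1))) :=
    ⟨_, fun _ => rfl⟩
  have hm0 : m 0 = 1 := by
    rw [hm]
    simp [Graphon.mom]
  have hY0 : Y 0 = 1 := by
    rw [hY, hm0]
    simp
  have h2 : T * (1 / (2 * H.edgeFinset.card) * ∑ v, (Y (H.degree v) - 1)) -
      T * (W.mean / q - 1) ≤ cost q W := by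
    refine le_trans (sub_le_sub_right (mul_le_mul_of_nonneg_left ?_ hT.le) _) h1
    rw [← sum_PV (f := fun v => Y (H.degree v) - 1) (fun v hv => by rw [hv, hY0, sub_self]),
      Finset.mul_sum]
    refine Finset.sum_le_sum fun v hv => ?_
    rw [wt_div hE hv]
    apply mul_le_mul_of_nonneg_left _ (by positivity)
    have h3 := (ht v hv).2
    rw [← hν] at h3
    rw [hY, ← hm, ← hx]
    linarith
  -- edge by edge
  have h3 : 0 < ∑ v, (Y (H.degree v) - 1) := by
    rw [← sum_psi (H := H) hY0]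
    have hedge : ∀ e ∈ H.edgeFinset, 2 * (1 + ν) * (1 / (mdeg H e : ℝ) *
        Real.log ((m (mdeg H e) + m (ndeg H e) ^ ((mdeg H e : ℝ) / ndeg H e)) / 2)) ≤
          psi Y (mdeg H e) + psi Y (ndeg H e) ∧
        (ndeg H e = k → 2 * (1 + ν) * (1 / (mdeg H e : ℝ) *
        Real.log ((m (mdeg H e) + m (ndeg H e) ^ ((mdeg H e : ℝ) / ndeg H e)) / 2)) <
          psi Y (mdeg H e) + psi Y (ndeg H e)) := by
      intro e he
      have ha := mdeg_pos H he
      have hb := ndeg_pos H he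
      have ha' : (0 : ℝ) < mdeg H e := by exact_mod_cast ha
      have hb' : (0 : ℝ) < ndeg H e := by exact_mod_cast hb
      obtain ⟨g1, g2⟩ := h.edge he
      have g3 := ndeg_le_mdeg H e
      have g4 := edge_le (mb := m (ndeg H e)) (ma := m (mdeg H e)) hk0 g1 g3 g2 hx0 hx1 hρ
        (hm (ndeg H e) ▸ hpos (ndeg H e))
        (by rw [hm, hm]; exact hjen _ _ hb g3)
        (by rw [hm, hx]; exact hjen _ _ hk0 g1)
      rw [← hν] at g4
      have e1 : 2 * (1 + ν) * (1 / (mdeg H e : ℝ) *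
        Real.log ((m (mdeg H e) + m (ndeg H e) ^ ((mdeg H e : ℝ) / ndeg H e)) / 2)) =
          1 / (mdeg H e : ℝ) * (2 * ((1 + ν) *
        Real.log ((m (mdeg H e) + m (ndeg H e) ^ ((mdeg H e : ℝ) / ndeg H e)) / 2))) := by
        ring
      have e2 : psi Y (mdeg H e) + psi Y (ndeg H e) = 1 / (mdeg H e : ℝ) *
          ((m (mdeg H e) - 1 + max 0 (ν * (m (mdeg H e) - 1))) +
            (mdeg H e : ℝ) / ndeg H e * (m (ndeg H e) - 1 + max 0 (ν * (m (ndeg H e) - 1)))) := by
        unfold psi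
        rw [hY, hY]
        field_simp
        ring
      rw [e1, e2]
      refine ⟨mul_le_mul_of_nonneg_left g4.1 (by positivity), fun hk1 => ?_⟩
      refine mul_lt_mul_of_pos_left (g4.2 ?_) (by positivity)
      rw [hk1, hm, ← hx]
      exact hx1
    obtain ⟨u, hu⟩ := hkv
    obtain ⟨e, he, hue⟩ := exists_edge (H := H) (v := u) (by omega)
    have hek : ndeg H e = k := by
      have g1 := ndeg_le_degree (H := H) hue
      have g2 := (h.edge he).1
      omega
    have h4 : ∑ e ∈ H.edgeFinset, 2 * (1 + ν) * (1 / (mdeg H e : ℝ) *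
        Real.log ((m (mdeg H e) + m (ndeg H e) ^ ((mdeg H e : ℝ) / ndeg H e)) / 2)) <
        ∑ e ∈ H.edgeFinset, (psi Y (mdeg H e) + psi Y (ndeg H e)) :=
      Finset.sum_lt_sum (fun e he => (hedge e he).1) ⟨e, he, (hedge e he).2 hek⟩
    refine lt_of_le_of_lt ?_ h4
    rw [← Finset.mul_sum]
    exact mul_nonneg (by linarith) hI
  -- the conclusion
  have hshift := cost_shift hp hp1 hq hq1 W
  have h5 : T * (W.mean / q - 1) ≤ (logit q - logit p) * (W.mean - q) := by
    have e1 : (logit q - logit p) * (W.mean - q) =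
        (q * (logit q - logit p)) * (W.mean / q - 1) := by
      field_simp
    rw [e1]
    have : W.mean / q - 1 ≤ 0 := by
      rw [sub_nonpos, div_le_one hq]
      exact hmean.le
    exact mul_le_mul_of_nonpos_right hTT this
  have h6 : 0 < T * (1 / (2 * H.edgeFinset.card) * ∑ v, (Y (H.degree v) - 1)) := by
    positivity
  linarith

end Pool.Agent.W_bbc525_gd
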