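import Pool.Agent.W_bbc525_td.Diam

/-!
# Rational upper bounds for `b ^ q`, `0 < b ≤ 1`, `0 ≤ q ≤ 1`
-/

set_option autoImplicit false

namespace Pool.Agent.W_bbc525_gd

open Set Pool.Agent.W_bbc525_td

theorem pade_aux {b q A B : ℝ} (hb : 0 < b) (hA : 0 < A) (hB : 0 < B)
    (h : 0 ≤ Real.log A - Real.log B - q * Real.log b) : b ^ q * B ≤ A := by
  have hp : 0 < b ^ q * B := mul_pos (Real.rpow_pos_of_pos hb q) hB
  rw [← Real.log_le_log_iff hp hA, Real.log_mul (Real.rpow_pos_of_pos hb q).ne' hB.ne',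
    Real.log_rpow hb]
  linarith

/-- `b ^ q ≤ (1 - q u) / (1 + q u)`, `u = (1 - b) / (1 + b)` -/
theorem pade1 {b q : ℝ} (hb : 0 < b) (hb1 : b ≤ 1) (hq : 0 ≤ q) (hq1 : q ≤ 1) :
    b ^ q * ((1 + b) + q * (1 - b)) ≤ (1 + b) - q * (1 - b) := by
  have hp : ∀ z : ℝ, 0 < z → z ≤ 1 → 0 < (1 + z) - q * (1 - z) := by
    intro z hz hz1
    nlinarith [mul_nonneg (sub_nonneg.2 hq1) (sub_nonneg.2 hz1)]
  have hm : ∀ z : ℝ, 0 < z → z ≤ 1 → 0 < (1 + z) + q * (1 - z) := by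
    intro z hz hz1
    nlinarith [mul_nonneg hq (sub_nonneg.2 hz1)]
  apply pade_aux hb (hp b hb hb1) (hm b hb hb1)
  refine Diam_anti (h := fun z => Real.log ((1 + z) - q * (1 - z)) -
      Real.log ((1 + z) + q * (1 - z)) - q * Real.log z)
    (h' := fun z => - (q * (1 - q ^ 2) * (1 - z) ^ 2) /
      (z * (((1 + z) - q * (1 - z)) * ((1 + z) + q * (1 - z))))) ?_ ?_ (by simp) hb hb1
  · intro z hz hz1
    have d0 : HasDerivAt (fun z : ℝ => 1 - z) (-1) z := by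
      simpa using (hasDerivAt_id z).const_sub 1
    have d3 : HasDerivAt (fun z : ℝ => 1 + z) 1 z := by
      simpa using (hasDerivAt_id z).const_add 1
    have d1 := (d3.sub (d0.const_mul q)).log (hp z hz hz1).ne'
    have d2 := (d3.add (d0.const_mul q)).log (hm z hz hz1).ne'
    refine ((d1.sub d2).sub ((Real.hasDerivAt_log hz.ne').const_mul q)).congr_deriv ?_
    have e1 := (hp z hz hz1).ne'
    have e2 := (hm z hz hz1).ne'
    simp only [Pi.sub_apply, Pi.add_apply]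
    field_simp
    ring
  · intro z hz hz1
    have : 0 ≤ 1 - q ^ 2 := by nlinarith
    have h1 := hp z hz hz1
    have h2 := hm z hz hz1
    rw [neg_div]
    have : 0 ≤ q * (1 - q ^ 2) * (1 - z) ^ 2 / (z * (((1 + z) - q * (1 - z)) *
      ((1 + z) + q * (1 - z)))) := by positivity
    linarith

/-- numerator of the `[3/3]` approximant, even part -/
def nn (q z : ℝ) : ℝ := (1 + z) * (15 * (1 + z) ^ 2 - 9 * (1 - z) ^ 2 + 6 * q ^ 2 * (1 - z) ^ 2)

/-- numerator of the `[3/3]` approximant, odd part -/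
def mm (q z : ℝ) : ℝ :=
  q * (1 - z) * (15 * (1 + z) ^ 2 - 4 * (1 - z) ^ 2 + q ^ 2 * (1 - z) ^ 2)

theorem mm_nonneg {q z : ℝ} (hz : 0 < z) (hz1 : z ≤ 1) (hq : 0 ≤ q) : 0 ≤ mm q z := by
  unfold mm
  have h1 : 0 ≤ 1 - z := by linarith
  have h2 : 0 ≤ 15 * (1 + z) ^ 2 - 4 * (1 - z) ^ 2 := by nlinarith
  have h3 : 0 ≤ 15 * (1 + z) ^ 2 - 4 * (1 - z) ^ 2 + q ^ 2 * (1 - z) ^ 2 := by positivity
  positivity

theorem nn_sub_mm_pos {q z : ℝ} (hz : 0 < z) (hz1 : z ≤ 1) (hq : 0 ≤ q) (hq1 : q ≤ 1) :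
    0 < nn q z - mm q z := by
  have e : nn q z - mm q z = 2 * z * (15 * (1 + z) ^ 2 - 3 * (1 - z) ^ 2) +
      (1 - q) * (1 - z) * (15 * (1 + z) ^ 2 - 6 * (1 + q) * (1 - z) * (1 + z) - 3 * (1 - z) ^ 2 +
        (q + q ^ 2) * (1 - z) ^ 2) := by
    unfold nn mm
    ring
  rw [e]
  have h0 : 0 ≤ 1 - z := by linarith
  have h0' : 0 ≤ 1 - q := by linarith
  have h1 : 0 < 15 * (1 + z) ^ 2 - 3 * (1 - z) ^ 2 := by nlinarith
  have h2 : 0 ≤ 15 * (1 + z) ^ 2 - 6 * (1 + q) * (1 - z) * (1 + z) - 3 * (1 - z) ^ 2 := by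
    have : (1 + q) * (1 - z) * (1 + z) ≤ 2 * (1 + z) ^ 2 := by
      have a1 : (1 - z) * (1 + z) ≤ (1 + z) ^ 2 := by nlinarith
      have a2 : 0 ≤ (1 - z) * (1 + z) := by positivity
      nlinarith
    nlinarith
  have h3 : 0 ≤ (q + q ^ 2) * (1 - z) ^ 2 := by positivity
  have h4 : 0 ≤ 15 * (1 + z) ^ 2 - 6 * (1 + q) * (1 - z) * (1 + z) - 3 * (1 - z) ^ 2 +
        (q + q ^ 2) * (1 - z) ^ 2 := by linarith
  positivity

/-- the `[3/3]` bound -/
theorem pade3 {b q : ℝ} (hb : 0 < b) (hb1 : b ≤ 1) (hq : 0 ≤ q) (hq1 : q ≤ 1) :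
    b ^ q * (nn q b + mm q b) ≤ nn q b - mm q b := by
  have hp := fun z (hz : (0 : ℝ) < z) (hz1 : z ≤ 1) => nn_sub_mm_pos hz hz1 hq hq1
  have hm : ∀ z : ℝ, 0 < z → z ≤ 1 → 0 < nn q z + mm q z := by
    intro z hz hz1
    have := mm_nonneg hz hz1 hq
    have := hp z hz hz1
    linarith
  apply pade_aux hb (hp b hb hb1) (hm b hb hb1)
  refine Diam_anti (h := fun z => Real.log (nn q z - mm q z) -
      Real.log (nn q z + mm q z) - q * Real.log z)
    (h' := fun z => - (q * (1 - q ^ 2) * (4 - q ^ 2) * (9 - q ^ 2) * (1 - z) ^ 6) /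
      (z * ((nn q z - mm q z) * (nn q z + mm q z)))) ?_ ?_ ?_ hb hb1
  · intro z hz hz1
    have d0 : HasDerivAt (fun z : ℝ => 1 - z) (-1) z := by
      simpa using (hasDerivAt_id z).const_sub 1
    have d3 : HasDerivAt (fun z : ℝ => 1 + z) 1 z := by
      simpa using (hasDerivAt_id z).const_add 1
    have dn : HasDerivAt (fun z : ℝ => nn q z)
        ((15 * (1 + z) ^ 2 - 9 * (1 - z) ^ 2 + 6 * q ^ 2 * (1 - z) ^ 2) +
          (1 + z) * (30 * (1 + z) + 18 * (1 - z) - 12 * q ^ 2 * (1 - z))) z := by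
      refine (d3.mul ((((d3.pow 2).const_mul 15).sub ((d0.pow 2).const_mul 9)).add
        ((d0.pow 2).const_mul (6 * q ^ 2)))).congr_deriv ?_
      simp
      left
      ring
    have dm : HasDerivAt (fun z : ℝ => mm q z)
        (- q * (15 * (1 + z) ^ 2 - 4 * (1 - z) ^ 2 + q ^ 2 * (1 - z) ^ 2) +
          q * (1 - z) * (30 * (1 + z) + 8 * (1 - z) - 2 * q ^ 2 * (1 - z))) z := by
      refine ((d0.const_mul q).mul ((((d3.pow 2).const_mul 15).sub ((d0.pow 2).const_mul 4)).add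
        ((d0.pow 2).const_mul (q ^ 2)))).congr_deriv ?_
      simp
      left
      ring
    have d1 := (dn.sub dm).log (hp z hz hz1).ne'
    have d2 := (dn.add dm).log (hm z hz hz1).ne'
    refine ((d1.sub d2).sub ((Real.hasDerivAt_log hz.ne').const_mul q)).congr_deriv ?_
    have e1 := (hp z hz hz1).ne'
    have e2 := (hm z hz hz1).ne'
    simp only [Pi.sub_apply, Pi.add_apply]
    rw [div_sub_div _ _ e1 e2, ← div_eq_mul_inv, div_sub_div _ _ (mul_ne_zero e1 e2) hz.ne',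
      div_eq_div_iff (mul_ne_zero (mul_ne_zero e1 e2) hz.ne') (mul_ne_zero hz.ne' (mul_ne_zero e1 e2))]
    unfold nn mm
    ring
  · intro z hz hz1
    have g1 : 0 ≤ 1 - q ^ 2 := by nlinarith
    have g2 : 0 ≤ 4 - q ^ 2 := by nlinarith
    have g3 : 0 ≤ 9 - q ^ 2 := by nlinarith
    have h1 := hp z hz hz1
    have h2 := hm z hz hz1
    rw [neg_div]
    have : 0 ≤ q * (1 - q ^ 2) * (4 - q ^ 2) * (9 - q ^ 2) * (1 - z) ^ 6 /
      (z * ((nn q z - mm q z) * (nn q z + mm q z))) := by positivity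
    linarith
  · have : mm q 1 = 0 := by
      unfold mm
      ring
    simp [this]

end Pool.Agent.W_bbc525_gd
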