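import Pool.Agent.W_bbc525_gd.Pade

/-!
# The two final inequalities in `a`, `b` and `Y = b ^ (2 a)`
-/

set_option autoImplicit false

namespace Pool.Agent.W_bbc525_gd

theorem reg_R {x b : ℝ} (hx : 0 ≤ x) (hx1 : x ≤ 1) (hb : 0 ≤ b) (hb1 : b ≤ 1) :
    0 ≤ 2 * ((1 + x) / 2 + b ^ 2) * (6 - (1 + x) / 2 * (2 - 5 * b)) / 6 -
      51 / 50 * ((1 + x) / 2) * (1 + b) ^ 2 := by
  have h1 : 0 ≤ 1 - x := by linarith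
  have h2 : 0 ≤ 1 - b := by linarith
  have e : 2 * ((1 + x) / 2 + b ^ 2) * (6 - (1 + x) / 2 * (2 - 5 * b)) / 6 -
      51 / 50 * ((1 + x) / 2) * (1 + b) ^ 2 =
      (97 / 300) * (1 - x) ^ 2 * (1 - b) ^ 3 + (11 / 30) * (1 - x) ^ 2 * b * (1 - b) ^ 2 +
      (23 / 25) * (1 - x) ^ 2 * b ^ 2 * (1 - b) + (171 / 100) * (1 - x) ^ 2 * b ^ 3 +
      (241 / 300) * x * (1 - x) * (1 - b) ^ 3 + (61 / 60) * x * (1 - x) * b * (1 - b) ^ 2 +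
      (82 / 75) * x * (1 - x) * b ^ 2 * (1 - b) + (169 / 50) * x * (1 - x) * b ^ 3 +
      (47 / 150) * x ^ 2 * (1 - b) ^ 3 + (17 / 30) * x ^ 2 * b * (1 - b) ^ 2 +
      (38 / 75) * x ^ 2 * b ^ 2 * (1 - b) + (48 / 25) * x ^ 2 * b ^ 3 := by
    ring
  rw [e]
  positivity

theorem reg_V {a b : ℝ} (ha : 0 ≤ a) (ha1 : a ≤ 1) (hb : 0 ≤ b) (hb1 : b ≤ 1) :
    2 * (a + b ^ 2) * (5 * (2 + b) / 6 * (a * b * (1 - b) + b) - 2 * a * (1 - b ^ 2) -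
      (1 + b) ^ 2) + 51 / 50 * a * (1 - b ^ 2) ^ 2 ≤ 0 := by
  have h1 : 0 ≤ 1 - a := by linarith
  have h2 : 0 ≤ 1 - b := by linarith
  have e : 2 * (a + b ^ 2) * (5 * (2 + b) / 6 * (a * b * (1 - b) + b) - 2 * a * (1 - b ^ 2) -
      (1 + b) ^ 2) + 51 / 50 * a * (1 - b ^ 2) ^ 2 =
      - (2 * (1 - a) ^ 2 * b ^ 2 * (1 - b) ^ 3 + (20 / 3) * (1 - a) ^ 2 * b ^ 3 * (1 - b) ^ 2 +
      (23 / 3) * (1 - a) ^ 2 * b ^ 4 * (1 - b) + 3 * (1 - a) ^ 2 * b ^ 5 +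
      (49 / 50) * a * (1 - a) * (1 - b) ^ 5 + (167 / 30) * a * (1 - a) * b * (1 - b) ^ 4 +
      (571 / 25) * a * (1 - a) * b ^ 2 * (1 - b) ^ 3 +
      (1073 / 25) * a * (1 - a) * b ^ 3 * (1 - b) ^ 2 + 32 * a * (1 - a) * b ^ 4 * (1 - b) +
      9 * a * (1 - a) * b ^ 5 + (249 / 50) * a ^ 2 * (1 - b) ^ 5 +
      (667 / 30) * a ^ 2 * b * (1 - b) ^ 4 + (3388 / 75) * a ^ 2 * b ^ 2 * (1 - b) ^ 3 +
      (1273 / 25) * a ^ 2 * b ^ 3 * (1 - b) ^ 2 + (82 / 3) * a ^ 2 * b ^ 4 * (1 - b) +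
      6 * a ^ 2 * b ^ 5) := by
    ring
  rw [e, neg_nonpos]
  positivity

theorem reg_E {q b : ℝ} (hq : 0 ≤ q) (hq1 : q ≤ 1) (hb : 0 ≤ b) (hb1 : b ≤ 1) :
    0 ≤
      (88 / 5) * (1 - q) ^ 4 * b ^ 4 + (412 / 15) * (1 - q) ^ 4 * (1 - b) * b ^ 3 +
      (652 / 75) * (1 - q) ^ 4 * (1 - b) ^ 2 * b ^ 2 +
      (29 / 75) * (1 - q) ^ 4 * (1 - b) ^ 3 * b + (39 / 25) * (1 - q) ^ 4 * (1 - b) ^ 4 +
      (896 / 5) * q * (1 - q) ^ 3 * b ^ 4 + (5794 / 15) * q * (1 - q) ^ 3 * (1 - b) * b ^ 3 +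
      (21184 / 75) * q * (1 - q) ^ 3 * (1 - b) ^ 2 * b ^ 2 +
      (4687 / 50) * q * (1 - q) ^ 3 * (1 - b) ^ 3 * b +
      (2753 / 150) * q * (1 - q) ^ 3 * (1 - b) ^ 4 + 442 * q ^ 2 * (1 - q) ^ 2 * b ^ 4 +
      (2992 / 3) * q ^ 2 * (1 - q) ^ 2 * (1 - b) * b ^ 3 +
      (57737 / 75) * q ^ 2 * (1 - q) ^ 2 * (1 - b) ^ 2 * b ^ 2 +
      (37973 / 150) * q ^ 2 * (1 - q) ^ 2 * (1 - b) ^ 3 * b +
      (1933 / 50) * q ^ 2 * (1 - q) ^ 2 * (1 - b) ^ 4 + (1984 / 5) * q ^ 3 * (1 - q) * b ^ 4 +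
      (13286 / 15) * q ^ 3 * (1 - q) * (1 - b) * b ^ 3 +
      (49766 / 75) * q ^ 3 * (1 - q) * (1 - b) ^ 2 * b ^ 2 +
      (4969 / 25) * q ^ 3 * (1 - q) * (1 - b) ^ 3 * b +
      (1811 / 75) * q ^ 3 * (1 - q) * (1 - b) ^ 4 + (582 / 5) * q ^ 4 * b ^ 4 +
      (1246 / 5) * q ^ 4 * (1 - b) * b ^ 3 + (4312 / 25) * q ^ 4 * (1 - b) ^ 2 * b ^ 2 +
      (1074 / 25) * q ^ 4 * (1 - b) ^ 3 * b + (82 / 25) * q ^ 4 * (1 - b) ^ 4 := by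
  have h1 : 0 ≤ 1 - q := by linarith
  have h2 : 0 ≤ 1 - b := by linarith
  positivity

/-- coefficient without `Y` -/
noncomputable def pP (a b : ℝ) : ℝ := 2 * (5 * (2 + b) / 6) * (1 - b) * (a * (1 - b) - b) +
  2 * (1 + b) * ((1 + 2 * b) - 2 * a * (1 - b)) - 51 / 50 * (1 + a) * (1 - b) ^ 3

/-- coefficient of `Y` -/
noncomputable def qQ (a b : ℝ) : ℝ := 2 * (5 * (2 + b) / 6) * (1 - b) * (a * b * (1 - b) + b) -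
  2 * (1 + b) * ((1 + 2 * b) + a * (1 - b) * (3 + b) + 2 * a ^ 2 * (1 - b) ^ 2) +
  51 / 50 * (1 + a) * (1 - b) ^ 3

theorem reg_Q {q b : ℝ} (hq : 0 ≤ q) (hq1 : q ≤ 1) (hb : 0 ≤ b) (hb1 : b ≤ 1) :
    qQ (q / 2) b ≤ 0 := by
  have h1 : 0 ≤ 1 - q := by linarith
  have h2 : 0 ≤ 1 - b := by linarith
  have e : qQ (q / 2) b =
      - (12 * (1 - q) ^ 2 * b ^ 4 + 29 * (1 - q) ^ 2 * (1 - b) * b ^ 3 +
      (77 / 3) * (1 - q) ^ 2 * (1 - b) ^ 2 * b ^ 2 +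
      (1447 / 150) * (1 - q) ^ 2 * (1 - b) ^ 3 * b + (49 / 50) * (1 - q) ^ 2 * (1 - b) ^ 4 +
      24 * q * (1 - q) * b ^ 4 + 66 * q * (1 - q) * (1 - b) * b ^ 3 +
      (401 / 6) * q * (1 - q) * (1 - b) ^ 2 * b ^ 2 +
      (1807 / 60) * q * (1 - q) * (1 - b) ^ 3 * b + (89 / 20) * q * (1 - q) * (1 - b) ^ 4 +
      12 * q ^ 2 * b ^ 4 + 37 * q ^ 2 * (1 - b) * b ^ 3 +
      (259 / 6) * q ^ 2 * (1 - b) ^ 2 * b ^ 2 + (2347 / 100) * q ^ 2 * (1 - b) ^ 3 * b +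
      (447 / 100) * q ^ 2 * (1 - b) ^ 4) := by
    unfold qQ
    ring
  rw [e, neg_nonpos]
  positivity

theorem reg_T {q b : ℝ} (hq : 0 ≤ q) (hq1 : q ≤ 1) (hb : 0 ≤ b) (hb1 : b ≤ 1) :
    0 ≤ (pP (q / 2) b + qQ (q / 2) b) * nn q b + (pP (q / 2) b - qQ (q / 2) b) * mm q b := by
  have e : (pP (q / 2) b + qQ (q / 2) b) * nn q b + (pP (q / 2) b - qQ (q / 2) b) * mm q b =
      q * (1 - b) ^ 4 * (
      (88 / 5) * (1 - q) ^ 4 * b ^ 4 + (412 / 15) * (1 - q) ^ 4 * (1 - b) * b ^ 3 +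
      (652 / 75) * (1 - q) ^ 4 * (1 - b) ^ 2 * b ^ 2 +
      (29 / 75) * (1 - q) ^ 4 * (1 - b) ^ 3 * b + (39 / 25) * (1 - q) ^ 4 * (1 - b) ^ 4 +
      (896 / 5) * q * (1 - q) ^ 3 * b ^ 4 + (5794 / 15) * q * (1 - q) ^ 3 * (1 - b) * b ^ 3 +
      (21184 / 75) * q * (1 - q) ^ 3 * (1 - b) ^ 2 * b ^ 2 +
      (4687 / 50) * q * (1 - q) ^ 3 * (1 - b) ^ 3 * b +
      (2753 / 150) * q * (1 - q) ^ 3 * (1 - b) ^ 4 + 442 * q ^ 2 * (1 - q) ^ 2 * b ^ 4 +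
      (2992 / 3) * q ^ 2 * (1 - q) ^ 2 * (1 - b) * b ^ 3 +
      (57737 / 75) * q ^ 2 * (1 - q) ^ 2 * (1 - b) ^ 2 * b ^ 2 +
      (37973 / 150) * q ^ 2 * (1 - q) ^ 2 * (1 - b) ^ 3 * b +
      (1933 / 50) * q ^ 2 * (1 - q) ^ 2 * (1 - b) ^ 4 + (1984 / 5) * q ^ 3 * (1 - q) * b ^ 4 +
      (13286 / 15) * q ^ 3 * (1 - q) * (1 - b) * b ^ 3 +
      (49766 / 75) * q ^ 3 * (1 - q) * (1 - b) ^ 2 * b ^ 2 +
      (4969 / 25) * q ^ 3 * (1 - q) * (1 - b) ^ 3 * b +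
      (1811 / 75) * q ^ 3 * (1 - q) * (1 - b) ^ 4 + (582 / 5) * q ^ 4 * b ^ 4 +
      (1246 / 5) * q ^ 4 * (1 - b) * b ^ 3 + (4312 / 25) * q ^ 4 * (1 - b) ^ 2 * b ^ 2 +
      (1074 / 25) * q ^ 4 * (1 - b) ^ 3 * b + (82 / 25) * q ^ 4 * (1 - b) ^ 4) := by
    unfold pP qQ nn mm
    ring
  rw [e]
  have h2 : 0 ≤ 1 - b := by linarith
  have h3 := reg_E hq hq1 hb hb1
  positivity

/-- `L ≤ 3` -/
theorem reg2_poly {a b Y : ℝ} (ha : 0 ≤ a) (ha1 : a ≤ 1 / 2) (hb : 0 < b) (hb1 : b ≤ 1)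
    (hY : Y * (nn (2 * a) b + mm (2 * a) b) ≤ nn (2 * a) b - mm (2 * a) b) :
    51 / 50 * (1 + a) * (1 - Y) * (1 - b) ^ 3 ≤
      2 * (5 * (2 + b) / 6 * (1 - b) * (a * (1 - b) * (1 + b * Y) - b * (1 - Y)) +
        (1 + b) * ((1 + 2 * b) * (1 - Y) - a * (1 - b) * (2 + (3 + b) * Y) -
          2 * a ^ 2 * (1 - b) ^ 2 * Y)) := by
  have hq : 0 ≤ 2 * a := by linarith
  have hq1 : 2 * a ≤ 1 := by linarith
  have e1 : 2 * a / 2 = a := by ring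
  have hQ := reg_Q hq hq1 hb.le hb1
  have hT := reg_T hq hq1 hb.le hb1
  rw [e1] at hQ hT
  have hpos : 0 < nn (2 * a) b + mm (2 * a) b := by
    have h1 := nn_sub_mm_pos hb hb1 hq hq1
    have h2 := mm_nonneg hb hb1 hq
    linarith
  have h1 : 0 ≤ (pP a b + Y * qQ a b) * (nn (2 * a) b + mm (2 * a) b) := by
    have := mul_le_mul_of_nonpos_left hY hQ
    nlinarith
  have h2 : 0 ≤ pP a b + Y * qQ a b := nonneg_of_mul_nonneg_left h1 hpos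
  unfold pP qQ at h2
  linarith

/-- `3 ≤ L` -/
theorem reg3_poly {a b Y : ℝ} (ha : 1 / 2 ≤ a) (ha1 : a ≤ 1) (hb : 0 < b) (hb1 : b < 1)
    (hY : Y * (b + a * (1 - b)) ≤ b * (1 - a * (1 - b))) :
    51 / 50 * a * (1 - b ^ 2) ^ 2 * (1 - Y) ≤
      2 * (a + b ^ 2) * (5 * (2 + b) / 6 * (a * (1 - b) * (1 + b * Y) - b * (1 - Y)) -
        2 * a * (1 - b ^ 2) * (1 + Y) + (1 + b) ^ 2 * (1 - Y)) := by
  have hV := reg_V (by linarith : 0 ≤ a) ha1 hb.le hb1.le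
  have hR := reg_R (x := 2 * a - 1) (by linarith) (by linarith) hb.le hb1.le
  have e1 : (1 + (2 * a - 1)) / 2 = a := by ring
  rw [e1] at hR
  have hd : 0 < b + a * (1 - b) := by
    have : 0 < 1 - b := by linarith
    positivity
  set W1 := 2 * (a + b ^ 2) * (5 * (2 + b) / 6 * (a * b * (1 - b) + b) - 2 * a * (1 - b ^ 2) -
      (1 + b) ^ 2) + 51 / 50 * a * (1 - b ^ 2) ^ 2 with hW1
  set W0 := 2 * (a + b ^ 2) * (5 * (2 + b) / 6 * (a * (1 - b) - b) - 2 * a * (1 - b ^ 2) +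
      (1 + b) ^ 2) - 51 / 50 * a * (1 - b ^ 2) ^ 2 with hW0
  have h1 : 0 ≤ (W0 + W1 * Y) * (b + a * (1 - b)) := by
    have h2 := mul_le_mul_of_nonpos_left hY hV
    have h3 : W0 * (b + a * (1 - b)) + W1 * (b * (1 - a * (1 - b))) =
        a * (1 - b ^ 2) * (1 - b) ^ 2 * (2 * (a + b ^ 2) * (6 - a * (2 - 5 * b)) / 6 -
          51 / 50 * a * (1 + b) ^ 2) := by
      rw [hW0, hW1]
      ring
    have h4 : 0 ≤ a * (1 - b ^ 2) * (1 - b) ^ 2 * (2 * (a + b ^ 2) * (6 - a * (2 - 5 * b)) / 6 -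
          51 / 50 * a * (1 + b) ^ 2) := by
      have : 0 ≤ 1 - b ^ 2 := by nlinarith
      positivity
    nlinarith
  have h2 : 0 ≤ W0 + W1 * Y := nonneg_of_mul_nonneg_left h1 hd
  rw [hW0, hW1] at h2
  linarith

end Pool.Agent.W_bbc525_gd
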