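import Pool.Agent.W_MP_bbc525_pr.Hub
import Pool.Agent.W_MP_bbc525_pr.Final2

/-!
# Stars: homomorphism density
-/

set_option autoImplicit false

namespace Pool.Agent.W_bbc525_gd

open MeasureTheory Finset Pool.Agent.W_MP_bbc525_pr

/-- the star with `k` leaves -/
abbrev sg (k : ℕ) : SimpleGraph (Fin (k + 1)) := SimpleGraph.starGraph 0

theorem sg_edge (k : ℕ) :
    (sg k).edgeFinset = (univ : Finset (Fin k)).image (fun i => s((0 : Fin (k + 1)), i.succ)) := by
  ext e
  induction e using Sym2.ind with
  | _ x y =>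
    simp only [SimpleGraph.mem_edgeFinset, SimpleGraph.mem_edgeSet, SimpleGraph.starGraph_adj,
      mem_image, mem_univ, true_and, Sym2.eq_iff]
    constructor
    · rintro ⟨hxy, rfl | rfl⟩
      · obtain ⟨i, hi⟩ := Fin.exists_succ_eq.2 (Ne.symm hxy)
        exact ⟨i, Or.inl ⟨rfl, hi⟩⟩
      · obtain ⟨i, hi⟩ := Fin.exists_succ_eq.2 hxy
        exact ⟨i, Or.inr ⟨rfl, hi⟩⟩
    · rintro ⟨i, ⟨rfl, rfl⟩ | ⟨rfl, rfl⟩⟩
      · exact ⟨(Fin.succ_ne_zero i).symm, Or.inl rfl⟩
      · exact ⟨Fin.succ_ne_zero i, Or.inr rfl⟩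

theorem sg_inj (k : ℕ) : Function.Injective (fun i : Fin k => s((0 : Fin (k + 1)), i.succ)) := by
  intro i j h
  simp only [Sym2.eq_iff] at h
  rcases h with ⟨_, h⟩ | ⟨h, _⟩
  · exact Fin.succ_injective k h
  · exact absurd h.symm (Fin.succ_ne_zero j)

theorem sg_card (k : ℕ) : (sg k).edgeFinset.card = k := by
  rw [sg_edge, card_image_of_injective _ (sg_inj k), card_univ, Fintype.card_fin]

theorem sg_deg_zero (k : ℕ) : (sg k).degree 0 = k := by
  rw [← SimpleGraph.card_neighborFinset_eq_degree]
  have : (sg k).neighborFinset 0 = univ.erase 0 := by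
    ext x
    simp only [SimpleGraph.mem_neighborFinset, SimpleGraph.starGraph_adj, mem_erase, mem_univ,
      and_true, true_or]
    exact ne_comm
  rw [this, card_erase_of_mem (mem_univ _), card_univ, Fintype.card_fin]
  simp

theorem sg_deg_succ (k : ℕ) (i : Fin k) : (sg k).degree i.succ = 1 := by
  rw [← SimpleGraph.card_neighborFinset_eq_degree]
  have : (sg k).neighborFinset i.succ = {0} := by
    ext x
    simp only [SimpleGraph.mem_neighborFinset, SimpleGraph.starGraph_adj, mem_singleton]
    constructor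
    · rintro ⟨_, h | h⟩
      · exact absurd h (Fin.succ_ne_zero i)
      · exact h
    · rintro rfl
      exact ⟨Fin.succ_ne_zero i, Or.inr rfl⟩
  rw [this, card_singleton]

theorem sg_density (k : ℕ) (W : Graphon) :
    homDensity (sg k) W = ∫ a : unitInterval, (∫ y, W.W a y) ^ k := by
  unfold homDensity
  have e1 : ∀ x : Fin (k + 1) → unitInterval, ∏ e ∈ (sg k).edgeFinset, W.edge x e =
      ∏ i : Fin k, W.W (x 0) (x i.succ) := by
    intro x
    rw [sg_edge, prod_image (fun i _ j _ h => sg_inj k h)]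
    rfl
  simp_rw [e1]
  have mp := volume_preserving_piFinSuccAbove (fun _ : Fin (k + 1) => unitInterval) 0
  have e2 := mp.integral_comp' (fun z : unitInterval × (Fin k → unitInterval) =>
    ∏ i : Fin k, W.W z.1 (z.2 i))
  have e3 : (fun x : Fin (k + 1) → unitInterval => ∏ i : Fin k, W.W (x 0) (x i.succ)) =
      fun x => (fun z : unitInterval × (Fin k → unitInterval) => ∏ i : Fin k, W.W z.1 (z.2 i))
        (MeasurableEquiv.piFinSuccAbove (fun _ : Fin (k + 1) => unitInterval) 0 x) := by
    ext x
    simp [MeasurableEquiv.piFinSuccAbove]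
    rfl
  rw [e3, e2]
  have hm : Measurable fun z : unitInterval × (Fin k → unitInterval) =>
      ∏ i : Fin k, W.W z.1 (z.2 i) := by
    apply Finset.measurable_prod
    intro i _
    exact W.measurable.comp (measurable_fst.prodMk ((measurable_pi_apply i).comp measurable_snd))
  rw [Measure.volume_eq_prod, integral_prod]
  · apply integral_congr_ae
    refine Filter.Eventually.of_forall fun a => ?_
    simp only
    rw [integral_fintype_prod_volume_eq_pow (fun y => W.W a y), Fintype.card_fin]
  · refine Graphon.integrable_of_bdd hm (C := 1) fun z => ?_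
    rw [abs_of_nonneg (prod_nonneg fun i _ => W.nonneg _ _)]
    exact prod_le_one (fun i _ => W.nonneg _ _) fun i _ => W.le_one _ _

end Pool.Agent.W_bbc525_gd
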