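import Pool.Agent.W_bbc525_gd.Fin
import Pool.Agent.W_bbc525_gd.Hlo

/-!
# The certificate for `0 < b < 1`, zeros `b` and `1`, with `b ^ 2 + s ^ 2`
-/

set_option autoImplicit false

namespace Pool.Agent.W_bbc525_gd

open Set Pool.Agent.W_bbc525_td

theorem star_step {κ G R φ Z t ρ : ℝ} (hκ : 0 < κ) (hR : 0 < R) (ht : 0 ≤ t) (hρ : 0 < ρ)
    (hφ : φ ≤ Z) (h : ρ * Z ^ 2 ≤ 4 * κ * G * R) :
    ρ / (4 * κ) * (2 * t * φ - t ^ 2 * R) ≤ G := by
  rw [div_mul_eq_mul_div, div_le_iff₀ (by positivity)]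
  have h1 : (2 * t * φ - t ^ 2 * R) * R ≤ Z ^ 2 := by
    have h0 : t * φ ≤ t * Z := mul_le_mul_of_nonneg_left hφ ht
    have h00 : t * φ * R ≤ t * Z * R := mul_le_mul_of_nonneg_right h0 hR.le
    nlinarith [sq_nonneg (Z - t * R)]
  have h2 : ρ * (2 * t * φ - t ^ 2 * R) * R ≤ G * (4 * κ) * R := by
    have := mul_le_mul_of_nonneg_left h1 hρ.le
    linarith
  exact le_of_mul_le_mul_right h2 hR

theorem star_QQ {b s : ℝ} (hb : 0 ≤ b) (hb1 : b ≤ 1) (hs : 1 ≤ s) :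
    51 / 25 * pp b * (1 + s) ^ 2 ≤ 3 * QQ b s := by
  obtain ⟨x, hx⟩ : ∃ x, x = s - 1 := ⟨_, rfl⟩
  have hs' : s = 1 + x := by linarith
  have hx0 : 0 ≤ x := by linarith
  have b2 : b ^ 2 ≤ b := by nlinarith
  have b3 : b ^ 3 ≤ b := by nlinarith
  have b4 : b ^ 4 ≤ b := by nlinarith
  have p2 : 0 ≤ b ^ 2 := by positivity
  have p3 : 0 ≤ b ^ 3 := by positivity
  have e : 3 * QQ b s - 51 / 25 * pp b * (1 + s) ^ 2 =
      (288 / 25 + 942 / 25 * b + 234 / 25 * b ^ 2 + 342 / 25 * b ^ 3 - 462 / 25 * b ^ 4) +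
      x * (888 / 25 + 1092 / 25 * b + 84 / 25 * b ^ 2 - 108 / 25 * b ^ 3 - 612 / 25 * b ^ 4) +
      x ^ 2 * (972 / 25 + 648 / 25 * b + 21 / 25 * b ^ 2 - 102 / 25 * b ^ 3 - 153 / 25 * b ^ 4) +
      x ^ 3 * (18 + 6 * b) + 3 * x ^ 4 := by
    rw [hs']
    unfold QQ pp
    ring
  have c0 : 0 ≤ 288 / 25 + 942 / 25 * b + 234 / 25 * b ^ 2 + 342 / 25 * b ^ 3 - 462 / 25 * b ^ 4 := by
    linarith
  have c1 : 0 ≤ 888 / 25 + 1092 / 25 * b + 84 / 25 * b ^ 2 - 108 / 25 * b ^ 3 -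
      612 / 25 * b ^ 4 := by linarith
  have c2 : 0 ≤ 972 / 25 + 648 / 25 * b + 21 / 25 * b ^ 2 - 102 / 25 * b ^ 3 -
      153 / 25 * b ^ 4 := by linarith
  have : 0 ≤ 3 * QQ b s - 51 / 25 * pp b * (1 + s) ^ 2 := by
    rw [e]
    positivity
  linarith

section

variable {L b : ℝ}

theorem star_kap (hL : 2 < L) (hL4 : L ≤ 4) (hb : 0 < b) (hb1 : b < 1) :
    1 + (L - 2) / 2 * b ^ 2 ≤ kap L b := by
  have h := fin_up hL hL4 hb
  unfold kap
  rw [if_neg hb1.ne, rpow_L (L := L) hb]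
  have h2 : 0 < 1 - b ^ 2 := by nlinarith
  rw [le_div_iff₀ h2]
  have := mul_le_mul_of_nonneg_left h (sq_nonneg b)
  linarith

theorem star_del (hL : 2 < L) (hL4 : L ≤ 4) (hb : 0 < b) (hb1 : b < 1) :
    (L - 2) / 2 ≤ del L b := by
  have h := fin_up hL hL4 hb
  unfold del
  rw [if_neg hb1.ne]
  have h2 : 0 < 1 - b ^ 2 := by nlinarith
  rw [le_div_iff₀ h2]
  linarith

theorem star_lam (hL : 2 < L) (hL4 : L ≤ 4) (hb : 0 < b) (hb1 : b < 1) :
    3 / 4 * ((L - 2) / 2) ^ 2 ≤ lam L b := by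
  have h := diam hb hb1 (p := L - 2) (by linarith) (by linarith)
  have hd := star_del hL hL4 hb hb1
  unfold del at hd
  rw [if_neg hb1.ne] at hd
  unfold lam
  rw [if_neg hb1.ne, rpow_L1 (L := L) hb, rpow_L (L := L) hb]
  have hy1 : b ^ (L - 2) < 1 := Real.rpow_lt_one hb.le hb1 (by linarith)
  set y := b ^ (L - 2)
  have hp : 0 < L - 2 := by linarith
  have a1 : 0 < 1 - b := by linarith
  have a2 : 0 < 1 - y := by linarith
  have a3 : 0 < 1 + b := by linarith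
  have f1 : L * (1 + b * y) * (1 - b) - 2 * (1 - b ^ 2 * y) =
      (L - 2) * (1 - y) * ((1 - b ^ 2 * y) / (1 - y) - (1 + 2 / (L - 2)) * b) := by
    field_simp
    ring
  rw [f1]
  have h1 : 3 / 4 * ((L - 2) / 2) * ((1 - y) / (1 - b ^ 2)) ≤
      (L - 2) * (1 - y) * ((1 - b ^ 2 * y) / (1 - y) - (1 + 2 / (L - 2)) * b) /
        (2 * (1 - b) ^ 3 * (1 + b)) := by
    have e : 3 / 4 * ((L - 2) / 2) * ((1 - y) / (1 - b ^ 2)) =
        (L - 2) * (1 - y) * (3 / 4 * (1 - b) ^ 2) / (2 * (1 - b) ^ 3 * (1 + b)) := by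
      rw [show 1 - b ^ 2 = (1 - b) * (1 + b) by ring]
      field_simp
      try ring
    rw [e]
    apply div_le_div_of_nonneg_right _ (by positivity)
    exact mul_le_mul_of_nonneg_left h (by positivity)
  refine le_trans ?_ h1
  have h2 := mul_le_mul_of_nonneg_left hd (by positivity : 0 ≤ 3 / 4 * ((L - 2) / 2))
  linarith

theorem star_phi (hL : 2 < L) (hL4 : L ≤ 4) (hb : 0 < b) (hb1 : b < 1) {s : ℝ} (hs : 1 ≤ s) :
    s ^ L - 1 - kap L b * (s ^ 2 - 1) ≤ (L - 2) / 2 * ((s ^ 2 - 1) * (s ^ 2 - b ^ 2)) := by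
  have hs0 : 0 < s := by linarith
  have h1 := fin_up hL hL4 hs0
  have h2 := star_kap hL hL4 hb hb1
  rw [rpow_L (L := L) hs0]
  have h3 : 0 ≤ s ^ 2 - 1 := by nlinarith
  have h4 := mul_le_mul_of_nonneg_left h1 (sq_nonneg s)
  have h5 := mul_le_mul_of_nonneg_right h2 h3
  nlinarith

/-- the three regions -/
theorem star_main {A c g : ℝ} (hL : 2 < L) (hL4 : L ≤ 4) (hb : 0 < b) (hb1 : b < 1)
    (e1 : lam L b - 1 + A - c + g = 0) (e2 : 4 * lam L b - L + 2 * A - c = 0)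
    (e3 : lam L b * b ^ 4 - b ^ L + A * b ^ 2 - c * b + g = 0)
    (e4 : 4 * lam L b * b ^ 4 - L * b ^ L + 2 * A * b ^ 2 - c * b = 0)
    (hJ : ∀ r, 0 ≤ r → 0 ≤ lam L b * r ^ 4 - r ^ L + A * r ^ 2 - c * r + g) {s t : ℝ}
    (hs : 0 ≤ s) (ht : 0 ≤ t) :
    51 / 50 / (4 * kap L b) * (2 * t * (s ^ L - 1 - kap L b * (s ^ 2 - 1)) -
      t ^ 2 * (b ^ 2 + s ^ 2)) ≤
      (lam L b * s ^ 4 - s ^ L + A * s ^ 2 - c * s + g) +
        lam L b / pp b * ((s - 1) ^ 2 * (s - b) ^ 2 * QQ b s) := by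
  have hlm := lam_pos hL hL4 hb
  have hkap := kap_pos hL hb
  have hdel := del_pos hL hb
  have hpp := pp_pos hb.le
  have hR : 0 < b ^ 2 + s ^ 2 := by positivity
  have hJs := hJ s hs
  have hQ : 0 ≤ QQ b s := by
    unfold QQ
    positivity
  have hx : 0 < lam L b / pp b := div_pos hlm hpp
  have hsb : (s + b) ^ 2 ≤ 2 * (b ^ 2 + s ^ 2) := by nlinarith [sq_nonneg (s - b)]
  rcases le_total 1 s with h1s | hs1
  · -- `s ≥ 1`
    refine star_step hkap hR ht (by norm_num) (star_phi hL hL4 hb hb1 h1s) ?_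
    have q1 := star_lam hL hL4 hb hb1
    have q2 := star_kap hL hL4 hb hb1
    have q3 := star_QQ hb.le hb1.le h1s
    set a := (L - 2) / 2 with ha
    have ha0 : 0 < a := by rw [ha]; linarith
    have q4 : 1 ≤ kap L b := by
      have : 0 ≤ a * b ^ 2 := by positivity
      linarith
    have q5 : 3 / 4 * a ^ 2 ≤ kap L b * lam L b := by
      calc 3 / 4 * a ^ 2 ≤ lam L b := q1
        _ = 1 * lam L b := (one_mul _).symm
        _ ≤ kap L b * lam L b := mul_le_mul_of_nonneg_right q4 hlm.le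
    set P4 := (s - 1) ^ 2 * (s - b) ^ 2 with hP4
    have hP40 : 0 ≤ P4 := by positivity
    have q6 : 51 / 50 * (a * ((s ^ 2 - 1) * (s ^ 2 - b ^ 2))) ^ 2 ≤
        a ^ 2 * P4 * (51 / 25 * (1 + s) ^ 2) * (b ^ 2 + s ^ 2) := by
      have : 51 / 50 * (a * ((s ^ 2 - 1) * (s ^ 2 - b ^ 2))) ^ 2 =
          a ^ 2 * P4 * (51 / 50 * (1 + s) ^ 2) * (s + b) ^ 2 := by
        rw [hP4]
        ring
      rw [this]
      calc a ^ 2 * P4 * (51 / 50 * (1 + s) ^ 2) * (s + b) ^ 2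
          ≤ a ^ 2 * P4 * (51 / 50 * (1 + s) ^ 2) * (2 * (b ^ 2 + s ^ 2)) :=
            mul_le_mul_of_nonneg_left hsb (by positivity)
        _ = a ^ 2 * P4 * (51 / 25 * (1 + s) ^ 2) * (b ^ 2 + s ^ 2) := by ring
    have q7 : 51 / 25 * (1 + s) ^ 2 ≤ 3 * QQ b s / pp b := by
      rw [le_div_iff₀ hpp]
      linarith
    have q8 : a ^ 2 * P4 * (51 / 25 * (1 + s) ^ 2) * (b ^ 2 + s ^ 2) ≤
        a ^ 2 * P4 * (3 * QQ b s / pp b) * (b ^ 2 + s ^ 2) := by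
      apply mul_le_mul_of_nonneg_right _ hR.le
      exact mul_le_mul_of_nonneg_left q7 (by positivity)
    have q9 : a ^ 2 * P4 * (3 * QQ b s / pp b) * (b ^ 2 + s ^ 2) ≤
        4 * kap L b * (lam L b / pp b * (P4 * QQ b s)) * (b ^ 2 + s ^ 2) := by
      have e : a ^ 2 * P4 * (3 * QQ b s / pp b) * (b ^ 2 + s ^ 2) =
          (3 / 4 * a ^ 2) * (4 * (P4 * (QQ b s / pp b)) * (b ^ 2 + s ^ 2)) := by ring
      have e' : 4 * kap L b * (lam L b / pp b * (P4 * QQ b s)) * (b ^ 2 + s ^ 2) =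
          (kap L b * lam L b) * (4 * (P4 * (QQ b s / pp b)) * (b ^ 2 + s ^ 2)) := by ring
      rw [e, e']
      exact mul_le_mul_of_nonneg_right q5 (by positivity)
    refine q6.trans (q8.trans (q9.trans ?_))
    apply mul_le_mul_of_nonneg_right _ hR.le
    apply mul_le_mul_of_nonneg_left _ (by positivity)
    linarith
  rcases le_total s b with hsb' | hbs
  · -- `s ≤ b`
    have hφ4 : 0 ≤ (s ^ 2 - 1) * (s ^ 2 - b ^ 2) := by
      have g1 : s ^ 2 - 1 ≤ 0 := by nlinarith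
      have g2 : s ^ 2 - b ^ 2 ≤ 0 := by nlinarith
      exact mul_nonneg_of_nonpos_of_nonpos g1 g2
    refine star_step hkap hR ht (by norm_num) (Alg_outside hL hL4 hb hs hφ4) ?_
    obtain ⟨hm, hm1, hm2⟩ : ∃ hm : ℝ, hm * ((1 - s) ^ 2 * (b - s) ^ 2) ≤
        lam L b * s ^ 4 - s ^ L + A * s ^ 2 - c * s + g ∧
        51 / 50 * (del L b) ^ 2 * (1 + b) ^ 2 ≤ 2 * kap L b * (hm + lam L b / pp b * QQ b 0) := by
      rcases le_total L 3 with h3 | h3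
      · exact ⟨_, hlo2 hL h3 hb hb1 e1 e2 e3 e4 hs hsb', fin2 hL h3 hb hb1 e2 e4⟩
      · exact ⟨_, hlo3 h3 hL4 hb hb1 e1 e2 e3 e4 hs hsb', fin3 h3 hL4 hb hb1 e1 e2 e4⟩
    have hQ0 : QQ b 0 ≤ QQ b s := by
      have : QQ b s - QQ b 0 = s ^ 4 + 2 * (1 + b) * s ^ 3 + (3 + 4 * b + 3 * b ^ 2) * s ^ 2 +
          (4 + 6 * b + 6 * b ^ 2 + 4 * b ^ 3) * s := by
        unfold QQ
        ring
      have h : 0 ≤ QQ b s - QQ b 0 := by
        rw [this]
        positivity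
      linarith
    set P4 := (1 - s) ^ 2 * (b - s) ^ 2 with hP4
    have hP40 : 0 ≤ P4 := by positivity
    have eP : (s - 1) ^ 2 * (s - b) ^ 2 * QQ b s = P4 * QQ b s := by
      rw [hP4]
      ring
    rw [eP]
    have q1 : P4 * (hm + lam L b / pp b * QQ b 0) ≤
        (lam L b * s ^ 4 - s ^ L + A * s ^ 2 - c * s + g) + lam L b / pp b * (P4 * QQ b s) := by
      have := mul_le_mul_of_nonneg_left hQ0 (by positivity : 0 ≤ lam L b / pp b * P4)
      linarith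
    have q2 : 51 / 50 * (del L b * ((s ^ 2 - 1) * (s ^ 2 - b ^ 2))) ^ 2 ≤
        51 / 50 * (del L b) ^ 2 * (1 + b) ^ 2 * (P4 * (2 * (b ^ 2 + s ^ 2))) := by
      have e : 51 / 50 * (del L b * ((s ^ 2 - 1) * (s ^ 2 - b ^ 2))) ^ 2 =
          51 / 50 * (del L b) ^ 2 * (1 + s) ^ 2 * (P4 * (s + b) ^ 2) := by
        rw [hP4]
        ring
      rw [e]
      have g1 : (1 + s) ^ 2 ≤ (1 + b) ^ 2 := by
        apply pow_le_pow_left₀ (by linarith)
        linarith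
      calc 51 / 50 * (del L b) ^ 2 * (1 + s) ^ 2 * (P4 * (s + b) ^ 2)
          ≤ 51 / 50 * (del L b) ^ 2 * (1 + b) ^ 2 * (P4 * (s + b) ^ 2) := by
            apply mul_le_mul_of_nonneg_right _ (by positivity)
            exact mul_le_mul_of_nonneg_left g1 (by positivity)
        _ ≤ _ := by
            apply mul_le_mul_of_nonneg_left _ (by positivity)
            exact mul_le_mul_of_nonneg_left hsb hP40
    refine q2.trans ?_
    calc 51 / 50 * (del L b) ^ 2 * (1 + b) ^ 2 * (P4 * (2 * (b ^ 2 + s ^ 2)))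
        ≤ 2 * kap L b * (hm + lam L b / pp b * QQ b 0) * (P4 * (2 * (b ^ 2 + s ^ 2))) :=
          mul_le_mul_of_nonneg_right hm2 (by positivity)
      _ = 4 * kap L b * (P4 * (hm + lam L b / pp b * QQ b 0)) * (b ^ 2 + s ^ 2) := by ring
      _ ≤ _ := by
          apply mul_le_mul_of_nonneg_right _ hR.le
          exact mul_le_mul_of_nonneg_left q1 (by positivity)
  · -- `b ≤ s ≤ 1`
    have hφ4 : (s ^ 2 - 1) * (s ^ 2 - b ^ 2) ≤ 0 := by
      have g1 : s ^ 2 - 1 ≤ 0 := by nlinarith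
      have g2 : 0 ≤ s ^ 2 - b ^ 2 := by nlinarith
      exact mul_nonpos_of_nonpos_of_nonneg g1 g2
    refine star_step hkap hR ht (by norm_num) (Alg_chord hL hb hs hφ4) ?_
    have : 0 ≤ lam L b / pp b * ((s - 1) ^ 2 * (s - b) ^ 2 * QQ b s) := by positivity
    have h2 : 0 ≤ 4 * kap L b * ((lam L b * s ^ 4 - s ^ L + A * s ^ 2 - c * s + g) +
        lam L b / pp b * ((s - 1) ^ 2 * (s - b) ^ 2 * QQ b s)) * (b ^ 2 + s ^ 2) := by
      apply mul_nonneg _ hR.le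
      apply mul_nonneg (by positivity)
      linarith
    rw [zero_pow two_ne_zero, mul_zero]
    exact h2

end

theorem star {L b : ℝ} (hL : 2 < L) (hL4 : L ≤ 4) (hb : 0 < b) (hb1 : b < 1) :
    ∃ B A c g K κ : ℝ, 0 < B ∧ 0 < A ∧ 0 ≤ c ∧ 0 < K ∧ 0 < κ ∧ 1 < 4 * κ * K ∧
      B - 1 + A - c + g = 0 ∧
      8 * B - L + 2 * A - c = 0 ∧
      B * b ^ 8 - b ^ L + A * b ^ 2 - c * b + g = 0 ∧
      8 * B * b ^ 8 - L * b ^ L + 2 * A * b ^ 2 - c * b = 0 ∧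
      (1 - κ + κ * b ^ 2 = b ^ L) ∧
      ∀ s t, 0 ≤ s → 0 ≤ t →
        K * (2 * t * (s ^ L - 1 - κ * (s ^ 2 - 1)) - t ^ 2 * (b ^ 2 + s ^ 2)) ≤
          B * s ^ 8 - s ^ L + A * s ^ 2 - c * s + g := by
  obtain ⟨A', c', g', hA', hc', e1, e2, e3, e4, -, hE⟩ := herm hL hL4 hb
  have hlm := lam_pos hL hL4 hb
  have hkap := kap_pos hL hb
  have hpp := pp_pos hb.le
  have hmain := fun s t (hs : 0 ≤ s) (ht : 0 ≤ t) =>
    star_main hL hL4 hb hb1 e1 e2 e3 e4 hE hs ht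
  have hk : 1 - kap L b + kap L b * b ^ 2 = b ^ L := by
    unfold kap
    rw [if_neg hb1.ne]
    have h2 : 1 - b ^ 2 ≠ 0 := by
      have : 0 < 1 - b ^ 2 := by nlinarith
      exact this.ne'
    field_simp
    ring
  set lm := lam L b
  set κ := kap L b with hκ
  set ρ := lm / pp b with hρ
  have hρ0 : 0 < ρ := div_pos hlm hpp
  have hρp : ρ * pp b = lm := div_mul_cancel₀ _ hpp.ne'
  have x1 : 1 - pp b + aa b - cc b + ee b = 0 := by
    unfold pp aa cc ee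
    ring
  have x2 : 8 - 4 * pp b + 2 * aa b - cc b = 0 := by
    unfold pp aa cc
    ring
  have x3 : b ^ 8 - pp b * b ^ 4 + aa b * b ^ 2 - cc b * b + ee b = 0 := by
    unfold pp aa cc ee
    ring
  have x4 : 8 * b ^ 8 - 4 * pp b * b ^ 4 + 2 * aa b * b ^ 2 - cc b * b = 0 := by
    unfold pp aa cc
    ring
  refine ⟨ρ, A' + ρ * aa b, c' + ρ * cc b, g' + ρ * ee b, 51 / 50 / (4 * κ), κ,
    hρ0, ?_, ?_, by positivity, hkap, ?_, ?_, ?_, ?_, ?_, hk, ?_⟩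
  · have := mul_pos hρ0 (aa_pos hb.le)
    linarith
  · have := mul_nonneg hρ0.le (cc_nonneg hb.le)
    linarith
  · have : 4 * κ * (51 / 50 / (4 * κ)) = 51 / 50 := by
      field_simp
    rw [this]
    norm_num
  · linear_combination e1 + ρ * x1 + hρp
  · linear_combination e2 + ρ * x2 + 4 * hρp
  · linear_combination e3 + ρ * x3 + b ^ 4 * hρp
  · linear_combination e4 + ρ * x4 + 4 * b ^ 4 * hρp
  · intro s t hs ht
    refine (hmain s t hs ht).trans (le_of_eq ?_)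
    rw [QQ_expand]
    linear_combination - s ^ 4 * hρp

end Pool.Agent.W_bbc525_gd
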