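import Pool.Agent.W_bbc525_gd.Cex4

/-!
# Small stars: the table, part 1
-/

set_option autoImplicit false

namespace Pool.Agent.W_bbc525_gd

open Pool.Agent.W_MP_bbc525_pr Pool.Agent.W_bbc525_h89 Pool.Agent.W_bbc525_td

theorem cex_k15 : ∃ p q : ℝ, 0 < p ∧ p < q ∧ q < 1 ∧
    Ncond (sg 15) p q ∧ ¬ ReplicaSymmetric (sg 15) p q :=
  cex_tab (n := 14) (by norm_num) (29 / 500) (471 / 1000) (1603 / 500)
    (-(8 * (355913 / 1000000))) (-(8 * (94111 / 1000000))) (582513 / 500000)
    (407 / 6250) (37091 / 1000000) (-(8 * (2679 / 125000)))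
    (by norm_num) (by norm_num) (by norm_num) (by norm_num) (by norm_num) (by norm_num)
    (log_le_neg (by norm_num) (by norm_num) (by norm_num) (by norm_num))
    (log_le_neg (by norm_num) (by norm_num) (by norm_num) (by norm_num))
    (log_le_pos (by norm_num) (by norm_num) (by norm_num))
    (log_le_pos (by norm_num) (by norm_num) (by norm_num))
    (log_le_pos (by norm_num) (by norm_num) (by norm_num))
    (log_le_neg (by norm_num) (by norm_num) (by norm_num) (by norm_num))
    (by norm_num) (by norm_num)

theorem cex_k16 : ∃ p q : ℝ, 0 < p ∧ p < q ∧ q < 1 ∧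
    Ncond (sg 16) p q ∧ ¬ ReplicaSymmetric (sg 16) p q :=
  cex_tab (n := 15) (by norm_num) (21 / 500) (423 / 1000) (877 / 250)
    (-(8 * (396259 / 1000000))) (-(8 * (53773 / 500000))) (156881 / 125000)
    (7739 / 125000) (37747 / 1000000) (-(8 * (22869 / 1000000)))
    (by norm_num) (by norm_num) (by norm_num) (by norm_num) (by norm_num) (by norm_num)
    (log_le_neg (by norm_num) (by norm_num) (by norm_num) (by norm_num))
    (log_le_neg (by norm_num) (by norm_num) (by norm_num) (by norm_num))
    (log_le_pos (by norm_num) (by norm_num) (by norm_num))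
    (log_le_pos (by norm_num) (by norm_num) (by norm_num))
    (log_le_pos (by norm_num) (by norm_num) (by norm_num))
    (log_le_neg (by norm_num) (by norm_num) (by norm_num) (by norm_num))
    (by norm_num) (by norm_num)

theorem cex_k17 : ∃ p q : ℝ, 0 < p ∧ p < q ∧ q < 1 ∧
    Ncond (sg 17) p q ∧ ¬ ReplicaSymmetric (sg 17) p q :=
  cex_tab (n := 16) (by norm_num) (17 / 500) (197 / 500) (743 / 200)
    (-(8 * (422673 / 1000000))) (-(8 * (14553 / 125000))) (65619 / 50000)
    (916 / 15625) (37177 / 1000000) (-(8 * (23243 / 1000000)))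
    (by norm_num) (by norm_num) (by norm_num) (by norm_num) (by norm_num) (by norm_num)
    (log_le_neg (by norm_num) (by norm_num) (by norm_num) (by norm_num))
    (log_le_neg (by norm_num) (by norm_num) (by norm_num) (by norm_num))
    (log_le_pos (by norm_num) (by norm_num) (by norm_num))
    (log_le_pos (by norm_num) (by norm_num) (by norm_num))
    (log_le_pos (by norm_num) (by norm_num) (by norm_num))
    (log_le_neg (by norm_num) (by norm_num) (by norm_num) (by norm_num))
    (by norm_num) (by norm_num)

theorem cex_k18 : ∃ p q : ℝ, 0 < p ∧ p < q ∧ q < 1 ∧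
    Ncond (sg 18) p q ∧ ¬ ReplicaSymmetric (sg 18) p q :=
  cex_tab (n := 17) (by norm_num) (29 / 1000) (93 / 250) (777 / 200)
    (-(8 * (110639 / 250000))) (-(8 * (61803 / 500000))) (339281 / 250000)
    (13887 / 250000) (36277 / 1000000) (-(8 * (4649 / 200000)))
    (by norm_num) (by norm_num) (by norm_num) (by norm_num) (by norm_num) (by norm_num)
    (log_le_neg (by norm_num) (by norm_num) (by norm_num) (by norm_num))
    (log_le_neg (by norm_num) (by norm_num) (by norm_num) (by norm_num))
    (log_le_pos (by norm_num) (by norm_num) (by norm_num))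
    (log_le_pos (by norm_num) (by norm_num) (by norm_num))
    (log_le_pos (by norm_num) (by norm_num) (by norm_num))
    (log_le_neg (by norm_num) (by norm_num) (by norm_num) (by norm_num))
    (by norm_num) (by norm_num)

theorem cex_k19 : ∃ p q : ℝ, 0 < p ∧ p < q ∧ q < 1 ∧
    Ncond (sg 19) p q ∧ ¬ ReplicaSymmetric (sg 19) p q :=
  cex_tab (n := 18) (by norm_num) (13 / 500) (71 / 200) (161 / 40)
    (-(8 * (228103 / 500000))) (-(8 * (129453 / 1000000))) (696263 / 500000)
    (52699 / 1000000) (4401 / 125000) (-(8 * (22997 / 1000000)))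
    (by norm_num) (by norm_num) (by norm_num) (by norm_num) (by norm_num) (by norm_num)
    (log_le_neg (by norm_num) (by norm_num) (by norm_num) (by norm_num))
    (log_le_neg (by norm_num) (by norm_num) (by norm_num) (by norm_num))
    (log_le_pos (by norm_num) (by norm_num) (by norm_num))
    (log_le_pos (by norm_num) (by norm_num) (by norm_num))
    (log_le_pos (by norm_num) (by norm_num) (by norm_num))
    (log_le_neg (by norm_num) (by norm_num) (by norm_num) (by norm_num))
    (by norm_num) (by norm_num)

theorem cex_k20 : ∃ p q : ℝ, 0 < p ∧ p < q ∧ q < 1 ∧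
    Ncond (sg 20) p q ∧ ¬ ReplicaSymmetric (sg 20) p q :=
  cex_tab (n := 19) (by norm_num) (23 / 1000) (171 / 500) (518 / 125)
    (-(8 * (471531 / 1000000))) (-(8 * (134117 / 1000000))) (1421663 / 1000000)
    (1567 / 31250) (34047 / 1000000) (-(8 * (2261 / 100000)))
    (by norm_num) (by norm_num) (by norm_num) (by norm_num) (by norm_num) (by norm_num)
    (log_le_neg (by norm_num) (by norm_num) (by norm_num) (by norm_num))
    (log_le_neg (by norm_num) (by norm_num) (by norm_num) (by norm_num))
    (log_le_pos (by norm_num) (by norm_num) (by norm_num))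
    (log_le_pos (by norm_num) (by norm_num) (by norm_num))
    (log_le_pos (by norm_num) (by norm_num) (by norm_num))
    (log_le_neg (by norm_num) (by norm_num) (by norm_num) (by norm_num))
    (by norm_num) (by norm_num)

theorem cex_k21 : ∃ p q : ℝ, 0 < p ∧ p < q ∧ q < 1 ∧
    Ncond (sg 21) p q ∧ ¬ ReplicaSymmetric (sg 21) p q :=
  cex_tab (n := 20) (by norm_num) (21 / 1000) (331 / 1000) (531 / 125)
    (-(8 * (482903 / 1000000))) (-(8 * (138203 / 1000000))) (28929 / 20000)
    (47791 / 1000000) (4113 / 125000) (-(8 * (443 / 20000)))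
    (by norm_num) (by norm_num) (by norm_num) (by norm_num) (by norm_num) (by norm_num)
    (log_le_neg (by norm_num) (by norm_num) (by norm_num) (by norm_num))
    (log_le_neg (by norm_num) (by norm_num) (by norm_num) (by norm_num))
    (log_le_pos (by norm_num) (by norm_num) (by norm_num))
    (log_le_pos (by norm_num) (by norm_num) (by norm_num))
    (log_le_pos (by norm_num) (by norm_num) (by norm_num))
    (log_le_neg (by norm_num) (by norm_num) (by norm_num) (by norm_num))
    (by norm_num) (by norm_num)

theorem cex_k22 : ∃ p q : ℝ, 0 < p ∧ p < q ∧ q < 1 ∧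
    Ncond (sg 22) p q ∧ ¬ ReplicaSymmetric (sg 22) p q :=
  cex_tab (n := 21) (by norm_num) (1 / 50) (321 / 1000) (4343 / 1000)
    (-(8 * (489001 / 1000000))) (-(8 * (71019 / 500000))) (1468567 / 1000000)
    (11403 / 250000) (31823 / 1000000) (-(8 * (2709 / 125000)))
    (by norm_num) (by norm_num) (by norm_num) (by norm_num) (by norm_num) (by norm_num)
    (log_le_neg (by norm_num) (by norm_num) (by norm_num) (by norm_num))
    (log_le_neg (by norm_num) (by norm_num) (by norm_num) (by norm_num))
    (log_le_pos (by norm_num) (by norm_num) (by norm_num))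
    (log_le_pos (by norm_num) (by norm_num) (by norm_num))
    (log_le_pos (by norm_num) (by norm_num) (by norm_num))
    (log_le_neg (by norm_num) (by norm_num) (by norm_num) (by norm_num))
    (by norm_num) (by norm_num)

theorem cex_k23 : ∃ p q : ℝ, 0 < p ∧ p < q ∧ q < 1 ∧
    Ncond (sg 23) p q ∧ ¬ ReplicaSymmetric (sg 23) p q :=
  cex_tab (n := 22) (by norm_num) (9 / 500) (157 / 500) (221 / 50)
    (-(8 * (502171 / 1000000))) (-(8 * (72397 / 500000))) (1486141 / 1000000)
    (4367 / 100000) (30707 / 1000000) (-(8 * (10559 / 500000)))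
    (by norm_num) (by norm_num) (by norm_num) (by norm_num) (by norm_num) (by norm_num)
    (log_le_neg (by norm_num) (by norm_num) (by norm_num) (by norm_num))
    (log_le_neg (by norm_num) (by norm_num) (by norm_num) (by norm_num))
    (log_le_pos (by norm_num) (by norm_num) (by norm_num))
    (log_le_pos (by norm_num) (by norm_num) (by norm_num))
    (log_le_pos (by norm_num) (by norm_num) (by norm_num))
    (log_le_neg (by norm_num) (by norm_num) (by norm_num) (by norm_num))
    (by norm_num) (by norm_num)

theorem cex_k24 : ∃ p q : ℝ, 0 < p ∧ p < q ∧ q < 1 ∧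
    Ncond (sg 24) p q ∧ ¬ ReplicaSymmetric (sg 24) p q :=
  cex_tab (n := 23) (by norm_num) (17 / 1000) (307 / 1000) (899 / 200)
    (-(8 * (127329 / 250000))) (-(8 * (36903 / 250000))) (1502967 / 1000000)
    (41853 / 1000000) (29687 / 1000000) (-(8 * (20601 / 1000000)))
    (by norm_num) (by norm_num) (by norm_num) (by norm_num) (by norm_num) (by norm_num)
    (log_le_neg (by norm_num) (by norm_num) (by norm_num) (by norm_num))
    (log_le_neg (by norm_num) (by norm_num) (by norm_num) (by norm_num))
    (log_le_pos (by norm_num) (by norm_num) (by norm_num))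
    (log_le_pos (by norm_num) (by norm_num) (by norm_num))
    (log_le_pos (by norm_num) (by norm_num) (by norm_num))
    (log_le_neg (by norm_num) (by norm_num) (by norm_num) (by norm_num))
    (by norm_num) (by norm_num)

theorem cex_k25 : ∃ p q : ℝ, 0 < p ∧ p < q ∧ q < 1 ∧
    Ncond (sg 25) p q ∧ ¬ ReplicaSymmetric (sg 25) p q :=
  cex_tab (n := 24) (by norm_num) (17 / 1000) (3 / 10) (2283 / 500)
    (-(8 * (127329 / 250000))) (-(8 * (30099 / 200000))) (1518639 / 1000000)
    (40143 / 1000000) (28751 / 1000000) (-(8 * (4021 / 200000)))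
    (by norm_num) (by norm_num) (by norm_num) (by norm_num) (by norm_num) (by norm_num)
    (log_le_neg (by norm_num) (by norm_num) (by norm_num) (by norm_num))
    (log_le_neg (by norm_num) (by norm_num) (by norm_num) (by norm_num))
    (log_le_pos (by norm_num) (by norm_num) (by norm_num))
    (log_le_pos (by norm_num) (by norm_num) (by norm_num))
    (log_le_pos (by norm_num) (by norm_num) (by norm_num))
    (log_le_neg (by norm_num) (by norm_num) (by norm_num) (by norm_num))
    (by norm_num) (by norm_num)

theorem cex_k26 : ∃ p q : ℝ, 0 < p ∧ p < q ∧ q < 1 ∧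
    Ncond (sg 26) p q ∧ ¬ ReplicaSymmetric (sg 26) p q :=
  cex_tab (n := 25) (by norm_num) (2 / 125) (59 / 200) (37 / 8)
    (-(8 * (258447 / 500000))) (-(8 * (38149 / 250000))) (765739 / 500000)
    (38607 / 1000000) (27811 / 1000000) (-(8 * (979 / 50000)))
    (by norm_num) (by norm_num) (by norm_num) (by norm_num) (by norm_num) (by norm_num)
    (log_le_neg (by norm_num) (by norm_num) (by norm_num) (by norm_num))
    (log_le_neg (by norm_num) (by norm_num) (by norm_num) (by norm_num))
    (log_le_pos (by norm_num) (by norm_num) (by norm_num))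
    (log_le_pos (by norm_num) (by norm_num) (by norm_num))
    (log_le_pos (by norm_num) (by norm_num) (by norm_num))
    (log_le_neg (by norm_num) (by norm_num) (by norm_num) (by norm_num))
    (by norm_num) (by norm_num)

theorem cex_k27 : ∃ p q : ℝ, 0 < p ∧ p < q ∧ q < 1 ∧
    Ncond (sg 27) p q ∧ ¬ ReplicaSymmetric (sg 27) p q :=
  cex_tab (n := 26) (by norm_num) (3 / 200) (29 / 100) (2343 / 500)
    (-(8 * (262481 / 500000))) (-(8 * (154733 / 1000000))) (1544581 / 1000000)
    (18593 / 500000) (26943 / 1000000) (-(8 * (19109 / 1000000)))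
    (by norm_num) (by norm_num) (by norm_num) (by norm_num) (by norm_num) (by norm_num)
    (log_le_neg (by norm_num) (by norm_num) (by norm_num) (by norm_num))
    (log_le_neg (by norm_num) (by norm_num) (by norm_num) (by norm_num))
    (log_le_pos (by norm_num) (by norm_num) (by norm_num))
    (log_le_pos (by norm_num) (by norm_num) (by norm_num))
    (log_le_pos (by norm_num) (by norm_num) (by norm_num))
    (log_le_neg (by norm_num) (by norm_num) (by norm_num) (by norm_num))
    (by norm_num) (by norm_num)

theorem cex_k28 : ∃ p q : ℝ, 0 < p ∧ p < q ∧ q < 1 ∧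
    Ncond (sg 28) p q ∧ ¬ ReplicaSymmetric (sg 28) p q :=
  cex_tab (n := 27) (by norm_num) (3 / 200) (57 / 200) (2371 / 500)
    (-(8 * (262481 / 500000))) (-(8 * (156907 / 1000000))) (77823 / 50000)
    (35833 / 1000000) (13069 / 500000) (-(8 * (18647 / 1000000)))
    (by norm_num) (by norm_num) (by norm_num) (by norm_num) (by norm_num) (by norm_num)
    (log_le_neg (by norm_num) (by norm_num) (by norm_num) (by norm_num))
    (log_le_neg (by norm_num) (by norm_num) (by norm_num) (by norm_num))
    (log_le_pos (by norm_num) (by norm_num) (by norm_num))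
    (log_le_pos (by norm_num) (by norm_num) (by norm_num))
    (log_le_pos (by norm_num) (by norm_num) (by norm_num))
    (log_le_neg (by norm_num) (by norm_num) (by norm_num) (by norm_num))
    (by norm_num) (by norm_num)

theorem cex_k29 : ∃ p q : ℝ, 0 < p ∧ p < q ∧ q < 1 ∧
    Ncond (sg 29) p q ∧ ¬ ReplicaSymmetric (sg 29) p q :=
  cex_tab (n := 28) (by norm_num) (7 / 500) (141 / 500) (4783 / 1000)
    (-(8 * (266793 / 500000))) (-(8 * (15823 / 100000))) (1565069 / 1000000)
    (3461 / 100000) (25321 / 1000000) (-(8 * (9071 / 500000)))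
    (by norm_num) (by norm_num) (by norm_num) (by norm_num) (by norm_num) (by norm_num)
    (log_le_neg (by norm_num) (by norm_num) (by norm_num) (by norm_num))
    (log_le_neg (by norm_num) (by norm_num) (by norm_num) (by norm_num))
    (log_le_pos (by norm_num) (by norm_num) (by norm_num))
    (log_le_pos (by norm_num) (by norm_num) (by norm_num))
    (log_le_pos (by norm_num) (by norm_num) (by norm_num))
    (log_le_neg (by norm_num) (by norm_num) (by norm_num) (by norm_num))
    (by norm_num) (by norm_num)

theorem cex_k30 : ∃ p q : ℝ, 0 < p ∧ p < q ∧ q < 1 ∧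
    Ncond (sg 30) p q ∧ ¬ ReplicaSymmetric (sg 30) p q :=
  cex_tab (n := 29) (by norm_num) (7 / 500) (139 / 500) (483 / 100)
    (-(8 * (266793 / 500000))) (-(8 * (32003 / 200000))) (24607 / 15625)
    (8359 / 250000) (24593 / 1000000) (-(8 * (2213 / 125000)))
    (by norm_num) (by norm_num) (by norm_num) (by norm_num) (by norm_num) (by norm_num)
    (log_le_neg (by norm_num) (by norm_num) (by norm_num) (by norm_num))
    (log_le_neg (by norm_num) (by norm_num) (by norm_num) (by norm_num))
    (log_le_pos (by norm_num) (by norm_num) (by norm_num))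
    (log_le_pos (by norm_num) (by norm_num) (by norm_num))
    (log_le_pos (by norm_num) (by norm_num) (by norm_num))
    (log_le_neg (by norm_num) (by norm_num) (by norm_num) (by norm_num))
    (by norm_num) (by norm_num)

theorem cex_k31 : ∃ p q : ℝ, 0 < p ∧ p < q ∧ q < 1 ∧
    Ncond (sg 31) p q ∧ ¬ ReplicaSymmetric (sg 31) p q :=
  cex_tab (n := 30) (by norm_num) (13 / 1000) (11 / 40) (4873 / 1000)
    (-(8 * (542849 / 1000000))) (-(8 * (40343 / 250000))) (1583711 / 1000000)
    (8093 / 250000) (23881 / 1000000) (-(8 * (17277 / 1000000)))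
    (by norm_num) (by norm_num) (by norm_num) (by norm_num) (by norm_num) (by norm_num)
    (log_le_neg (by norm_num) (by norm_num) (by norm_num) (by norm_num))
    (log_le_neg (by norm_num) (by norm_num) (by norm_num) (by norm_num))
    (log_le_pos (by norm_num) (by norm_num) (by norm_num))
    (log_le_pos (by norm_num) (by norm_num) (by norm_num))
    (log_le_pos (by norm_num) (by norm_num) (by norm_num))
    (log_le_neg (by norm_num) (by norm_num) (by norm_num) (by norm_num))
    (by norm_num) (by norm_num)

end Pool.Agent.W_bbc525_gd
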