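import Pool.Agent.W_bbc525_td.Base

/-!
# General degrees: the largest admissible slope and its point of contact
-/

set_option autoImplicit false

namespace Pool.Agent.W_bbc525_gd

open Set Filter Topology Pool.Agent.W_MP_bbc525_pr Pool.Agent.W_bbc525_td

/-- the potential -/
noncomputable def Ph {ι : Type*} (s : Finset ι) (w : ι → ℝ) (d : ι → ℕ) (X : ℝ) : ℝ :=
  ∑ i ∈ s, w i * ps (d i) X

theorem Touch_ps_pos {d : ℕ} (hd : 2 ≤ d) {X : ℝ} (hX : 0 ≤ X) (hX1 : X ≠ 1) : 0 < ps d X := by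
  have h := one_add_mul_self_lt_rpow_one_add (s := X - 1) (by linarith) (sub_ne_zero.2 hX1)
    (p := (d : ℝ)) (by exact_mod_cast (by omega : 1 < d))
  have hd' : (0 : ℝ) < d := by exact_mod_cast (by omega : 0 < d)
  have e : (1 + (X - 1)) = X := by ring
  rw [e, Real.rpow_natCast] at h
  unfold ps
  rw [sub_pos, lt_div_iff₀ hd']
  linarith

section

variable {ι : Type*} {s : Finset ι} {w : ι → ℝ} {d : ι → ℕ} {q : ℝ}

theorem Ph_pos (hd : ∀ i ∈ s, 2 ≤ d i) (hw : ∀ i ∈ s, 0 < w i) (hne : s.Nonempty) {X : ℝ}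
    (hX : 0 ≤ X) (hX1 : X ≠ 1) : 0 < Ph s w d X := by
  unfold Ph
  exact Finset.sum_pos (fun i hi => mul_pos (hw i hi) (Touch_ps_pos (hd i hi) hX hX1)) hne

theorem Ph_one : Ph s w d 1 = 0 := by
  unfold Ph
  exact Finset.sum_eq_zero fun i _ => by rw [ps_one, mul_zero]

theorem Ph_nonneg (hd : ∀ i ∈ s, 2 ≤ d i) (hw : ∀ i ∈ s, 0 < w i) (hne : s.Nonempty) {X : ℝ}
    (hX : 0 ≤ X) : 0 ≤ Ph s w d X := by
  by_cases h : X = 1
  · rw [h, Ph_one]
  · exact (Ph_pos hd hw hne hX h).le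

theorem continuous_Ph : Continuous (Ph s w d) := by
  unfold Ph
  exact continuous_finsetSum _ fun i _ => continuous_const.mul (continuous_ps (d i))

/-- the derivative of the potential -/
noncomputable def Ph' (s : Finset ι) (w : ι → ℝ) (d : ι → ℕ) (X : ℝ) : ℝ :=
  ∑ i ∈ s, w i * (X ^ (d i - 1) - 1)

/-- the second derivative of the potential -/
noncomputable def Ph'' (s : Finset ι) (w : ι → ℝ) (d : ι → ℕ) (X : ℝ) : ℝ :=
  ∑ i ∈ s, w i * ((d i - 1 : ℕ) * X ^ (d i - 1 - 1))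

theorem hasDerivAt_Ph (hd : ∀ i ∈ s, 2 ≤ d i) (X : ℝ) :
    HasDerivAt (Ph s w d) (Ph' s w d X) X := by
  unfold Ph Ph'
  exact HasDerivAt.fun_sum fun i hi =>
    (hasDerivAt_ps (by have := hd i hi; omega : 0 < d i) X).const_mul (w i)

theorem hasDerivAt_Ph' (X : ℝ) : HasDerivAt (Ph' s w d) (Ph'' s w d X) X := by
  unfold Ph' Ph''
  exact HasDerivAt.fun_sum fun i _ => ((hasDerivAt_pow (d i - 1) X).sub_const 1).const_mul (w i)

theorem Ph'_one : Ph' s w d 1 = 0 := by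
  unfold Ph'
  simp

theorem continuous_Ph'' : Continuous (Ph'' s w d) := by
  unfold Ph''
  exact continuous_finsetSum _ fun i _ => by fun_prop

/-- the slack -/
noncomputable def SS (s : Finset ι) (w : ι → ℝ) (d : ι → ℕ) (q T X : ℝ) : ℝ :=
  dd q X - T * Ph s w d X

/-- first derivative -/
noncomputable def SS' (s : Finset ι) (w : ι → ℝ) (d : ι → ℕ) (q T X : ℝ) : ℝ :=
  dd' q X - T * Ph' s w d X

/-- second derivative -/
noncomputable def SS'' (s : Finset ι) (w : ι → ℝ) (d : ι → ℕ) (q T X : ℝ) : ℝ :=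
  dd'' q X - T * Ph'' s w d X

theorem hasDerivAt_SS (hd : ∀ i ∈ s, 2 ≤ d i) (hq : 0 < q) (hq1 : q < 1) (T : ℝ) {X : ℝ}
    (hX : 0 < X) (hX1 : X < 1 / q) : HasDerivAt (SS s w d q T) (SS' s w d q T X) X :=
  (hasDerivAt_dd hq hq1 hX hX1).sub ((hasDerivAt_Ph hd X).const_mul T)

theorem hasDerivAt_SS' (hq : 0 < q) (T : ℝ) {X : ℝ}
    (hX : 0 < X) (hX1 : X < 1 / q) : HasDerivAt (SS' s w d q T) (SS'' s w d q T X) X :=
  (hasDerivAt_dd' hq hX hX1).sub ((hasDerivAt_Ph' X).const_mul T)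

theorem SS_one (hq : 0 < q) (hq1 : q < 1) (T : ℝ) : SS s w d q T 1 = 0 := by
  unfold SS
  rw [dd_one hq hq1, Ph_one]
  ring

theorem SS'_one (T : ℝ) : SS' s w d q T 1 = 0 := by
  unfold SS'
  rw [dd'_one, Ph'_one]
  ring

theorem continuousOn_SS (hq : 0 < q) (hq1 : q < 1) (T : ℝ) :
    ContinuousOn (SS s w d q T) (Icc 0 (1 / q)) :=
  (continuousOn_dd hq hq1).sub (continuous_const.mul continuous_Ph).continuousOn

theorem one_lt_inv' (hq : 0 < q) (hq1 : q < 1) : (1 : ℝ) < 1 / q := by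
  rw [lt_div_iff₀ hq]
  linarith

/-- `S'' > 0` near `1` gives `S ≥ 0` near `1` -/
theorem Touch_near (hd : ∀ i ∈ s, 2 ≤ d i) (hq : 0 < q) (hq1 : q < 1) {T : ℝ}
    (h : 0 < SS'' s w d q T 1) : ∃ δ > 0, ∀ X, |X - 1| < δ → 0 ≤ SS s w d q T X := by
  have hone := one_lt_inv' hq hq1
  have hc : ContinuousAt (SS'' s w d q T) 1 := by
    unfold SS'' dd''
    have : (1 : ℝ) * (1 - q * 1) ≠ 0 := by
      have : 0 < 1 - q := by linarith
      rw [one_mul, mul_one]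
      exact this.ne'
    have h2 := (continuous_Ph'' (s := s) (w := w) (d := d)).continuousAt (x := 1)
    fun_prop (disch := assumption)
  have hev : ∀ᶠ X in 𝓝 (1 : ℝ), 0 < SS'' s w d q T X ∧ 0 < X ∧ X < 1 / q := by
    refine (hc.eventually (lt_mem_nhds h)).and (Ioo_mem_nhds one_pos hone)
  obtain ⟨δ, hδ, hball⟩ := Metric.eventually_nhds_iff.1 hev
  refine ⟨δ, hδ, fun X hX => ?_⟩
  have hin : ∀ Y, |Y - 1| < δ → 0 < SS'' s w d q T Y ∧ 0 < Y ∧ Y < 1 / q := fun Y hY =>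
    hball (by rwa [Real.dist_eq])
  rcases lt_trichotomy X 1 with h1 | h1 | h1
  · have hX' := abs_lt.1 hX
    have hin' : ∀ Y ∈ Icc X 1, 0 < SS'' s w d q T Y ∧ 0 < Y ∧ Y < 1 / q := fun Y hY =>
      hin Y (abs_lt.2 ⟨by linarith [hY.1], by linarith [hY.2]⟩)
    obtain ⟨c, hc, hc'⟩ := exists_hasDerivAt_eq_slope (SS s w d q T) (SS' s w d q T) h1
      (fun Y hY => (hasDerivAt_SS hd hq hq1 T (hin' Y hY).2.1
        (hin' Y hY).2.2).continuousAt.continuousWithinAt)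
      (fun Y hY => hasDerivAt_SS hd hq hq1 T (hin' Y (Ioo_subset_Icc_self hY)).2.1
        (hin' Y (Ioo_subset_Icc_self hY)).2.2)
    obtain ⟨e, he, he'⟩ := exists_hasDerivAt_eq_slope (SS' s w d q T) (SS'' s w d q T) hc.2
      (fun Y hY => (hasDerivAt_SS' hq T (hin' Y ⟨hc.1.le.trans hY.1, hY.2⟩).2.1
        (hin' Y ⟨hc.1.le.trans hY.1, hY.2⟩).2.2).continuousAt.continuousWithinAt)
      (fun Y hY => hasDerivAt_SS' hq T (hin' Y ⟨hc.1.le.trans hY.1.le, hY.2.le⟩).2.1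
        (hin' Y ⟨hc.1.le.trans hY.1.le, hY.2.le⟩).2.2)
    have p := (hin' e ⟨hc.1.le.trans he.1.le, he.2.le⟩).1
    rw [he', SS'_one, lt_div_iff₀ (by linarith [hc.2])] at p
    rw [SS_one hq hq1, eq_div_iff (by linarith)] at hc'
    have : SS' s w d q T c * (1 - X) ≤ 0 :=
      mul_nonpos_of_nonpos_of_nonneg (by linarith) (by linarith)
    linarith
  · rw [h1, SS_one hq hq1]
  · have hX' := abs_lt.1 hX
    have hin' : ∀ Y ∈ Icc 1 X, 0 < SS'' s w d q T Y ∧ 0 < Y ∧ Y < 1 / q := fun Y hY =>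
      hin Y (abs_lt.2 ⟨by linarith [hY.1], by linarith [hY.2]⟩)
    obtain ⟨c, hc, hc'⟩ := exists_hasDerivAt_eq_slope (SS s w d q T) (SS' s w d q T) h1
      (fun Y hY => (hasDerivAt_SS hd hq hq1 T (hin' Y hY).2.1
        (hin' Y hY).2.2).continuousAt.continuousWithinAt)
      (fun Y hY => hasDerivAt_SS hd hq hq1 T (hin' Y (Ioo_subset_Icc_self hY)).2.1
        (hin' Y (Ioo_subset_Icc_self hY)).2.2)
    obtain ⟨e, he, he'⟩ := exists_hasDerivAt_eq_slope (SS' s w d q T) (SS'' s w d q T) hc.1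
      (fun Y hY => (hasDerivAt_SS' hq T (hin' Y ⟨hY.1, hY.2.trans hc.2.le⟩).2.1
        (hin' Y ⟨hY.1, hY.2.trans hc.2.le⟩).2.2).continuousAt.continuousWithinAt)
      (fun Y hY => hasDerivAt_SS' hq T (hin' Y ⟨hY.1.le, hY.2.le.trans hc.2.le⟩).2.1
        (hin' Y ⟨hY.1.le, hY.2.le.trans hc.2.le⟩).2.2)
    have p := (hin' e ⟨he.1.le, he.2.le.trans hc.2.le⟩).1
    rw [he', SS'_one, lt_div_iff₀ (by linarith [hc.1])] at p
    rw [SS_one hq hq1, eq_div_iff (by linarith)] at hc'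
    have : 0 ≤ SS' s w d q T c * (X - 1) := mul_nonneg (by linarith) (by linarith)
    linarith

/-- `S'' < 0` on a left neighbourhood of `1` -/
theorem Touch_left (hd : ∀ i ∈ s, 2 ≤ d i) (hq : 0 < q) (hq1 : q < 1) {T u : ℝ} (hu0 : 0 ≤ u)
    (hu : u < 1) (h : ∀ X, u < X → X < 1 → SS'' s w d q T X < 0) :
    ∃ X, 0 < X ∧ X < 1 ∧ SS s w d q T X < 0 := by
  have hone := one_lt_inv' hq hq1
  obtain ⟨X, hX1, hX2⟩ := exists_between hu
  have hX0 : 0 < X := lt_of_le_of_lt hu0 hX1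
  refine ⟨X, hX0, hX2, ?_⟩
  have hin' : ∀ Y ∈ Icc X 1, 0 < Y ∧ Y < 1 / q := fun Y hY =>
    ⟨lt_of_lt_of_le hX0 hY.1, lt_of_le_of_lt hY.2 hone⟩
  obtain ⟨c, hc, hc'⟩ := exists_hasDerivAt_eq_slope (SS s w d q T) (SS' s w d q T) hX2
    (fun Y hY => (hasDerivAt_SS hd hq hq1 T (hin' Y hY).1
      (hin' Y hY).2).continuousAt.continuousWithinAt)
    (fun Y hY => hasDerivAt_SS hd hq hq1 T (hin' Y (Ioo_subset_Icc_self hY)).1
      (hin' Y (Ioo_subset_Icc_self hY)).2)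
  obtain ⟨e, he, he'⟩ := exists_hasDerivAt_eq_slope (SS' s w d q T) (SS'' s w d q T) hc.2
    (fun Y hY => (hasDerivAt_SS' hq T (hin' Y ⟨hc.1.le.trans hY.1, hY.2⟩).1
      (hin' Y ⟨hc.1.le.trans hY.1, hY.2⟩).2).continuousAt.continuousWithinAt)
    (fun Y hY => hasDerivAt_SS' hq T (hin' Y ⟨hc.1.le.trans hY.1.le, hY.2.le⟩).1
      (hin' Y ⟨hc.1.le.trans hY.1.le, hY.2.le⟩).2)
  have p := h e (hX1.trans (hc.1.trans he.1)) he.2
  rw [he', SS'_one, div_lt_iff₀ (by linarith [hc.2])] at p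
  rw [SS_one hq hq1, eq_div_iff (by linarith)] at hc'
  have : 0 < SS' s w d q T c * (1 - X) := mul_pos (by linarith) (by linarith)
  linarith

/-- `S'' < 0` on a right neighbourhood of `1` -/
theorem Touch_right (hd : ∀ i ∈ s, 2 ≤ d i) (hq : 0 < q) (hq1 : q < 1) {T u : ℝ} (hu : 1 < u)
    (hu1 : u ≤ 1 / q) (h : ∀ X, 1 < X → X < u → SS'' s w d q T X < 0) :
    ∃ X, 1 < X ∧ X < 1 / q ∧ SS s w d q T X < 0 := by
  obtain ⟨X, hX1, hX2⟩ := exists_between hu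
  have hX0 : X < 1 / q := lt_of_lt_of_le hX2 hu1
  refine ⟨X, hX1, hX0, ?_⟩
  have hin' : ∀ Y ∈ Icc 1 X, 0 < Y ∧ Y < 1 / q := fun Y hY =>
    ⟨lt_of_lt_of_le one_pos hY.1, lt_of_le_of_lt hY.2 hX0⟩
  obtain ⟨c, hc, hc'⟩ := exists_hasDerivAt_eq_slope (SS s w d q T) (SS' s w d q T) hX1
    (fun Y hY => (hasDerivAt_SS hd hq hq1 T (hin' Y hY).1
      (hin' Y hY).2).continuousAt.continuousWithinAt)
    (fun Y hY => hasDerivAt_SS hd hq hq1 T (hin' Y (Ioo_subset_Icc_self hY)).1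
      (hin' Y (Ioo_subset_Icc_self hY)).2)
  obtain ⟨e, he, he'⟩ := exists_hasDerivAt_eq_slope (SS' s w d q T) (SS'' s w d q T) hc.1
    (fun Y hY => (hasDerivAt_SS' hq T (hin' Y ⟨hY.1, hY.2.trans hc.2.le⟩).1
      (hin' Y ⟨hY.1, hY.2.trans hc.2.le⟩).2).continuousAt.continuousWithinAt)
    (fun Y hY => hasDerivAt_SS' hq T (hin' Y ⟨hY.1.le, hY.2.le.trans hc.2.le⟩).1
      (hin' Y ⟨hY.1.le, hY.2.le.trans hc.2.le⟩).2)
  have p := h e he.1 (he.2.trans (hc.2.trans hX2))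
  rw [he', SS'_one, div_lt_iff₀ (by linarith [hc.1])] at p
  rw [SS_one hq hq1, eq_div_iff (by linarith)] at hc'
  have : SS' s w d q T c * (X - 1) < 0 := mul_neg_of_neg_of_pos (by linarith) (by linarith)
  linarith

/-- improvement of the slope -/
theorem Touch_improve (hd : ∀ i ∈ s, 2 ≤ d i) (hw : ∀ i ∈ s, 0 < w i) (hne : s.Nonempty)
    (hq : 0 < q)
    (hq1 : q < 1) {T : ℝ}
    (h : ∀ X, 0 ≤ X → X ≤ 1 / q → X ≠ 1 → 0 < SS s w d q T X)
    (h2 : 0 < SS'' s w d q T 1) :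
    ∃ ε > 0, ∀ X, 0 ≤ X → X ≤ 1 / q → 0 ≤ SS s w d q (T + ε) X := by
  have hone := one_lt_inv' hq hq1
  set μ := Ph'' s w d 1 with hμ
  have hμ0 : 0 < μ := by
    rw [hμ]
    unfold Ph''
    refine Finset.sum_pos (fun i hi => ?_) hne
    have h1 : (0 : ℝ) < ((d i - 1 : ℕ) : ℝ) := by
      exact_mod_cast (by have := hd i hi; omega : 0 < d i - 1)
    have h2 := hw i hi
    simp only [one_pow, mul_one]
    positivity
  set ε₁ := SS'' s w d q T 1 / (2 * μ) with hε1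
  have hε1' : 0 < ε₁ := by positivity
  have h3 : 0 < SS'' s w d q (T + ε₁) 1 := by
    have e : SS'' s w d q (T + ε₁) 1 = SS'' s w d q T 1 - ε₁ * μ := by
      unfold SS''
      rw [hμ]
      ring
    have e2 : ε₁ * μ = SS'' s w d q T 1 / 2 := by
      rw [hε1]
      field_simp
    rw [e, e2]
    linarith
  obtain ⟨δ, hδ, hnear⟩ := Touch_near hd hq hq1 h3
  -- compact part
  set K := Icc 0 (1 / q) \ Ioo (1 - δ) (1 + δ) with hK
  have hKc : IsCompact K := isCompact_Icc.diff isOpen_Ioo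
  have hΦb : ∃ M > 0, ∀ X ∈ Icc (0 : ℝ) (1 / q), Ph s w d X ≤ M := by
    obtain ⟨M, hM⟩ := (isCompact_Icc (a := (0 : ℝ)) (b := 1 / q)).exists_bound_of_continuousOn
      (f := Ph s w d) continuous_Ph.continuousOn
    refine ⟨max M 1, by positivity, fun X hX => ?_⟩
    have := hM X hX
    rw [Real.norm_eq_abs] at this
    exact (le_abs_self _).trans (this.trans (le_max_left _ _))
  obtain ⟨M, hM, hMb⟩ := hΦb
  have hm : ∃ m > 0, ∀ X ∈ K, m ≤ SS s w d q T X := by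
    rcases K.eq_empty_or_nonempty with hE | hE
    · exact ⟨1, one_pos, fun X hX => by rw [hE] at hX; exact absurd hX (notMem_empty X)⟩
    · obtain ⟨X, hX, hmin⟩ := hKc.exists_isMinOn hE
        ((continuousOn_SS (s := s) (w := w) (d := d) hq hq1 T).mono sdiff_subset)
      refine ⟨SS s w d q T X, ?_, fun Y hY => hmin hY⟩
      apply h X hX.1.1 hX.1.2
      rintro rfl
      exact hX.2 ⟨by linarith, by linarith⟩
  obtain ⟨m, hm0, hmb⟩ := hm
  refine ⟨min ε₁ (m / M), lt_min hε1' (by positivity), fun X hX hX' => ?_⟩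
  have hP := Ph_nonneg hd hw hne hX
  have e : SS s w d q (T + min ε₁ (m / M)) X = SS s w d q T X - min ε₁ (m / M) * Ph s w d X := by
    unfold SS
    ring
  rw [e]
  by_cases hdd : |X - 1| < δ
  · have h4 := hnear X hdd
    have e2 : SS s w d q (T + ε₁) X = SS s w d q T X - ε₁ * Ph s w d X := by
      unfold SS
      ring
    rw [e2] at h4
    have := mul_le_mul_of_nonneg_right (min_le_left ε₁ (m / M)) hP
    linarith
  · have hXK : X ∈ K := by
      refine ⟨⟨hX, hX'⟩, fun hcon => hdd (abs_lt.2 ⟨?_, ?_⟩)⟩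
      · linarith [hcon.1]
      · linarith [hcon.2]
    have h4 := hmb X hXK
    have h5 : min ε₁ (m / M) * Ph s w d X ≤ m := by
      calc min ε₁ (m / M) * Ph s w d X ≤ (m / M) * M :=
            mul_le_mul (min_le_right _ _) (hMb X ⟨hX, hX'⟩) hP (by positivity)
        _ = m := by field_simp
    linarith

theorem dd_pos (hq : 0 < q) (hq1 : q < 1) {X : ℝ} (hX : 0 ≤ X) (hX' : X ≤ 1 / q) (h : X ≠ 1) :
    0 < dd q X := by
  have h0 : 0 ≤ q * X := by positivity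
  have h1 : q * X ≤ 1 := by
    rw [le_div_iff₀ hq] at hX'
    linarith
  have h2 := relEnt_ge hq hq1 h0 h1
  have h3 : 0 < kq q := kq_pos hq hq1
  have h4 : 0 < (q * X - q) ^ 2 := by
    have : q * X - q ≠ 0 := by
      have : q * X - q = q * (X - 1) := by ring
      rw [this]
      exact mul_ne_zero hq.ne' (sub_ne_zero.2 h)
    positivity
  have h5 := mul_pos h3 h4
  unfold dd
  linarith

end

end Pool.Agent.W_bbc525_gd
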